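import Pool.Agent.Lib.Circ2.Defs2
import Pool.Agent.Lib.Circ.ExpD

/-!
# Module K2: the mean of the regularised determinant for independent rows

Same induction as in `Pool.Agent.Lib.Circ.ExpD`, with general laws `R i` of the rows about which
only the inequality for the mean of the quadratic form is known (note that masking columns of the
row means zeroing columns of `g`, so the hypothesis for all `g` suffices).
-/

set_option autoImplicit false

open MeasureTheory ProbabilityTheory Filter Matrix Finset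

namespace Pool.Agent.Circ2

open Pool.Agent.Circ

variable {n : ℕ}

/-- One row. -/
theorem md_row (R : Fin n → Measure (Fin n → ℂ)) [∀ i, IsProbabilityMeasure (R i)]
    (U : Matrix (Fin n) (Fin n) ℝ) (z : ℂ) {τ : ℝ} (hτ : 0 < τ)
    {S : Finset (Fin n)} (C : Finset (Fin n)) {i : Fin n} (hi : i ∉ S)
    (x : Fin n → Fin n → ℂ) :
    ∃ g' : Matrix (Fin n) (Fin n) ℂ,
      (∫⁻ y : Fin n → ℂ, ENNReal.ofReal
        (D τ (ed_mask (insert i S) C (Amat U z (Function.update x i y)))) ∂(R i) =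
      ENNReal.ofReal (D τ (ed_mask S C (Amat U z x))) +
        ENNReal.ofReal (D τ (ed_mask S C (Amat U z x))) *
          ∫⁻ y, ENNReal.ofReal (Q g' (U i) z i y) ∂(R i)) ∧
      (ENNReal.ofReal (D τ (ed_mask S C (Amat U z x))) *
        ENNReal.ofReal (∑ k, (U i k ^ 2 + (if k = i then ‖z‖ ^ 2 else 0)) *
          ∑ l, ‖g' l k‖ ^ 2) =
        ∑ k ∈ C, ENNReal.ofReal (Bmat U (‖z‖ ^ 2) i k * (τ ^ 2)⁻¹) *
          ENNReal.ofReal (D τ (ed_mask S (C.erase k) (Amat U z x)))) := by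
  set A := ed_mask S C (Amat U z x) with hA
  obtain ⟨g, -, hg⟩ := D_row hτ A i
  have hA0 : A.updateRow i 0 = A := ed_updateRow_zero C hi _
  rw [hA0] at hg
  have hD0 : 0 < D τ A := D_pos hτ A
  set g' : Matrix (Fin n) (Fin n) ℂ := Matrix.of fun l k => if k ∈ C then g l k else 0 with hg'
  have h1 : ∀ y : Fin n → ℂ, ENNReal.ofReal
        (D τ (ed_mask (insert i S) C (Amat U z (Function.update x i y)))) =
      ENNReal.ofReal (D τ A) * (1 + ENNReal.ofReal (Q g' (U i) z i y)) := by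
    intro y
    rw [ed_mask_insert U z C hi, ← hA, hg, ENNReal.ofReal_mul hD0.le,
      ENNReal.ofReal_add zero_le_one (by positivity), ENNReal.ofReal_one]
    congr 3
    unfold Q
    refine Finset.sum_congr rfl fun l _ => ?_
    congr 2
    refine Finset.sum_congr rfl fun k _ => ?_
    simp only [hg', Matrix.of_apply]
    split_ifs <;> simp
  have hQm : Measurable fun y : Fin n → ℂ => ENNReal.ofReal (Q g' (U i) z i y) := by
    unfold Q arow
    fun_prop
  refine ⟨g', ?_, ?_⟩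
  · simp_rw [h1]
    rw [lintegral_const_mul _ (by fun_prop), lintegral_add_left measurable_const,
      lintegral_const, measure_univ, mul_one, mul_add, mul_one]
  have hB : ∀ k, 0 ≤ U i k ^ 2 + (if k = i then ‖z‖ ^ 2 else 0) := by
    intro k
    split_ifs <;> positivity
  rw [← ENNReal.ofReal_mul hD0.le]
  have h2 : ∀ k ∈ C, ENNReal.ofReal (Bmat U (‖z‖ ^ 2) i k * (τ ^ 2)⁻¹) *
      ENNReal.ofReal (D τ (ed_mask S (C.erase k) (Amat U z x))) =
      ENNReal.ofReal (D τ A * ((U i k ^ 2 + (if k = i then ‖z‖ ^ 2 else 0)) *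
        ∑ l, ‖g l k‖ ^ 2)) := by
    intro k hk
    have h3 := D_single hτ A i k
    rw [hA0, hg, hA, ed_updateCol_zero, ← hA] at h3
    have h4 : ∑ l, ‖∑ k', g l k' * (Pi.single k (1 : ℂ) : Fin n → ℂ) k'‖ ^ 2 =
        ∑ l, ‖g l k‖ ^ 2 := by
      refine Finset.sum_congr rfl fun l _ => ?_
      congr 2
      simp [Pi.single_apply]
    rw [h4] at h3
    rw [← ENNReal.ofReal_mul (by
      unfold Bmat
      simp only [Matrix.of_apply]
      have := hB k
      positivity)]
    congr 1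
    have h5 : D τ A * ∑ l, ‖g l k‖ ^ 2 =
        (τ ^ 2)⁻¹ * D τ (ed_mask S (C.erase k) (Amat U z x)) := by linarith
    unfold Bmat
    simp only [Matrix.of_apply]
    rw [mul_assoc, ← h5]
    ring
  rw [Finset.sum_congr rfl h2, ← ENNReal.ofReal_sum_of_nonneg (fun k _ => by
    have := hB k
    positivity), ← Finset.mul_sum]
  congr 2
  rw [← Finset.sum_filter_add_sum_filter_not Finset.univ (fun k => k ∈ C)]
  have h6 : ∑ k ∈ Finset.univ.filter (fun k => ¬ k ∈ C),
      (U i k ^ 2 + (if k = i then ‖z‖ ^ 2 else 0)) * ∑ l, ‖g' l k‖ ^ 2 = 0 := by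
    refine Finset.sum_eq_zero fun k hk => ?_
    have hk' : k ∉ C := (Finset.mem_filter.1 hk).2
    have : ∑ l, ‖g' l k‖ ^ 2 = 0 := by
      refine Finset.sum_eq_zero fun l _ => ?_
      simp [hg', hk']
    rw [this, mul_zero]
  rw [h6, add_zero, Finset.filter_mem_eq_inter, Finset.univ_inter]
  refine Finset.sum_congr rfl fun k hk => ?_
  congr 1
  refine Finset.sum_congr rfl fun l _ => ?_
  simp [hg', hk]

theorem md_B0 (U : Matrix (Fin n) (Fin n) ℝ) (z : ℂ) (i j : Fin n) :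
    0 ≤ Bmat U (‖z‖ ^ 2) i j := by
  unfold Bmat
  simp only [Matrix.of_apply]
  split_ifs <;> positivity

/-- The algebra of the induction step. -/
theorem md_alg (U : Matrix (Fin n) (Fin n) ℝ) (z : ℂ) {τ : ℝ} (hτ : 0 < τ) {i : Fin n}
    {S : Finset (Fin n)} (hi : i ∉ S) (C : Finset (Fin n)) :
    ENNReal.ofReal ((τ ^ 2) ^ (n - C.card) *
        F (Bmat U (‖z‖ ^ 2)) (fun _ => 1) (fun _ => τ ^ 2) S C) +
      ∑ k ∈ C, ENNReal.ofReal (Bmat U (‖z‖ ^ 2) i k * (τ ^ 2)⁻¹) *
        ENNReal.ofReal ((τ ^ 2) ^ (n - (C.erase k).card) *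
          F (Bmat U (‖z‖ ^ 2)) (fun _ => 1) (fun _ => τ ^ 2) S (C.erase k)) =
      ENNReal.ofReal ((τ ^ 2) ^ (n - C.card) *
        F (Bmat U (‖z‖ ^ 2)) (fun _ => 1) (fun _ => τ ^ 2) (insert i S) C) := by
  have hB0 := md_B0 U z
  have hF0 : ∀ C', 0 ≤ F (Bmat U (‖z‖ ^ 2)) (fun _ => 1) (fun _ => τ ^ 2) S C' := fun C' =>
    F_nonneg hB0 (fun _ => zero_le_one) (fun _ => by positivity) S C'
  have h1 : ∀ k ∈ C, ENNReal.ofReal (Bmat U (‖z‖ ^ 2) i k * (τ ^ 2)⁻¹) *
        ENNReal.ofReal ((τ ^ 2) ^ (n - (C.erase k).card) *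
          F (Bmat U (‖z‖ ^ 2)) (fun _ => 1) (fun _ => τ ^ 2) S (C.erase k)) =
      ENNReal.ofReal ((τ ^ 2) ^ (n - C.card) * (Bmat U (‖z‖ ^ 2) i k *
        F (Bmat U (‖z‖ ^ 2)) (fun _ => 1) (fun _ => τ ^ 2) S (C.erase k))) := by
    intro k hk
    rw [← ENNReal.ofReal_mul (by
      have := hB0 i k
      positivity)]
    congr 1
    have hcard : n - (C.erase k).card = (n - C.card) + 1 := by
      have h2 := Finset.card_le_univ C
      rw [Fintype.card_fin] at h2
      have h3 : 0 < C.card := Finset.card_pos.2 ⟨k, hk⟩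
      rw [Finset.card_erase_of_mem hk]
      omega
    rw [hcard, pow_succ]
    field_simp
    ring
  rw [Finset.sum_congr rfl h1, ← ENNReal.ofReal_sum_of_nonneg (fun k _ => by
    have := hB0 i k
    have := hF0 (C.erase k)
    positivity), ← ENNReal.ofReal_add (by
      have := hF0 C
      positivity) (Finset.sum_nonneg fun k _ => by
    have := hB0 i k
    have := hF0 (C.erase k)
    positivity)]
  congr 1
  rw [F_row _ _ _ C (Finset.mem_insert_self i S), Finset.erase_insert hi, one_mul, mul_add,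
    Finset.mul_sum]

theorem md_empty (R : Fin n → Measure (Fin n → ℂ)) (U : Matrix (Fin n) (Fin n) ℝ) (z : ℂ)
    (τ : ℝ) (C : Finset (Fin n)) (x : Fin n → Fin n → ℂ) :
    (lmarginal R ∅ (fun x => ENNReal.ofReal (D τ (ed_mask ∅ C (Amat U z x))))) x =
      ENNReal.ofReal ((τ ^ 2) ^ (n - C.card) *
        F (Bmat U (‖z‖ ^ 2)) (fun _ => 1) (fun _ => τ ^ 2) ∅ C) := by
  rw [lmarginal_empty]
  simp only [ed_mask_empty]
  rw [D_zero_matrix, F_empty, Finset.prod_const, ← pow_add]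
  congr 2
  have := Finset.card_le_univ C
  rw [Fintype.card_fin] at this
  omega

theorem md_upper (R : Fin n → Measure (Fin n → ℂ)) [∀ i, IsProbabilityMeasure (R i)]
    (U : Matrix (Fin n) (Fin n) ℝ) (z : ℂ)
    (hQ : ∀ (i : Fin n) (g : Matrix (Fin n) (Fin n) ℂ),
      ∫⁻ x, ENNReal.ofReal (Q g (U i) z i x) ∂(R i) ≤
        ENNReal.ofReal (∑ k, (U i k ^ 2 + (if k = i then ‖z‖ ^ 2 else 0)) * ∑ l, ‖g l k‖ ^ 2))
    {τ : ℝ} (hτ : 0 < τ) (S : Finset (Fin n)) : ∀ (C : Finset (Fin n)) (x : Fin n → Fin n → ℂ),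
    (lmarginal R S (fun x => ENNReal.ofReal (D τ (ed_mask S C (Amat U z x))))) x ≤
      ENNReal.ofReal ((τ ^ 2) ^ (n - C.card) *
        F (Bmat U (‖z‖ ^ 2)) (fun _ => 1) (fun _ => τ ^ 2) S C) := by
  induction S using Finset.induction_on with
  | empty => exact fun C x => (md_empty R U z τ C x).le
  | insert i S hi ih =>
    intro C x
    rw [lmarginal_insert' _ (ed_measurable U z τ (insert i S) C) hi]
    have hstep : ∀ x : Fin n → Fin n → ℂ, ∫⁻ y : Fin n → ℂ, ENNReal.ofReal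
        (D τ (ed_mask (insert i S) C (Amat U z (Function.update x i y)))) ∂(R i) ≤
        ENNReal.ofReal (D τ (ed_mask S C (Amat U z x))) +
        ∑ k ∈ C, ENNReal.ofReal (Bmat U (‖z‖ ^ 2) i k * (τ ^ 2)⁻¹) *
          ENNReal.ofReal (D τ (ed_mask S (C.erase k) (Amat U z x))) := by
      intro x
      obtain ⟨g', h1, h2⟩ := md_row R U z hτ C hi x
      rw [h1, ← h2]
      gcongr
      exact hQ i g'
    refine (lmarginal_mono hstep x).trans ?_
    have hm : ∀ C', Measurable fun y : (∀ _ : S, Fin n → ℂ) =>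
        ENNReal.ofReal (D τ (ed_mask S C' (Amat U z (Function.updateFinset x S y)))) :=
      fun C' => (ed_measurable U z τ S C').comp measurable_updateFinset
    have ih' := fun C' => ih C' x
    simp only [lmarginal] at ih' ⊢
    rw [lintegral_add_left (hm C), lintegral_finsetSum _ (fun k _ => (hm _).const_mul _),
      ← md_alg U z hτ hi C]
    refine add_le_add (ih' C) (Finset.sum_le_sum fun k _ => ?_)
    rw [lintegral_const_mul _ (hm _)]
    gcongr
    exact ih' (C.erase k)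

theorem md_lower (R : Fin n → Measure (Fin n → ℂ)) [∀ i, IsProbabilityMeasure (R i)]
    (U : Matrix (Fin n) (Fin n) ℝ) (z : ℂ) {q : ℝ} (hq0 : 0 ≤ q) (hq1 : q ≤ 1)
    (hQ : ∀ (i : Fin n) (g : Matrix (Fin n) (Fin n) ℂ),
      ENNReal.ofReal (q * ∑ k, (U i k ^ 2 + (if k = i then ‖z‖ ^ 2 else 0)) *
        ∑ l, ‖g l k‖ ^ 2) ≤ ∫⁻ x, ENNReal.ofReal (Q g (U i) z i x) ∂(R i))
    {τ : ℝ} (hτ : 0 < τ) (S : Finset (Fin n)) : ∀ (C : Finset (Fin n)) (x : Fin n → Fin n → ℂ),
    ENNReal.ofReal (q ^ S.card) * ENNReal.ofReal ((τ ^ 2) ^ (n - C.card) *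
        F (Bmat U (‖z‖ ^ 2)) (fun _ => 1) (fun _ => τ ^ 2) S C) ≤
    (lmarginal R S (fun x => ENNReal.ofReal (D τ (ed_mask S C (Amat U z x))))) x := by
  induction S using Finset.induction_on with
  | empty =>
    intro C x
    rw [md_empty R U z τ C x]
    simp
  | insert i S hi ih =>
    intro C x
    rw [lmarginal_insert' _ (ed_measurable U z τ (insert i S) C) hi]
    have hstep : ∀ x : Fin n → Fin n → ℂ, ENNReal.ofReal q *
        (ENNReal.ofReal (D τ (ed_mask S C (Amat U z x))) +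
        ∑ k ∈ C, ENNReal.ofReal (Bmat U (‖z‖ ^ 2) i k * (τ ^ 2)⁻¹) *
          ENNReal.ofReal (D τ (ed_mask S (C.erase k) (Amat U z x)))) ≤
        ∫⁻ y : Fin n → ℂ, ENNReal.ofReal
        (D τ (ed_mask (insert i S) C (Amat U z (Function.update x i y)))) ∂(R i) := by
      intro x
      obtain ⟨g', h1, h2⟩ := md_row R U z hτ C hi x
      rw [h1, ← h2, mul_add]
      refine add_le_add ?_ ?_
      · calc ENNReal.ofReal q * ENNReal.ofReal (D τ (ed_mask S C (Amat U z x)))
            ≤ 1 * ENNReal.ofReal (D τ (ed_mask S C (Amat U z x))) := by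
              gcongr
              exact ENNReal.ofReal_le_one.2 hq1
          _ = _ := one_mul _
      · rw [mul_left_comm]
        gcongr
        rw [← ENNReal.ofReal_mul hq0]
        exact hQ i g'
    refine le_trans ?_ (lmarginal_mono hstep x)
    have hm : ∀ C', Measurable fun y : (∀ _ : S, Fin n → ℂ) =>
        ENNReal.ofReal (D τ (ed_mask S C' (Amat U z (Function.updateFinset x S y)))) :=
      fun C' => (ed_measurable U z τ S C').comp measurable_updateFinset
    have ih' := fun C' => ih C' x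
    simp only [lmarginal] at ih' ⊢
    rw [lintegral_const_mul _ (by
      refine (hm C).add ?_
      exact Finset.measurable_sum _ fun k _ => (hm _).const_mul _),
      lintegral_add_left (hm C), lintegral_finsetSum _ (fun k _ => (hm _).const_mul _),
      ← md_alg U z hτ hi C, Finset.card_insert_of_notMem hi, pow_succ, mul_comm (q ^ S.card) q,
      ENNReal.ofReal_mul hq0, mul_assoc]
    gcongr
    rw [mul_add, Finset.mul_sum]
    refine add_le_add (ih' C) (Finset.sum_le_sum fun k _ => ?_)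
    rw [lintegral_const_mul _ (hm _), mul_left_comm]
    gcongr
    exact ih' (C.erase k)

theorem meanD_upper (R : Fin n → Measure (Fin n → ℂ)) [∀ i, IsProbabilityMeasure (R i)]
    (U : Matrix (Fin n) (Fin n) ℝ) (hU : ∀ i j, 0 ≤ U i j) (z : ℂ)
    (hQ : ∀ (i : Fin n) (g : Matrix (Fin n) (Fin n) ℂ),
      ∫⁻ x, ENNReal.ofReal (Q g (U i) z i x) ∂(R i) ≤
        ENNReal.ofReal (∑ k, (U i k ^ 2 + (if k = i then ‖z‖ ^ 2 else 0)) * ∑ l, ‖g l k‖ ^ 2))
    {τ : ℝ} (hτ : 0 < τ) :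
    ∫⁻ x, ENNReal.ofReal (D τ (Amat U z x)) ∂(Measure.pi R) ≤
      ENNReal.ofReal (F (Bmat U (‖z‖ ^ 2)) (fun _ => 1) (fun _ => τ ^ 2)
        Finset.univ Finset.univ) := by
  have _ := hU
  have h := md_upper R U z hQ hτ Finset.univ Finset.univ (fun _ _ => 0)
  rw [lmarginal_univ] at h
  simp only [ed_mask_univ] at h
  refine h.trans (le_of_eq ?_)
  simp

theorem meanD_lower (R : Fin n → Measure (Fin n → ℂ)) [∀ i, IsProbabilityMeasure (R i)]
    (U : Matrix (Fin n) (Fin n) ℝ) (hU : ∀ i j, 0 ≤ U i j) (z : ℂ) {q : ℝ} (hq0 : 0 ≤ q)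
    (hq1 : q ≤ 1)
    (hQ : ∀ (i : Fin n) (g : Matrix (Fin n) (Fin n) ℂ),
      ENNReal.ofReal (q * ∑ k, (U i k ^ 2 + (if k = i then ‖z‖ ^ 2 else 0)) *
        ∑ l, ‖g l k‖ ^ 2) ≤ ∫⁻ x, ENNReal.ofReal (Q g (U i) z i x) ∂(R i))
    {τ : ℝ} (hτ : 0 < τ) :
    ENNReal.ofReal (q ^ n * F (Bmat U (‖z‖ ^ 2)) (fun _ => 1) (fun _ => τ ^ 2)
        Finset.univ Finset.univ) ≤
      ∫⁻ x, ENNReal.ofReal (D τ (Amat U z x)) ∂(Measure.pi R) := by
  have _ := hU
  have h := md_lower R U z hq0 hq1 hQ hτ Finset.univ Finset.univ (fun _ _ => 0)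
  rw [lmarginal_univ] at h
  simp only [ed_mask_univ] at h
  refine le_trans (le_of_eq ?_) h
  rw [ENNReal.ofReal_mul (by positivity)]
  simp

end Pool.Agent.Circ2
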