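import Pool.Agent.Lib.Circ2.LinForm2
import Pool.Agent.Lib.Circ.OneRowSmall

/-!
# Module H2: resampling one row, small exponents

Same proof as `Pool.Agent.Lib.Circ.OneRowSmall` with `Λ` in place of `(6K)^(4/α) n`: with
`t₀ = 1 / log Λ ≤ 1`, `m = 1 + E Q`, `E ((1+Q)/m)^(-t₀) ≤ e`, `E ((1+Q)/m)^t₀ ≤ 1`, and then
`cosh (s y) - 1 ≤ s² (cosh y - 1)`.
-/

set_option autoImplicit false

open MeasureTheory ProbabilityTheory Filter Matrix Finset

namespace Pool.Agent.Circ2

open Pool.Agent.Circ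

variable {n : ℕ}

/-- second moment of an affine form -/
lemma H_sq {μ : Measure ℂ} [IsProbabilityMeasure μ] (hμ : Law2 μ) (c : Fin n → ℂ) (b : ℂ) :
    ∫⁻ x, ENNReal.ofReal (‖∑ k, c k * x k - b‖ ^ 2) ∂(Measure.pi fun _ : Fin n => μ) =
      ENNReal.ofReal (∑ k, ‖c k‖ ^ 2 + ‖b‖ ^ 2) := by
  obtain ⟨h1, h2⟩ := lf_sq2 (fun _ : Fin n => μ) (fun _ => hμ.int2) c b
  rw [← ofReal_integral_eq_lintegral_ofReal h1 (Eventually.of_forall fun x => by positivity), h2]
  congr 1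
  simp [hμ.mean, hμ.var]

/-- upper moment -/
lemma H_up {μ : Measure ℂ} [IsProbabilityMeasure μ] (hμ : Law2 μ)
    (g : Matrix (Fin n) (Fin n) ℂ) (u : Fin n → ℝ) (z : ℂ) (i : Fin n) {t : ℝ} (ht0 : 0 ≤ t)
    (ht1 : t ≤ 1) :
    ∫⁻ x, ENNReal.ofReal ((1 + Q g u z i x) ^ t) ∂(Measure.pi fun _ : Fin n => μ) ≤
      ENNReal.ofReal ((1 + ∑ l, orsS g u z i l) ^ t) := by
  set M := 1 + ∑ l, orsS g u z i l with hM
  have hM1 : 1 ≤ M := by
    have : 0 ≤ ∑ l, orsS g u z i l := Finset.sum_nonneg fun l _ => orsS_nonneg g u z i l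
    linarith
  have hM0 : 0 < M := by linarith
  have hMt : 0 < M ^ t := Real.rpow_pos_of_pos hM0 t
  have hint : ∫⁻ x, ENNReal.ofReal (Q g u z i x) ∂(Measure.pi fun _ : Fin n => μ) =
      ENNReal.ofReal (∑ l, orsS g u z i l) := by
    simp only [ors_Q]
    simp_rw [ENNReal.ofReal_sum_of_nonneg (fun l _ => sq_nonneg _)]
    rw [lintegral_finsetSum _ (fun l _ => by fun_prop)]
    rw [ENNReal.ofReal_sum_of_nonneg (fun l _ => orsS_nonneg g u z i l)]
    exact Finset.sum_congr rfl fun l _ => H_sq hμ _ _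
  have hpt : ∀ x, ENNReal.ofReal ((1 + Q g u z i x) ^ t) ≤
      ENNReal.ofReal (M ^ t * (1 - t) + M ^ t * t / M) +
        ENNReal.ofReal (M ^ t * t / M) * ENNReal.ofReal (Q g u z i x) := by
    intro x
    have hQ := ors_Q_nonneg g u z i x
    rw [← ENNReal.ofReal_mul (by positivity), ← ENNReal.ofReal_add
      (add_nonneg (mul_nonneg hMt.le (by linarith)) (by positivity)) (by positivity)]
    apply ENNReal.ofReal_le_ofReal
    have h1 := rpow_one_add_le_one_add_mul_self (s := (1 + Q g u z i x) / M - 1)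
      (by have : 0 ≤ (1 + Q g u z i x) / M := by positivity
          linarith) ht0 ht1
    rw [add_sub_cancel, Real.div_rpow (by positivity) hM0.le, div_le_iff₀ hMt] at h1
    refine h1.trans (le_of_eq ?_)
    field_simp
    ring
  refine (lintegral_mono hpt).trans ?_
  rw [lintegral_add_left measurable_const, lintegral_const,
    lintegral_const_mul _ (ors_Q_meas g u z i).ennreal_ofReal, hint, measure_univ, mul_one,
    ← ENNReal.ofReal_mul (by positivity), ← ENNReal.ofReal_add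
      (add_nonneg (mul_nonneg hMt.le (by linarith)) (by positivity))
      (mul_nonneg (by positivity) (by linarith))]
  apply ENNReal.ofReal_le_ofReal
  have : ∑ l, orsS g u z i l = M - 1 := by rw [hM]; ring
  rw [this]
  apply le_of_eq
  field_simp
  ring

/-- lower moment -/
lemma H_down {μ : Measure ℂ} [IsProbabilityMeasure μ] {Λ : ℝ}
    (hΛ : UnifNeg μ Λ) (g : Matrix (Fin n) (Fin n) ℂ) (u : Fin n → ℝ) (z : ℂ)
    (i : Fin n) {t : ℝ} (ht0 : 0 < t) (ht : t * Real.log Λ = 1) :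
    ∫⁻ x, ENNReal.ofReal ((1 + Q g u z i x) ^ (-t)) ∂(Measure.pi fun _ : Fin n => μ) ≤
      ENNReal.ofReal (Real.exp 1 * (1 + ∑ l, orsS g u z i l) ^ (-t)) := by
  set M := 1 + ∑ l, orsS g u z i l with hM
  have hM1 : 1 ≤ M := by
    have : 0 ≤ ∑ l, orsS g u z i l := Finset.sum_nonneg fun l _ => orsS_nonneg g u z i l
    linarith
  have hM0 : 0 < M := by linarith
  have hMt : 0 < M ^ (-t - 1) := Real.rpow_pos_of_pos hM0 _
  have hA : 0 < Λ := lt_of_lt_of_le (Real.exp_pos 1) hΛ.1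
  have hAt : Λ ^ t = Real.exp 1 := by
    rw [Real.rpow_def_of_pos hA, mul_comm, ht]
  have hmeas : ∀ l, Measurable (fun x : Fin n → ℂ =>
      ‖∑ k, orsC g u l k * x k - orsB g z i l‖ₑ ^ (-2 * t)) := fun l => by fun_prop
  have hl : ∀ l, ∫⁻ x : Fin n → ℂ, ENNReal.ofReal (orsS g u z i l ^ (1 + t)) *
      ‖∑ k, orsC g u l k * x k - orsB g z i l‖ₑ ^ (-2 * t)
        ∂(Measure.pi fun _ : Fin n => μ) ≤ ENNReal.ofReal (Real.exp 1 * orsS g u z i l) := by
    intro l
    rw [lintegral_const_mul _ (hmeas l)]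
    by_cases h : orsS g u z i l = 0
    · rw [h, Real.zero_rpow (by linarith)]; simp
    · have h1 : 0 < orsS g u z i l := lt_of_le_of_ne (orsS_nonneg g u z i l) (Ne.symm h)
      have h2 := hΛ.2 n (orsC g u l) (orsB g z i l) _ h1 rfl t ht0.le ht.le
      refine (mul_le_mul_right h2 _).trans ?_
      rw [← ENNReal.ofReal_mul (by positivity), hAt]
      apply ENNReal.ofReal_le_ofReal
      rw [Real.rpow_neg h1.le, Real.rpow_add h1, Real.rpow_one]
      apply le_of_eq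
      field_simp
  refine (lintegral_mono (ors_down_pt g u z i ht0)).trans ?_
  rw [lintegral_const_mul _ (by fun_prop), lintegral_add_left measurable_const,
    lintegral_const, measure_univ, mul_one, lintegral_finsetSum _ (fun l _ => by fun_prop)]
  have h3 : (1 : ENNReal) + ∑ l, ∫⁻ x : Fin n → ℂ, ENNReal.ofReal (orsS g u z i l ^ (1 + t)) *
      ‖∑ k, orsC g u l k * x k - orsB g z i l‖ₑ ^ (-2 * t)
        ∂(Measure.pi fun _ : Fin n => μ) ≤ ENNReal.ofReal (Real.exp 1 * M) := by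
    refine (add_le_add le_rfl (Finset.sum_le_sum fun l _ => hl l)).trans ?_
    rw [← ENNReal.ofReal_sum_of_nonneg (fun l _ => mul_nonneg (Real.exp_pos 1).le
      (orsS_nonneg g u z i l)), ← ENNReal.ofReal_one, ← ENNReal.ofReal_add zero_le_one
      (Finset.sum_nonneg fun l _ => mul_nonneg (Real.exp_pos 1).le (orsS_nonneg g u z i l))]
    apply ENNReal.ofReal_le_ofReal
    rw [← Finset.mul_sum, hM, mul_add, mul_one]
    have := Real.add_one_le_exp (1 : ℝ)
    linarith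
  refine (mul_le_mul_right h3 _).trans ?_
  rw [← ENNReal.ofReal_mul hMt.le]
  apply ENNReal.ofReal_le_ofReal
  rw [Real.rpow_sub hM0, Real.rpow_one]
  apply le_of_eq
  field_simp

theorem one_row_small2 {μ : Measure ℂ} [IsProbabilityMeasure μ] (hμ : Law2 μ) {Λ : ℝ}
    (hΛ : UnifNeg μ Λ) (g : Matrix (Fin n) (Fin n) ℂ) (u : Fin n → ℝ) (z : ℂ)
    (i : Fin n) {t : ℝ} (ht0 : 0 ≤ t) (ht : t * Real.log Λ ≤ 1) :
    ∫⁻ x, ∫⁻ y, ENNReal.ofReal (((1 + Q g u z i x) / (1 + Q g u z i y)) ^ t)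
        ∂(Measure.pi fun _ : Fin n => μ) ∂(Measure.pi fun _ : Fin n => μ) ≤
      ENNReal.ofReal (1 + 2 * (t * Real.log Λ) ^ 2) := by
  have hm := ors_Q_meas g u z i
  have hQ := ors_Q_nonneg g u z i
  set P := (Measure.pi fun _ : Fin n => μ) with hP
  set L := Real.log Λ with hL
  -- the size of `L`
  have hLbig : 1 ≤ L := by
    rw [hL, Real.le_log_iff_exp_le (lt_of_lt_of_le (Real.exp_pos 1) hΛ.1)]
    exact hΛ.1
  have hLpos : 0 < L := by linarith
  set t0 := 1 / L with ht0'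
  have ht0pos : 0 < t0 := by positivity
  have ht0L : t0 * L = 1 := by rw [ht0']; field_simp
  have ht01 : t0 ≤ 1 := by
    rw [ht0', div_le_iff₀ hLpos]
    linarith
  -- exponent `t0`
  have hI0 : ∫⁻ x, ∫⁻ y, ENNReal.ofReal (((1 + Q g u z i x) / (1 + Q g u z i y)) ^ t0)
        ∂P ∂P ≤ ENNReal.ofReal (Real.exp 1) := by
    rw [hP, ors_prod]
    have h1 := H_up hμ g u z i ht0pos.le ht01
    have h2 := H_down hΛ g u z i ht0pos ht0L
    refine (mul_le_mul' h1 h2).trans ?_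
    have hM1 : 0 < 1 + ∑ l, orsS g u z i l := by
      have : 0 ≤ ∑ l, orsS g u z i l := Finset.sum_nonneg fun l _ => orsS_nonneg g u z i l
      linarith
    rw [← ENNReal.ofReal_mul (by positivity)]
    apply ENNReal.ofReal_le_ofReal
    rw [Real.rpow_neg hM1.le]
    have := Real.rpow_pos_of_pos hM1 t0
    apply le_of_eq
    field_simp
  -- symmetry
  have hsymm : ∀ a : ℝ, ∫⁻ x, ∫⁻ y, ENNReal.ofReal
      ((((1 + Q g u z i x) / (1 + Q g u z i y))⁻¹) ^ a) ∂P ∂P =
      ∫⁻ x, ∫⁻ y, ENNReal.ofReal (((1 + Q g u z i x) / (1 + Q g u z i y)) ^ a) ∂P ∂P := by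
    intro a
    rw [lintegral_lintegral_swap (by fun_prop)]
    simp_rw [inv_div]
  have hmeas : ∀ a : ℝ, Measurable (fun q : (Fin n → ℂ) × (Fin n → ℂ) => ENNReal.ofReal
      (((1 + Q g u z i q.1) / (1 + Q g u z i q.2)) ^ a)) := fun a => by fun_prop
  have hmeas' : ∀ a : ℝ, Measurable (fun q : (Fin n → ℂ) × (Fin n → ℂ) => ENNReal.ofReal
      ((((1 + Q g u z i q.1) / (1 + Q g u z i q.2))⁻¹) ^ a)) := fun a => by fun_prop
  have hadd : ∀ a : ℝ, ∫⁻ x, ∫⁻ y, (ENNReal.ofReal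
        (((1 + Q g u z i x) / (1 + Q g u z i y)) ^ a) + ENNReal.ofReal
        ((((1 + Q g u z i x) / (1 + Q g u z i y))⁻¹) ^ a)) ∂P ∂P =
      2 * ∫⁻ x, ∫⁻ y, ENNReal.ofReal (((1 + Q g u z i x) / (1 + Q g u z i y)) ^ a) ∂P ∂P := by
    intro a
    have h1 : ∀ x, ∫⁻ y, (ENNReal.ofReal
        (((1 + Q g u z i x) / (1 + Q g u z i y)) ^ a) + ENNReal.ofReal
        ((((1 + Q g u z i x) / (1 + Q g u z i y))⁻¹) ^ a)) ∂P =
        (∫⁻ y, ENNReal.ofReal (((1 + Q g u z i x) / (1 + Q g u z i y)) ^ a) ∂P) +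
        ∫⁻ y, ENNReal.ofReal ((((1 + Q g u z i x) / (1 + Q g u z i y))⁻¹) ^ a) ∂P := fun x =>
      lintegral_add_left (by fun_prop) _
    simp_rw [h1]
    rw [lintegral_add_left (Measurable.lintegral_prod_right (hmeas a)), hsymm, two_mul]
  -- comparison
  set s := t * L with hs
  have hs0 : 0 ≤ s := by positivity
  have hst : s * t0 = t := by
    rw [hs, mul_assoc, mul_comm L, ht0L, mul_one]
  have hs2 : s ^ 2 ≤ 1 := by nlinarith
  have hpt : ∀ x y, ENNReal.ofReal (((1 + Q g u z i x) / (1 + Q g u z i y)) ^ t) +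
      ENNReal.ofReal ((((1 + Q g u z i x) / (1 + Q g u z i y))⁻¹) ^ t) ≤
      ENNReal.ofReal (2 * (1 - s ^ 2)) + ENNReal.ofReal (s ^ 2) *
        (ENNReal.ofReal (((1 + Q g u z i x) / (1 + Q g u z i y)) ^ t0) +
      ENNReal.ofReal ((((1 + Q g u z i x) / (1 + Q g u z i y))⁻¹) ^ t0)) := by
    intro x y
    have hx := hQ x
    have hy := hQ y
    have hr : 0 < (1 + Q g u z i x) / (1 + Q g u z i y) := by positivity
    have := ors_ratio (t0 := t0) hs0 ht hr
    rw [hst] at this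
    rw [← ENNReal.ofReal_add (by positivity) (by positivity),
      ← ENNReal.ofReal_add (by positivity) (by positivity),
      ← ENNReal.ofReal_mul (by positivity), ← ENNReal.ofReal_add (by linarith) (by positivity)]
    exact ENNReal.ofReal_le_ofReal this
  have hfin : 2 * ∫⁻ x, ∫⁻ y, ENNReal.ofReal (((1 + Q g u z i x) / (1 + Q g u z i y)) ^ t)
      ∂P ∂P ≤ 2 * ENNReal.ofReal (1 + 2 * s ^ 2) := by
    rw [← hadd]
    refine (lintegral_mono fun x => lintegral_mono fun y => hpt x y).trans ?_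
    have h1 : ∀ x, ∫⁻ y, (ENNReal.ofReal (2 * (1 - s ^ 2)) + ENNReal.ofReal (s ^ 2) *
        (ENNReal.ofReal (((1 + Q g u z i x) / (1 + Q g u z i y)) ^ t0) +
      ENNReal.ofReal ((((1 + Q g u z i x) / (1 + Q g u z i y))⁻¹) ^ t0))) ∂P =
        ENNReal.ofReal (2 * (1 - s ^ 2)) + ENNReal.ofReal (s ^ 2) *
        ∫⁻ y, (ENNReal.ofReal (((1 + Q g u z i x) / (1 + Q g u z i y)) ^ t0) +
      ENNReal.ofReal ((((1 + Q g u z i x) / (1 + Q g u z i y))⁻¹) ^ t0)) ∂P := by
      intro x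
      rw [lintegral_add_left measurable_const, lintegral_const, measure_univ, mul_one,
        lintegral_const_mul _ (by fun_prop)]
    simp_rw [h1]
    rw [lintegral_add_left measurable_const, lintegral_const, measure_univ, mul_one,
      lintegral_const_mul _ (Measurable.lintegral_prod_right ((hmeas t0).add (hmeas' t0))), hadd]
    have h2 : ENNReal.ofReal (s ^ 2) * (2 * ∫⁻ x, ∫⁻ y, ENNReal.ofReal
        (((1 + Q g u z i x) / (1 + Q g u z i y)) ^ t0) ∂P ∂P) ≤
        ENNReal.ofReal (s ^ 2) * (2 * ENNReal.ofReal (Real.exp 1)) := by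
      gcongr
    refine (add_le_add le_rfl h2).trans ?_
    rw [show (2 : ENNReal) = ENNReal.ofReal 2 by simp, ← ENNReal.ofReal_mul (by norm_num),
      ← ENNReal.ofReal_mul (by positivity), ← ENNReal.ofReal_add (by linarith) (by positivity),
      ← ENNReal.ofReal_mul (by norm_num)]
    apply ENNReal.ofReal_le_ofReal
    have := Real.exp_one_lt_d9
    nlinarith [sq_nonneg s]
  have h2 : (2 : ENNReal) ≠ 0 := by norm_num
  exact (ENNReal.mul_le_mul_iff_right h2 (by norm_num)).1 hfin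

end Pool.Agent.Circ2
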