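import Pool.Agent.Lib.Circ.EfronStein

/-!
# Module I1': the Efron-Stein inequality, different laws of the coordinates

Same proof as `Pool.Agent.Lib.Circ.EfronStein` with `ν i` depending on `i`.
-/

set_option autoImplicit false

open MeasureTheory ProbabilityTheory Filter Matrix Finset

namespace Pool.Agent.Circ2

open Pool.Agent.Circ

section upd

variable {Y : Type} [MeasurableSpace Y] (μ : Measure Y) [IsProbabilityMeasure μ] {n : ℕ}
  (ν : Fin n → Measure Y) [∀ i, IsProbabilityMeasure (ν i)]

theorem es2_update (i : Fin n) :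
    MeasurePreserving (fun q : (Fin n → Y) × Y => Function.update q.1 i q.2)
      ((Measure.pi ν).prod (ν i)) (Measure.pi ν) := by
  refine ⟨measurable_update', (Measure.pi_eq fun s hs => ?_).symm⟩
  rw [Measure.map_apply measurable_update' (MeasurableSet.univ_pi hs)]
  have h : (fun q : (Fin n → Y) × Y => Function.update q.1 i q.2) ⁻¹' (Set.univ.pi s) =
      (Set.univ.pi (Function.update s i Set.univ)) ×ˢ s i := by
    ext q
    simp only [Set.mem_preimage, Set.mem_pi, Set.mem_univ, true_implies, Set.mem_prod]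
    constructor
    · intro h
      refine ⟨fun j => ?_, by simpa using h i⟩
      by_cases hj : j = i
      · subst hj; simp
      · simpa [hj] using h j
    · rintro ⟨h1, h2⟩ j
      by_cases hj : j = i
      · subst hj; simpa using h2
      · simpa [hj] using h1 j
  rw [h, Measure.prod_prod, Measure.pi_pi, ← Finset.mul_prod_erase Finset.univ _
    (Finset.mem_univ i), ← Finset.mul_prod_erase Finset.univ (fun i => ν i (s i))
    (Finset.mem_univ i)]
  simp only [Function.update_self, measure_univ, one_mul]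
  rw [mul_comm]
  congr 1
  refine Finset.prod_congr rfl fun j hj => ?_
  rw [Function.update_of_ne (Finset.ne_of_mem_erase hj)]

/-- `(y, (a, c)) ↦ (a, update y i c)`. -/
theorem es2_mp1 (i : Fin n) :
    MeasurePreserving
      (fun q : (Fin n → Y) × (Y × Y) => (q.2.1, Function.update q.1 i q.2.2))
      ((Measure.pi ν).prod (μ.prod (ν i)))
      (μ.prod (Measure.pi ν)) := by
  have h1 : MeasurePreserving (Prod.swap : (Fin n → Y) × (Y × Y) → (Y × Y) × (Fin n → Y))
      ((Measure.pi ν).prod (μ.prod (ν i)))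
      ((μ.prod (ν i)).prod (Measure.pi ν)) := Measure.measurePreserving_swap
  have h2 := measurePreserving_prodAssoc μ (ν i) (Measure.pi ν)
  have h3 : MeasurePreserving (Prod.swap : Y × (Fin n → Y) → (Fin n → Y) × Y)
      ((ν i).prod (Measure.pi ν))
      ((Measure.pi ν).prod (ν i)) := Measure.measurePreserving_swap
  have h4 := (MeasurePreserving.id μ).prod ((es2_update ν i).comp h3)
  exact h4.comp (h2.comp h1)

/-- `((a, y), c) ↦ (a, update y i c)`. -/
theorem es2_mp2 (i : Fin n) :
    MeasurePreserving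
      (fun q : Y × (Y × (Fin n → Y)) => (q.2.1, Function.update q.2.2 i q.1))
      ((ν i).prod (μ.prod (Measure.pi ν)))
      (μ.prod (Measure.pi ν)) := by
  have h0 : MeasurePreserving (Prod.swap : Y × (Y × (Fin n → Y)) → (Y × (Fin n → Y)) × Y)
      ((ν i).prod (μ.prod (Measure.pi ν)))
      ((μ.prod (Measure.pi ν)).prod (ν i)) := Measure.measurePreserving_swap
  have h2 := measurePreserving_prodAssoc μ (Measure.pi ν) (ν i)
  have h4 := (MeasurePreserving.id μ).prod (es2_update ν i)
  exact h4.comp (h2.comp h0)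

theorem es2_term (i : Fin n) {F : Y × (Fin n → Y) → ℝ} (hF : Measurable F)
    (h2 : Integrable (fun q => F q ^ 2) (μ.prod (Measure.pi ν))) :
    ∫ y, ((∫ a, F (a, y) ∂μ) - ∫ c, (∫ a, F (a, Function.update y i c) ∂μ) ∂(ν i)) ^ 2
        ∂(Measure.pi ν) ≤
      ∫ q, (F q - ∫ c, F (q.1, Function.update q.2 i c) ∂(ν i)) ^ 2
        ∂(μ.prod (Measure.pi ν)) := by
  set π := (Measure.pi ν) with hπ
  -- the function `G (c, (a, y)) = F (a, update y i c)`
  have hGm : Measurable fun q : Y × (Y × (Fin n → Y)) =>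
      F (q.2.1, Function.update q.2.2 i q.1) := hF.comp (es2_mp2 μ ν i).measurable
  have hG2 : Integrable (fun q : Y × (Y × (Fin n → Y)) =>
      F (q.2.1, Function.update q.2.2 i q.1) ^ 2) ((ν i).prod (μ.prod π)) :=
    (es2_mp2 μ ν i).integrable_comp_of_integrable h2
  have hcond := es_cond hGm hG2
  have hEm : Measurable fun q : Y × (Fin n → Y) =>
      ∫ c, F (q.1, Function.update q.2 i c) ∂(ν i) := es_meas (ν i) hGm
  set H : Y × (Fin n → Y) → ℝ := fun q => F q - ∫ c, F (q.1, Function.update q.2 i c) ∂(ν i)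
    with hH
  have hHm : Measurable H := hF.sub hEm
  have hH2 : Integrable (fun q => H q ^ 2) (μ.prod π) :=
    es_sub hF.aestronglyMeasurable hEm.aestronglyMeasurable h2 hcond.1
  refine le_trans (le_of_eq ?_) (es_jensen hHm hH2)
  refine integral_congr_ae ?_
  have hFi : Integrable F (μ.prod π) := es_int hF.aestronglyMeasurable h2
  have hG' : Integrable (fun q : (Fin n → Y) × (Y × Y) =>
      F (q.2.1, Function.update q.1 i q.2.2)) (π.prod (μ.prod (ν i))) :=
    (es2_mp1 μ ν i).integrable_comp_of_integrable hFi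
  filter_upwards [hFi.prod_left_ae, hG'.prod_right_ae] with y hy1 hy2
  have hsw : ∫ c, (∫ a, F (a, Function.update y i c) ∂μ) ∂(ν i) =
      ∫ a, (∫ c, F (a, Function.update y i c) ∂(ν i)) ∂μ :=
    (integral_integral_swap (f := fun a c => F (a, Function.update y i c)) hy2).symm
  rw [hsw, ← integral_sub hy1 hy2.integral_prod_left]

end upd

/-- The Efron-Stein inequality. -/
theorem es2_main {Y : Type} [MeasurableSpace Y] : ∀ (n : ℕ) (ν : Fin n → Measure Y)
    [∀ i, IsProbabilityMeasure (ν i)] (f : (Fin n → Y) → ℝ), Measurable f →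
    Integrable (fun x => f x ^ 2) (Measure.pi ν) →
    ∫ x, f x ^ 2 ∂(Measure.pi ν) - (∫ x, f x ∂(Measure.pi ν)) ^ 2 ≤
      ∑ i, ∫ x, (f x - ∫ y, f (Function.update x i y) ∂(ν i)) ^ 2 ∂(Measure.pi ν) := by
  intro n
  induction n with
  | zero =>
    intro ν _ f hf h2
    rw [Measure.pi_of_empty ν]
    simp
  | succ n ih =>
    intro ν _ f hf h2
    set e := MeasurableEquiv.piFinSuccAbove (fun _ : Fin (n + 1) => Y) 0 with he
    have hν : (fun j : Fin n => ν (Fin.succAbove 0 j)) = fun j => ν j.succ := by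
      funext j
      rw [Fin.zero_succAbove]
    have hmp : MeasurePreserving e.symm ((ν 0).prod (Measure.pi fun j : Fin n => ν j.succ))
        (Measure.pi ν) := by
      have h := (measurePreserving_piFinSuccAbove ν 0).symm
      rw [hν] at h
      exact h
    have hes : ∀ (a : Y) (y : Fin n → Y), e.symm (a, y) = Fin.cons a y := by
      intro a y
      simp [he, MeasurableEquiv.piFinSuccAbove, Fin.insertNthEquiv]
    have htr : ∀ g : (Fin (n + 1) → Y) → ℝ, ∫ x, g x ∂(Measure.pi ν) =
        ∫ q, g (e.symm q) ∂((ν 0).prod (Measure.pi fun j : Fin n => ν j.succ)) := fun g =>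
      (hmp.integral_comp e.symm.measurableEmbedding g).symm
    set F : Y × (Fin n → Y) → ℝ := fun q => f (e.symm q) with hFdef
    have hF : Measurable F := hf.comp e.symm.measurable
    have hF2 : Integrable (fun q => F q ^ 2)
        ((ν 0).prod (Measure.pi fun j : Fin n => ν j.succ)) :=
      hmp.integrable_comp_of_integrable h2
    have hcond := es_cond hF hF2
    have hFi : Integrable F ((ν 0).prod (Measure.pi fun j : Fin n => ν j.succ)) :=
      es_int hF.aestronglyMeasurable hF2
    have hgm := es_meas (ν 0) hF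
    have hI := ih (fun j => ν j.succ) _ hgm hcond.1
    rw [htr (fun x => f x ^ 2), htr f, Fin.sum_univ_succ]
    have h0 : ∫ x, (f x - ∫ y, f (Function.update x 0 y) ∂(ν 0)) ^ 2 ∂(Measure.pi ν) =
        ∫ q, (F q - ∫ a, F (a, q.2) ∂(ν 0)) ^ 2
          ∂((ν 0).prod (Measure.pi fun j : Fin n => ν j.succ)) := by
      rw [htr]
      refine integral_congr_ae (Eventually.of_forall ?_)
      rintro ⟨a, y⟩
      simp only [hFdef, hes, Fin.update_cons_zero]
    have hs : ∀ i : Fin n, ∫ y, ((∫ a, F (a, y) ∂(ν 0)) -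
          ∫ c, (∫ a, F (a, Function.update y i c) ∂(ν 0)) ∂(ν i.succ)) ^ 2
          ∂(Measure.pi fun j : Fin n => ν j.succ) ≤
        ∫ x, (f x - ∫ y, f (Function.update x i.succ y) ∂(ν i.succ)) ^ 2
        ∂(Measure.pi ν) := by
      intro i
      refine le_trans (es2_term (ν 0) (fun j => ν j.succ) i hF hF2) (le_of_eq ?_)
      rw [htr]
      refine integral_congr_ae (Eventually.of_forall ?_)
      rintro ⟨a, y⟩
      simp only [hFdef, hes, Fin.cons_update]
    rw [h0]
    have hsum := Finset.sum_le_sum fun i (_ : i ∈ (Finset.univ : Finset (Fin n))) => hs i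
    have hint : ∫ q, F q ∂((ν 0).prod (Measure.pi fun j : Fin n => ν j.succ)) =
        ∫ y, (∫ a, F (a, y) ∂(ν 0)) ∂(Measure.pi fun j : Fin n => ν j.succ) :=
      integral_prod_symm _ hFi
    have hc2 := hcond.2
    simp only [hFdef] at hint hc2 hI hsum ⊢
    rw [hint]
    linarith

theorem efron_stein2 {Y : Type} [MeasurableSpace Y] {n : ℕ} (ν : Fin n → Measure Y)
    [∀ i, IsProbabilityMeasure (ν i)] (f : (Fin n → Y) → ℝ) (hf : Measurable f)
    (hf2 : Integrable (fun x => f x ^ 2) (Measure.pi ν)) :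
    ∫ x, f x ^ 2 ∂(Measure.pi ν) - (∫ x, f x ∂(Measure.pi ν)) ^ 2 ≤
      ∑ i, ∫ x, (f x - ∫ y, f (Function.update x i y) ∂(ν i)) ^ 2 ∂(Measure.pi ν) :=
  es2_main n ν f hf hf2

end Pool.Agent.Circ2
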