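import Pool.Agent.Lib.Circ2.LinForm2
import Pool.Agent.Lib.Circ2.EfronStein2
import Pool.Agent.Lib.Circ.OneRowTwo

/-!
# Module I2': resampling one row, exponent two, truncated laws

Let `m k` be the means, `a k = u k (x k - m k)`: centred, `‖a k‖ ≤ 2c` almost surely,
`v k = E ‖a k‖² ≤ 2 (u k)² ≤ 2δ`, `Σ v k ≤ 2`, `E ‖a k‖⁴ ≤ 4 c² v k`. With `M = gᴴ g`,
`y k = u k m k - z 1(k=i)`, `‖y‖ ≤ 1 + ‖z‖`, `Q = ‖g (a + y)‖²`. `efron_stein2`:
`Q - E_k Q = 2 Re (β_k a k) + γ_k (‖a k‖² - v k)`, `γ_k = Σ_l ‖g l k‖² ≤ η⁻²`,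
`E ‖β_k‖² = Σ_{j≠k} ‖M j k‖² v j + ‖(M y) k‖²`, `Σ_j ‖M j k‖² ≤ η⁻⁴`, `‖M y‖² ≤ η⁻⁴ ‖y‖²`. So
`Var Q ≤ Σ_k (8 v k E ‖β_k‖² + 8 c² v k η⁻⁴) ≤ V = (16 δ (2 + (1+‖z‖)²) + 16 c²)/η⁴`. Then
as in `Pool.Agent.Lib.Circ.OneRowTwo`: `E (1+Q)² ≤ a²(1+V)`, `E (1+Q)⁻² ≤ a⁻² (1 + 3V)`,
`a = 1 + E Q ≥ 1`, and `(1+V)(1+3V) ≤ 1 + 7V`.
-/

set_option autoImplicit false

open MeasureTheory ProbabilityTheory Filter Matrix Finset

namespace Pool.Agent.Circ2

open Pool.Agent.Circ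

variable {n : ℕ}

/-- The adjoint has the same bound. -/
theorem t2_adj (g : Matrix (Fin n) (Fin n) ℂ) {c : ℝ} (hc : 0 < c)
    (hg : ∀ x : Fin n → ℂ, ∑ l, ‖∑ k, g l k * x k‖ ^ 2 ≤ c * ∑ k, ‖x k‖ ^ 2)
    (w : Fin n → ℂ) :
    ∑ j, ‖∑ l, starRingEnd ℂ (g l j) * w l‖ ^ 2 ≤ c * ∑ l, ‖w l‖ ^ 2 := by
  set v : Fin n → ℂ := fun j => ∑ l, starRingEnd ℂ (g l j) * w l with hv
  have hS : ∑ j, ‖v j‖ ^ 2 ≤ ∑ l, ‖w l‖ * ‖∑ j, g l j * v j‖ := by
    have h1 : ((∑ j, ‖v j‖ ^ 2 : ℝ) : ℂ) = ∑ l, w l * starRingEnd ℂ (∑ j, g l j * v j) := by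
      push_cast
      have h2 : ∀ j, ((‖v j‖ : ℂ)) ^ 2 = ∑ l, w l * starRingEnd ℂ (g l j * v j) := by
        intro j
        rw [← Complex.conj_mul']
        conv_lhs => rw [show v j = ∑ l, starRingEnd ℂ (g l j) * w l from rfl]
        rw [← show v j = ∑ l, starRingEnd ℂ (g l j) * w l from rfl, Finset.mul_sum]
        refine Finset.sum_congr rfl fun l _ => ?_
        rw [map_mul]
        ring
      rw [Finset.sum_congr rfl fun j _ => h2 j, Finset.sum_comm]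
      refine Finset.sum_congr rfl fun l _ => ?_
      rw [map_sum, Finset.mul_sum]
    have h3 : ∑ j, ‖v j‖ ^ 2 = ‖((∑ j, ‖v j‖ ^ 2 : ℝ) : ℂ)‖ := by
      rw [Complex.norm_real, Real.norm_of_nonneg (Finset.sum_nonneg fun j _ => by positivity)]
    rw [h3, h1]
    refine (norm_sum_le _ _).trans (Finset.sum_le_sum fun l _ => ?_)
    rw [norm_mul, RCLike.norm_conj]
  have h4 : 2 * c * ∑ j, ‖v j‖ ^ 2 ≤ c ^ 2 * ∑ l, ‖w l‖ ^ 2 + ∑ l, ‖∑ j, g l j * v j‖ ^ 2 := by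
    calc 2 * c * ∑ j, ‖v j‖ ^ 2 ≤ 2 * c * ∑ l, ‖w l‖ * ‖∑ j, g l j * v j‖ := by gcongr
      _ = ∑ l, 2 * (c * ‖w l‖) * ‖∑ j, g l j * v j‖ := by
        rw [Finset.mul_sum]
        refine Finset.sum_congr rfl fun l _ => by ring
      _ ≤ ∑ l, ((c * ‖w l‖) ^ 2 + ‖∑ j, g l j * v j‖ ^ 2) :=
        Finset.sum_le_sum fun l _ => two_mul_le_add_sq _ _
      _ = _ := by
        rw [Finset.sum_add_distrib, Finset.mul_sum]
        congr 1
        refine Finset.sum_congr rfl fun l _ => by ring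
  have h6 := hg v
  have h9 : c * ∑ j, ‖v j‖ ^ 2 ≤ c * (c * ∑ l, ‖w l‖ ^ 2) := by nlinarith
  exact le_of_mul_le_mul_left h9 hc

/-- Resampling one coordinate. -/
theorem t2_resample (ν : Fin n → Measure ℂ) [∀ k, IsProbabilityMeasure (ν k)] (k : Fin n)
    {f : (Fin n → ℂ) → ENNReal} (hf : Measurable f) :
    ∫⁻ x, f x ∂(Measure.pi ν) =
      ∫⁻ x, ∫⁻ y, f (Function.update x k y) ∂(ν k) ∂(Measure.pi ν) := by
  have h := es2_update ν k
  rw [← h.lintegral_comp hf]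
  rw [lintegral_prod]
  exact (hf.comp h.measurable).aemeasurable

theorem t2_int1 {ν : Measure ℂ} [IsProbabilityMeasure ν]
    (hν : Integrable (fun x : ℂ => ‖x‖ ^ 2) ν) : Integrable (fun x : ℂ => x) ν := by
  refine ((integrable_const (1 : ℝ)).add hν).mono'
    (by fun_prop) (Filter.Eventually.of_forall fun x => ?_)
  simp only [Pi.add_apply]
  nlinarith [sq_nonneg (‖x‖ - 1), sq_nonneg (‖x‖)]

/-- The variance. -/
noncomputable def t2v (ν : Measure ℂ) : ℝ := ∫ x, ‖x‖ ^ 2 ∂ν - ‖∫ x, x ∂ν‖ ^ 2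

theorem t2_id (x m : ℂ) :
    ‖x‖ ^ 2 = ‖x - m‖ ^ 2 + 2 * (starRingEnd ℂ m * (x - m)).re + ‖m‖ ^ 2 := by
  rw [← Complex.normSq_eq_norm_sq, ← Complex.normSq_eq_norm_sq, ← Complex.normSq_eq_norm_sq]
  simp only [Complex.normSq_apply, Complex.mul_re, Complex.conj_re, Complex.conj_im,
    Complex.sub_re, Complex.sub_im]
  ring

theorem t2_affine {ν : Measure ℂ} [IsProbabilityMeasure ν]
    (hν : Integrable (fun x : ℂ => ‖x‖ ^ 2) ν) (A : ℝ)
    (b : ℂ) (γ : ℝ) :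
    ∫ y, (A + 2 * (b * y).re + γ * ‖y‖ ^ 2) ∂ν =
      A + 2 * (b * ∫ y, y ∂ν).re + γ * ∫ y, ‖y‖ ^ 2 ∂ν := by
  have h1 : Integrable (fun y : ℂ => b * y) ν := (t2_int1 hν).const_mul b
  have h2 : Integrable (fun y : ℂ => (b * y).re) ν := h1.re
  have h3 : ∫ y, (b * y).re ∂ν = (b * ∫ y, y ∂ν).re := by
    have h4 : ∫ y, (b * y).re ∂ν = (∫ y, b * y ∂ν).re := integral_re h1
    rw [h4, integral_const_mul]
  have h5 : Integrable (fun y : ℂ => A + 2 * (b * y).re) ν :=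
    (integrable_const A).add (h2.const_mul 2)
  rw [integral_add h5 (hν.const_mul γ),
    integral_add (integrable_const A) (h2.const_mul 2), integral_const_mul, integral_const_mul, h3]
  simp

/-- The centred second moment. -/
theorem t2_cent {ν : Measure ℂ} [IsProbabilityMeasure ν]
    (hν : Integrable (fun x : ℂ => ‖x‖ ^ 2) ν) :
    Integrable (fun y : ℂ => ‖y - ∫ x, x ∂ν‖ ^ 2) ν ∧
      ∫ y, ‖y - ∫ x, x ∂ν‖ ^ 2 ∂ν = t2v ν := by
  set m : ℂ := ∫ x, x ∂ν with hm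
  have h1 : (fun y : ℂ => ‖y - m‖ ^ 2) = fun y : ℂ =>
      ‖m‖ ^ 2 + 2 * (-(starRingEnd ℂ m) * y).re + 1 * ‖y‖ ^ 2 := by
    funext y
    rw [← Complex.normSq_eq_norm_sq, ← Complex.normSq_eq_norm_sq, ← Complex.normSq_eq_norm_sq]
    simp only [Complex.normSq_apply, Complex.mul_re, Complex.neg_re, Complex.neg_im,
      Complex.conj_re, Complex.conj_im, Complex.sub_re, Complex.sub_im]
    ring
  have hi : Integrable (fun y : ℂ => -(starRingEnd ℂ m) * y) ν := (t2_int1 hν).const_mul _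
  constructor
  · rw [h1]
    exact ((integrable_const _).add (hi.re.const_mul 2)).add (hν.const_mul _)
  · rw [h1, t2_affine hν, ← hm]
    unfold t2v
    rw [← hm]
    have h2 : (-(starRingEnd ℂ m) * m).re = - ‖m‖ ^ 2 := by
      rw [← Complex.normSq_eq_norm_sq]
      simp only [Complex.normSq_apply, Complex.mul_re, Complex.neg_re, Complex.neg_im,
        Complex.conj_re, Complex.conj_im]
      ring
    rw [h2]
    ring

theorem t2v_nonneg {ν : Measure ℂ} [IsProbabilityMeasure ν]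
    (hν : Integrable (fun x : ℂ => ‖x‖ ^ 2) ν) : 0 ≤ t2v ν := by
  rw [← (t2_cent hν).2]
  exact integral_nonneg fun y => by positivity

/-- Almost sure bound for the centred variable. -/
theorem t2_bound {ν : Measure ℂ} [IsProbabilityMeasure ν] {u c : ℝ}
    (hν : Integrable (fun x : ℂ => ‖x‖ ^ 2) ν) (hu : 0 ≤ u)
    (hb : ∀ᵐ x ∂ν, u * ‖x‖ ≤ c) :
    ∀ᵐ y ∂ν, u * ‖y - ∫ x, x ∂ν‖ ≤ 2 * c := by
  have h1 : u * ‖∫ x, x ∂ν‖ ≤ c := by
    have h2 : ‖∫ x, x ∂ν‖ ≤ ∫ x, ‖x‖ ∂ν := norm_integral_le_integral_norm _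
    have h3 : u * ∫ x, ‖x‖ ∂ν ≤ c := by
      rw [← integral_const_mul]
      have h4 : ∫ x : ℂ, u * ‖x‖ ∂ν ≤ ∫ x : ℂ, c ∂ν :=
        integral_mono_ae ((t2_int1 hν).norm.const_mul u) (integrable_const c) hb
      simpa using h4
    calc _ ≤ u * ∫ x, ‖x‖ ∂ν := by gcongr
      _ ≤ c := h3
  filter_upwards [hb] with y hy
  calc u * ‖y - ∫ x, x ∂ν‖ ≤ u * (‖y‖ + ‖∫ x, x ∂ν‖) := by
        gcongr
        exact norm_sub_le _ _
    _ ≤ _ := by linarith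

/-- The fourth moment of the centred variable. -/
theorem t2_four {ν : Measure ℂ} [IsProbabilityMeasure ν] {u c : ℝ}
    (hν : Integrable (fun x : ℂ => ‖x‖ ^ 2) ν) (hu : 0 ≤ u)
    (hb : ∀ᵐ x ∂ν, u * ‖x‖ ≤ c) :
    Integrable (fun y : ℂ => (u ^ 2 * (‖y - ∫ x, x ∂ν‖ ^ 2 - t2v ν)) ^ 2) ν ∧
      ∫ y, (u ^ 2 * (‖y - ∫ x, x ∂ν‖ ^ 2 - t2v ν)) ^ 2 ∂ν ≤ 4 * c ^ 2 * (u ^ 2 * t2v ν) := by
  have hbd := t2_bound hν hu hb
  have hv := t2v_nonneg hν
  obtain ⟨hi, he⟩ := t2_cent hν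
  set m : ℂ := ∫ x, x ∂ν with hm
  set s : ℝ := t2v ν with hs
  have hdom : Integrable (fun y : ℂ => 4 * c ^ 2 * (u ^ 2 * ‖y - m‖ ^ 2) +
      (u ^ 2 * s) ^ 2) ν := ((hi.const_mul (u ^ 2)).const_mul (4 * c ^ 2)).add (integrable_const _)
  have hle : ∀ᵐ y ∂ν, (u ^ 2 * ‖y - m‖ ^ 2) ^ 2 ≤ 4 * c ^ 2 * (u ^ 2 * ‖y - m‖ ^ 2) := by
    filter_upwards [hbd] with y hy
    have h1 : (u * ‖y - m‖) ^ 2 ≤ (2 * c) ^ 2 := by
      have : 0 ≤ u * ‖y - m‖ := by positivity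
      gcongr
    have h2 : u ^ 2 * ‖y - m‖ ^ 2 ≤ 4 * c ^ 2 := by
      calc _ = (u * ‖y - m‖) ^ 2 := by ring
        _ ≤ _ := h1
        _ = _ := by ring
    calc _ = (u ^ 2 * ‖y - m‖ ^ 2) * (u ^ 2 * ‖y - m‖ ^ 2) := by ring
      _ ≤ _ := by gcongr
  have hfi : Integrable (fun y : ℂ => (u ^ 2 * ‖y - m‖ ^ 2) ^ 2) ν := by
    refine ((hi.const_mul (u ^ 2)).const_mul (4 * c ^ 2)).mono' (by fun_prop) ?_
    filter_upwards [hle] with y hy
    rw [Real.norm_of_nonneg (by positivity)]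
    exact hy
  have hexp : (fun y : ℂ => (u ^ 2 * (‖y - m‖ ^ 2 - s)) ^ 2) = fun y : ℂ =>
      ((u ^ 2 * ‖y - m‖ ^ 2) ^ 2 - (2 * u ^ 4 * s) * ‖y - m‖ ^ 2) + (u ^ 2 * s) ^ 2 := by
    funext y; ring
  have hi2 : Integrable (fun y : ℂ => (u ^ 2 * ‖y - m‖ ^ 2) ^ 2 -
      (2 * u ^ 4 * s) * ‖y - m‖ ^ 2) ν := hfi.sub (hi.const_mul _)
  constructor
  · rw [hexp]
    exact hi2.add (integrable_const _)
  · rw [hexp, integral_add hi2 (integrable_const _), integral_sub hfi (hi.const_mul _),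
      integral_const_mul, he]
    have h3 : ∫ y : ℂ, (u ^ 2 * ‖y - m‖ ^ 2) ^ 2 ∂ν ≤
        ∫ y : ℂ, 4 * c ^ 2 * (u ^ 2 * ‖y - m‖ ^ 2) ∂ν :=
      integral_mono_ae hfi ((hi.const_mul (u ^ 2)).const_mul (4 * c ^ 2)) hle
    rw [integral_const_mul, integral_const_mul, he] at h3
    simp only [integral_const, probReal_univ, smul_eq_mul, one_mul]
    nlinarith [sq_nonneg (u ^ 2 * s)]

/-- Conditional expectation. -/
theorem t2_cond {ν : Measure ℂ} [IsProbabilityMeasure ν]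
    (hν : Integrable (fun x : ℂ => ‖x‖ ^ 2) ν)
    (g : Matrix (Fin n) (Fin n) ℂ) (u : Fin n → ℝ) (z : ℂ) (i k : Fin n) (x : Fin n → ℂ) :
    ∫ y, Q g u z i (Function.update x k y) ∂ν = (∑ l, ‖o2w g u z i k l x‖ ^ 2) +
      2 * ((∑ l, starRingEnd ℂ (o2w g u z i k l x) * (g l k * u k)) * ∫ y, y ∂ν).re +
      ((∑ l, ‖g l k‖ ^ 2) * u k ^ 2) * ∫ y, ‖y‖ ^ 2 ∂ν := by
  rw [← t2_affine hν (∑ l, ‖o2w g u z i k l x‖ ^ 2)
    (∑ l, starRingEnd ℂ (o2w g u z i k l x) * (g l k * u k)) ((∑ l, ‖g l k‖ ^ 2) * u k ^ 2)]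
  refine integral_congr_ae (Filter.Eventually.of_forall fun y => ?_)
  simp only
  rw [o2_expand g u z i k]
  simp only [o2w_update, Function.update_self]

/-- The coefficient of the centred variable. -/
noncomputable def t2b (g : Matrix (Fin n) (Fin n) ℂ) (u : Fin n → ℝ) (z : ℂ) (i k : Fin n)
    (m : ℂ) (x : Fin n → ℂ) : ℂ :=
  (∑ l, starRingEnd ℂ (o2w g u z i k l x) * (g l k * u k)) +
    (((∑ l, ‖g l k‖ ^ 2) * u k ^ 2 : ℝ) : ℂ) * starRingEnd ℂ m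

/-- The bound for a single Efron-Stein term, pointwise. -/
theorem t2_point {ν : Measure ℂ} [IsProbabilityMeasure ν]
    (hν : Integrable (fun x : ℂ => ‖x‖ ^ 2) ν)
    (g : Matrix (Fin n) (Fin n) ℂ) (u : Fin n → ℝ) (z : ℂ) (i k : Fin n) (x : Fin n → ℂ) :
    (Q g u z i x - ∫ y, Q g u z i (Function.update x k y) ∂ν) ^ 2 ≤
      8 * ‖t2b g u z i k (∫ y, y ∂ν) x‖ ^ 2 * ‖x k - ∫ y, y ∂ν‖ ^ 2 +
      2 * (∑ l, ‖g l k‖ ^ 2) ^ 2 * (u k ^ 2 * (‖x k - ∫ y, y ∂ν‖ ^ 2 - t2v ν)) ^ 2 := by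
  rw [t2_cond hν, o2_expand g u z i k]
  have hs2 : ∫ y, ‖y‖ ^ 2 ∂ν = t2v ν + ‖∫ y, y ∂ν‖ ^ 2 := by
    unfold t2v; ring
  rw [hs2]
  unfold t2b
  generalize (∑ l, starRingEnd ℂ (o2w g u z i k l x) * (g l k * u k)) = b
  generalize (∑ l, ‖g l k‖ ^ 2) = G
  generalize (∑ l, ‖o2w g u z i k l x‖ ^ 2) = A
  generalize (∫ y, y ∂ν) = m
  generalize t2v ν = s
  rw [t2_id (x k) m]
  generalize hd : x k - m = d
  have hx : x k = d + m := by rw [← hd]; ring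
  rw [hx]
  set b' : ℂ := b + ((G * u k ^ 2 : ℝ) : ℂ) * starRingEnd ℂ m with hb'
  have h0 : A + 2 * (b * (d + m)).re + G * u k ^ 2 * (‖d‖ ^ 2 + 2 * (starRingEnd ℂ m * d).re +
      ‖m‖ ^ 2) - (A + 2 * (b * m).re + G * u k ^ 2 * (s + ‖m‖ ^ 2)) =
      2 * (b' * d).re + G * (u k ^ 2 * (‖d‖ ^ 2 - s)) := by
    have h1 : (b' * d).re = (b * d).re + G * u k ^ 2 * (starRingEnd ℂ m * d).re := by
      rw [hb', add_mul, Complex.add_re, mul_assoc, Complex.re_ofReal_mul]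
    rw [h1, mul_add, Complex.add_re]
    ring
  rw [h0]
  have h1 : |(b' * d).re| ≤ ‖b'‖ * ‖d‖ := by
    rw [← norm_mul]
    exact Complex.abs_re_le_norm _
  have h2 : (b' * d).re ^ 2 ≤ (‖b'‖ * ‖d‖) ^ 2 := sq_le_sq' (by
    have := neg_abs_le (b' * d).re; linarith) ((le_abs_self _).trans h1)
  generalize u k ^ 2 * (‖d‖ ^ 2 - s) = w
  have h3 : (2 * (b' * d).re + G * w) ^ 2 ≤ 8 * (b' * d).re ^ 2 + 2 * (G * w) ^ 2 := by
    nlinarith [sq_nonneg (2 * (b' * d).re - G * w)]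
  calc _ ≤ _ := h3
    _ ≤ 8 * (‖b'‖ * ‖d‖) ^ 2 + 2 * (G * w) ^ 2 := by gcongr
    _ = _ := by ring

/-- The coefficient as an affine form. -/
theorem t2_beta (g : Matrix (Fin n) (Fin n) ℂ) (u : Fin n → ℝ) (z : ℂ) (i k : Fin n)
    (m : ℂ) (x : Fin n → ℂ) :
    ‖t2b g u z i k m x‖ =
      ‖∑ j, (u k * (if j = k then 0 else (∑ l, starRingEnd ℂ (g l k) * g l j) * (u j : ℂ))) * x j -
        u k * ((∑ l, starRingEnd ℂ (g l k) * g l i) * z -
          (∑ l, starRingEnd ℂ (g l k) * g l k) * (u k * m))‖ := by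
  rw [← RCLike.norm_conj]
  congr 1
  unfold t2b
  rw [map_add, map_sum, map_mul, Complex.conj_conj, Complex.conj_ofReal]
  have h1 : ∀ l, starRingEnd ℂ (starRingEnd ℂ (o2w g u z i k l x) * (g l k * u k)) =
      u k * (∑ j, (starRingEnd ℂ (g l k) * (if j = k then 0 else g l j * (u j : ℂ))) * x j) -
      u k * ((starRingEnd ℂ (g l k) * g l i) * z) := by
    intro l
    unfold o2w
    simp only [map_mul, Complex.conj_conj, Complex.conj_ofReal]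
    rw [sub_mul, Finset.sum_mul, Finset.mul_sum]
    congr 1
    · refine Finset.sum_congr rfl fun j _ => by ring
    · ring
  have h2 : (((∑ l, ‖g l k‖ ^ 2) * u k ^ 2 : ℝ) : ℂ) =
      (∑ l, starRingEnd ℂ (g l k) * g l k) * (u k : ℂ) ^ 2 := by
    push_cast
    congr 1
    refine Finset.sum_congr rfl fun l _ => ?_
    rw [Complex.conj_mul']
  rw [Finset.sum_congr rfl fun l _ => h1 l, Finset.sum_sub_distrib, h2]
  have h3 : ∑ l, (u k : ℂ) * (∑ j, (starRingEnd ℂ (g l k) *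
      (if j = k then 0 else g l j * (u j : ℂ))) * x j) =
      ∑ j, (u k * (if j = k then 0 else
        (∑ l, starRingEnd ℂ (g l k) * g l j) * (u j : ℂ))) * x j := by
    rw [← Finset.mul_sum, Finset.sum_comm, Finset.mul_sum]
    refine Finset.sum_congr rfl fun j _ => ?_
    by_cases h : j = k
    · simp [h]
    · simp only [h, if_false]
      rw [mul_assoc]
      congr 1
      rw [Finset.sum_mul, Finset.sum_mul]
      refine Finset.sum_congr rfl fun l _ => by ring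
  have h4 : ∑ l, (u k : ℂ) * ((starRingEnd ℂ (g l k) * g l i) * z) =
      u k * ((∑ l, starRingEnd ℂ (g l k) * g l i) * z) := by
    rw [← Finset.mul_sum, Finset.sum_mul]
  rw [h3, h4]
  ring

theorem t2b_update (g : Matrix (Fin n) (Fin n) ℂ) (u : Fin n → ℝ) (z : ℂ) (i k : Fin n)
    (m : ℂ) (x : Fin n → ℂ) (y : ℂ) :
    t2b g u z i k m (Function.update x k y) = t2b g u z i k m x := by
  unfold t2b
  simp only [o2w_update]

theorem t2b_meas (g : Matrix (Fin n) (Fin n) ℂ) (u : Fin n → ℝ) (z : ℂ) (i k : Fin n)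
    (m : ℂ) : Measurable (t2b g u z i k m) := by
  have : ∀ l, Measurable (o2w g u z i k l) := fun l => o2w_meas g u z i k l
  unfold t2b
  fun_prop

/-- The second moment of the coefficient. -/
theorem t2_bsq (ν : Fin n → Measure ℂ) [∀ k, IsProbabilityMeasure (ν k)]
    (hν : ∀ k, Integrable (fun x : ℂ => ‖x‖ ^ 2) (ν k))
    (g : Matrix (Fin n) (Fin n) ℂ) (u : Fin n → ℝ) (z : ℂ) (i k : Fin n) :
    Integrable (fun x => ‖t2b g u z i k (∫ y, y ∂(ν k)) x‖ ^ 2) (Measure.pi ν) ∧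
    ∫ x, ‖t2b g u z i k (∫ y, y ∂(ν k)) x‖ ^ 2 ∂(Measure.pi ν) ≤
      u k ^ 2 * (∑ j, ‖∑ l, starRingEnd ℂ (g l k) * g l j‖ ^ 2 * (u j ^ 2 * t2v (ν j)) +
        ‖∑ j, (∑ l, starRingEnd ℂ (g l k) * g l j) *
          arow u z i (fun j => ∫ y, y ∂(ν j)) j‖ ^ 2) := by
  simp only [t2_beta]
  obtain ⟨h1, h2⟩ := lf_sq2 ν hν
    (fun j => (u k * (if j = k then 0 else (∑ l, starRingEnd ℂ (g l k) * g l j) * (u j : ℂ)) : ℂ))
    (u k * ((∑ l, starRingEnd ℂ (g l k) * g l i) * z -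
          (∑ l, starRingEnd ℂ (g l k) * g l k) * (u k * ∫ y, y ∂(ν k))))
  refine ⟨h1, ?_⟩
  rw [h2, mul_add]
  refine add_le_add ?_ (le_of_eq ?_)
  · rw [Finset.mul_sum]
    refine Finset.sum_le_sum fun j _ => ?_
    have hv := t2v_nonneg (hν j)
    unfold t2v at hv
    unfold t2v
    split_ifs
    · simp only [mul_zero, norm_zero]
      have : (0 : ℝ) ≤ u k ^ 2 * (‖∑ l, starRingEnd ℂ (g l k) * g l j‖ ^ 2 * (u j ^ 2 *
          (∫ x, ‖x‖ ^ 2 ∂(ν j) - ‖∫ x, x ∂(ν j)‖ ^ 2))) := by positivity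
      simpa using this
    · rw [norm_mul, norm_mul, Complex.norm_real, Complex.norm_real, Real.norm_eq_abs,
        Real.norm_eq_abs, mul_pow, mul_pow, sq_abs, sq_abs]
      apply le_of_eq
      ring
  · have h3 : ∑ j, (u k * (if j = k then 0 else
        (∑ l, starRingEnd ℂ (g l k) * g l j) * (u j : ℂ)) : ℂ) * (∫ x, x ∂(ν j)) -
        u k * ((∑ l, starRingEnd ℂ (g l k) * g l i) * z -
          (∑ l, starRingEnd ℂ (g l k) * g l k) * (u k * ∫ y, y ∂(ν k))) =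
        u k * ∑ j, (∑ l, starRingEnd ℂ (g l k) * g l j) *
          arow u z i (fun j => ∫ y, y ∂(ν j)) j := by
      unfold arow
      have h4 : ∑ j, (∑ l, starRingEnd ℂ (g l k) * g l j) * ((u j : ℂ) * (∫ y, y ∂(ν j)) -
          if j = i then z else 0) =
          ∑ j, (∑ l, starRingEnd ℂ (g l k) * g l j) * ((u j : ℂ) * (∫ y, y ∂(ν j))) -
          (∑ l, starRingEnd ℂ (g l k) * g l i) * z := by
        simp only [mul_sub, Finset.sum_sub_distrib]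
        congr 1
        rw [Finset.sum_eq_single i]
        · simp
        · intro b _ hb; simp [hb]
        · simp
      have h5 : ∑ j, (u k * (if j = k then 0 else
          (∑ l, starRingEnd ℂ (g l k) * g l j) * (u j : ℂ)) : ℂ) * (∫ x, x ∂(ν j)) =
          u k * (∑ j, (∑ l, starRingEnd ℂ (g l k) * g l j) * ((u j : ℂ) * (∫ y, y ∂(ν j))) -
            (∑ l, starRingEnd ℂ (g l k) * g l k) * ((u k : ℂ) * (∫ y, y ∂(ν k)))) := by
        rw [← Finset.add_sum_erase _ _ (Finset.mem_univ k),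
          ← Finset.add_sum_erase (Finset.univ) (fun j => (∑ l, starRingEnd ℂ (g l k) * g l j) *
            ((u j : ℂ) * (∫ y, y ∂(ν j)))) (Finset.mem_univ k)]
        simp only [if_true, mul_zero, zero_mul, zero_add, add_sub_cancel_left]
        rw [Finset.mul_sum]
        refine Finset.sum_congr rfl fun j hj => ?_
        rw [if_neg (Finset.ne_of_mem_erase hj)]
        ring
      rw [h4, h5]
      ring
    rw [h3, norm_mul, Complex.norm_real, Real.norm_eq_abs, mul_pow, sq_abs]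

/-- One Efron-Stein term. -/
theorem t2_term (ν : Fin n → Measure ℂ) [∀ k, IsProbabilityMeasure (ν k)]
    (g : Matrix (Fin n) (Fin n) ℂ) (u : Fin n → ℝ) (z : ℂ) (i k : Fin n) {c κ : ℝ}
    (hν : ∀ k, LawT (ν k) (u k) c κ) (hu : ∀ k, 0 ≤ u k) :
    ∫ x, (Q g u z i x - ∫ y, Q g u z i (Function.update x k y) ∂(ν k)) ^ 2
        ∂(Measure.pi ν) ≤
      8 * (u k ^ 2 * t2v (ν k)) * (∑ j, ‖∑ l, starRingEnd ℂ (g l k) * g l j‖ ^ 2 *
          (u j ^ 2 * t2v (ν j)) +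
        ‖∑ j, (∑ l, starRingEnd ℂ (g l k) * g l j) *
          arow u z i (fun j => ∫ y, y ∂(ν j)) j‖ ^ 2) +
      8 * c ^ 2 * (∑ l, ‖g l k‖ ^ 2) ^ 2 * (u k ^ 2 * t2v (ν k)) := by
  have hi2 : ∀ k, Integrable (fun x : ℂ => ‖x‖ ^ 2) (ν k) := fun k => (hν k).int2
  have hs := t2v_nonneg (hi2 k)
  obtain ⟨hci, hce⟩ := t2_cent (hi2 k)
  obtain ⟨hfi, hfe⟩ := t2_four (hi2 k) (hu k) (hν k).bound
  obtain ⟨hbi, hbe⟩ := t2_bsq ν hi2 g u z i k
  set m : ℂ := ∫ y, y ∂(ν k) with hm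
  set s : ℝ := t2v (ν k) with hs'
  set b : (Fin n → ℂ) → ℂ := t2b g u z i k m with hb
  set G : ℝ := ∑ l, ‖g l k‖ ^ 2 with hG
  have hG0 : 0 ≤ G := Finset.sum_nonneg fun l _ => by positivity
  set R : ℝ := (∑ j, ‖∑ l, starRingEnd ℂ (g l k) * g l j‖ ^ 2 * (u j ^ 2 * t2v (ν j)) +
        ‖∑ j, (∑ l, starRingEnd ℂ (g l k) * g l j) *
          arow u z i (fun j => ∫ y, y ∂(ν j)) j‖ ^ 2) with hR
  have hR0 : 0 ≤ R := by
    refine add_nonneg (Finset.sum_nonneg fun j _ => ?_) (by positivity)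
    have := t2v_nonneg (hi2 j)
    positivity
  have hbm : Measurable b := t2b_meas g u z i k m
  have hbu : ∀ x y, b (Function.update x k y) = b x := fun x y => t2b_update g u z i k m x y
  have hQm : Measurable (Q g u z i) := o2_meas g u z i
  have hcond : (fun x => ∫ y, Q g u z i (Function.update x k y) ∂(ν k)) =
      fun x => (∑ l, ‖o2w g u z i k l x‖ ^ 2) +
      2 * ((∑ l, starRingEnd ℂ (o2w g u z i k l x) * (g l k * u k)) * m).re +
      ((∑ l, ‖g l k‖ ^ 2) * u k ^ 2) * ∫ y, ‖y‖ ^ 2 ∂(ν k) := by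
    funext x
    exact t2_cond (hi2 k) g u z i k x
  have hcm : Measurable (fun x => ∫ y, Q g u z i (Function.update x k y) ∂(ν k)) := by
    rw [hcond]
    have : ∀ l, Measurable (o2w g u z i k l) := fun l => o2w_meas g u z i k l
    have h2 : Measurable fun x => (∑ l, starRingEnd ℂ (o2w g u z i k l x) * (g l k * u k)) * m := by
      fun_prop
    have h3 : Measurable fun x =>
        ((∑ l, starRingEnd ℂ (o2w g u z i k l x) * (g l k * u k)) * m).re :=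
      Complex.measurable_re.comp h2
    fun_prop
  have hsm : Measurable (fun x => (Q g u z i x -
      ∫ y, Q g u z i (Function.update x k y) ∂(ν k)) ^ 2) := (hQm.sub hcm).pow_const 2
  rw [integral_eq_lintegral_of_nonneg_ae (Filter.Eventually.of_forall fun x => sq_nonneg _)
    hsm.aestronglyMeasurable]
  refine ENNReal.toReal_le_of_le_ofReal (by positivity) ?_
  calc ∫⁻ x, ENNReal.ofReal ((Q g u z i x - ∫ y, Q g u z i (Function.update x k y) ∂(ν k)) ^ 2)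
        ∂(Measure.pi ν)
      ≤ ∫⁻ x, ENNReal.ofReal (8 * ‖b x‖ ^ 2 * ‖x k - m‖ ^ 2 +
          2 * G ^ 2 * (u k ^ 2 * (‖x k - m‖ ^ 2 - s)) ^ 2)
        ∂(Measure.pi ν) :=
        lintegral_mono fun x => ENNReal.ofReal_le_ofReal (t2_point (hi2 k) g u z i k x)
    _ = ∫⁻ x, ∫⁻ y, ENNReal.ofReal (8 * ‖b x‖ ^ 2 * ‖y - m‖ ^ 2 +
          2 * G ^ 2 * (u k ^ 2 * (‖y - m‖ ^ 2 - s)) ^ 2) ∂(ν k)
        ∂(Measure.pi ν) := by
        rw [t2_resample ν k (by fun_prop)]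
        simp only [hbu, Function.update_self]
    _ ≤ ∫⁻ x, ENNReal.ofReal (8 * s * ‖b x‖ ^ 2 + 8 * c ^ 2 * G ^ 2 * (u k ^ 2 * s))
        ∂(Measure.pi ν) := by
        refine lintegral_mono fun x => ?_
        have hi : Integrable (fun y : ℂ => 8 * ‖b x‖ ^ 2 * ‖y - m‖ ^ 2 +
            2 * G ^ 2 * (u k ^ 2 * (‖y - m‖ ^ 2 - s)) ^ 2) (ν k) :=
          (hci.const_mul _).add (hfi.const_mul _)
        rw [← ofReal_integral_eq_lintegral_ofReal hi
          (Filter.Eventually.of_forall fun y => by positivity)]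
        refine ENNReal.ofReal_le_ofReal ?_
        rw [integral_add (hci.const_mul _) (hfi.const_mul _),
          integral_const_mul, integral_const_mul, hce]
        have h1 : 2 * G ^ 2 * ∫ y, (u k ^ 2 * (‖y - m‖ ^ 2 - s)) ^ 2 ∂(ν k) ≤
            2 * G ^ 2 * (4 * c ^ 2 * (u k ^ 2 * s)) := by gcongr
        calc _ ≤ 8 * ‖b x‖ ^ 2 * s + 2 * G ^ 2 * (4 * c ^ 2 * (u k ^ 2 * s)) := by gcongr
          _ = _ := by ring
    _ = ENNReal.ofReal (∫ x, (8 * s * ‖b x‖ ^ 2 + 8 * c ^ 2 * G ^ 2 * (u k ^ 2 * s))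
        ∂(Measure.pi ν)) := by
        have hib : Integrable (fun x => 8 * s * ‖b x‖ ^ 2 + 8 * c ^ 2 * G ^ 2 * (u k ^ 2 * s))
            (Measure.pi ν) := (hbi.const_mul _).add (integrable_const _)
        rw [ofReal_integral_eq_lintegral_ofReal hib
          (Filter.Eventually.of_forall fun y => by positivity)]
    _ ≤ _ := by
        refine ENNReal.ofReal_le_ofReal ?_
        rw [integral_add (hbi.const_mul _) (integrable_const _), integral_const_mul]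
        simp only [integral_const, probReal_univ, smul_eq_mul, one_mul]
        have h1 : 8 * s * ∫ x, ‖b x‖ ^ 2 ∂(Measure.pi ν) ≤ 8 * s * (u k ^ 2 * R) := by gcongr
        calc _ ≤ 8 * s * (u k ^ 2 * R) + 8 * c ^ 2 * G ^ 2 * (u k ^ 2 * s) := by gcongr
          _ = _ := by ring

theorem t2_Q_sq_int (ν : Fin n → Measure ℂ) [∀ k, IsProbabilityMeasure (ν k)]
    (g : Matrix (Fin n) (Fin n) ℂ) (u : Fin n → ℝ) (z : ℂ) (i : Fin n) {c κ C : ℝ}
    (hν : ∀ k, LawT (ν k) (u k) c κ) (hu : ∀ k, 0 ≤ u k) (hC : 0 ≤ C)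
    (hg : ∀ x : Fin n → ℂ, ∑ l, ‖∑ k, g l k * x k‖ ^ 2 ≤ C * ∑ k, ‖x k‖ ^ 2) :
    Integrable (fun x => Q g u z i x ^ 2) (Measure.pi ν) := by
  have hae : ∀ᵐ x ∂(Measure.pi ν), ∀ k, u k * ‖x k‖ ≤ c := by
    rw [ae_all_iff]
    intro k
    have h := (measurePreserving_eval ν k).quasiMeasurePreserving.ae (hν k).bound
    exact h
  refine (integrable_const ((C * ∑ k : Fin n, (c + ‖z‖) ^ 2) ^ 2)).mono'
    ((o2_meas g u z i).pow_const 2).aestronglyMeasurable ?_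
  filter_upwards [hae] with x hx
  have hQ0 : 0 ≤ Q g u z i x := Finset.sum_nonneg fun l _ => by positivity
  rw [Real.norm_of_nonneg (by positivity)]
  have h1 : Q g u z i x ≤ C * ∑ k, ‖arow u z i x k‖ ^ 2 := hg (arow u z i x)
  have h2 : ∀ k, ‖arow u z i x k‖ ^ 2 ≤ (c + ‖z‖) ^ 2 := by
    intro k
    unfold arow
    have h3 : ‖(u k : ℂ) * x k - (if k = i then z else 0)‖ ≤ c + ‖z‖ := by
      refine (norm_sub_le _ _).trans ?_
      rw [norm_mul, Complex.norm_real, Real.norm_eq_abs, abs_of_nonneg (hu k)]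
      refine add_le_add (hx k) ?_
      split_ifs
      · exact le_rfl
      · simp
    exact pow_le_pow_left₀ (norm_nonneg _) h3 2
  have h4 : Q g u z i x ≤ C * ∑ k : Fin n, (c + ‖z‖) ^ 2 :=
    h1.trans (mul_le_mul_of_nonneg_left (Finset.sum_le_sum fun k _ => h2 k) hC)
  gcongr

theorem t2_sum (ν : Fin n → Measure ℂ) [∀ k, IsProbabilityMeasure (ν k)]
    (g : Matrix (Fin n) (Fin n) ℂ) (u : Fin n → ℝ) (z : ℂ) (i : Fin n) {δ c κ C : ℝ}
    (hν : ∀ k, LawT (ν k) (u k) c κ) (hκ1 : κ ≤ 1)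
    (hu : ∀ k, 0 ≤ u k) (hu1 : ∑ k, u k ^ 2 = 1) (huδ : ∀ k, u k ^ 2 ≤ δ) (hC : 0 < C)
    (hg : ∀ x : Fin n → ℂ, ∑ l, ‖∑ k, g l k * x k‖ ^ 2 ≤ C * ∑ k, ‖x k‖ ^ 2) :
    ∑ k, (8 * (u k ^ 2 * t2v (ν k)) * (∑ j, ‖∑ l, starRingEnd ℂ (g l k) * g l j‖ ^ 2 *
          (u j ^ 2 * t2v (ν j)) +
        ‖∑ j, (∑ l, starRingEnd ℂ (g l k) * g l j) *
          arow u z i (fun j => ∫ y, y ∂(ν j)) j‖ ^ 2) +
      8 * c ^ 2 * (∑ l, ‖g l k‖ ^ 2) ^ 2 * (u k ^ 2 * t2v (ν k))) ≤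
      (16 * δ * (2 + (1 + ‖z‖) ^ 2) + 16 * c ^ 2) * C ^ 2 := by
  have hi2 : ∀ k, Integrable (fun x : ℂ => ‖x‖ ^ 2) (ν k) := fun k => (hν k).int2
  have hs0 : ∀ k, 0 ≤ t2v (ν k) := fun k => t2v_nonneg (hi2 k)
  have hs2 : ∀ k, t2v (ν k) ≤ 2 := by
    intro k
    unfold t2v
    have := (hν k).hi
    nlinarith [sq_nonneg ‖∫ x, x ∂(ν k)‖]
  have hδ : 0 ≤ δ := le_trans (sq_nonneg _) (huδ i)
  set v : Fin n → ℝ := fun k => u k ^ 2 * t2v (ν k) with hv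
  have hv0 : ∀ k, 0 ≤ v k := fun k => mul_nonneg (sq_nonneg _) (hs0 k)
  have hvδ : ∀ k, v k ≤ 2 * δ := by
    intro k
    have := huδ k
    have := hs0 k
    have := hs2 k
    calc u k ^ 2 * t2v (ν k) ≤ δ * 2 := by gcongr
      _ = _ := by ring
  have hvs : ∑ k, v k ≤ 2 := by
    calc ∑ k, v k ≤ ∑ k, u k ^ 2 * 2 := by
          refine Finset.sum_le_sum fun k _ => ?_
          have := hs2 k
          show u k ^ 2 * t2v (ν k) ≤ _
          gcongr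
      _ = _ := by rw [← Finset.sum_mul, hu1]; ring
  set y : Fin n → ℂ := arow u z i (fun j => ∫ y, y ∂(ν j)) with hy
  -- the norm of y
  have hu2 : ∀ k, u k ^ 2 ≤ 1 := by
    intro k
    rw [← hu1]
    exact Finset.single_le_sum (f := fun k => u k ^ 2) (fun j _ => sq_nonneg _) (Finset.mem_univ k)
  have ha : ∀ k, ‖(u k : ℂ) * ∫ y, y ∂(ν k)‖ ≤ u k ^ 2 := by
    intro k
    have h1 := (hν k).mean
    have h2 := hu k
    rw [norm_mul, Complex.norm_real, Real.norm_eq_abs, abs_of_nonneg (hu k)]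
    calc _ ≤ u k * (κ * u k) := by gcongr
      _ ≤ u k * (1 * u k) := by gcongr
      _ = _ := by ring
  have hynorm : ∑ k, ‖y k‖ ^ 2 ≤ (1 + ‖z‖) ^ 2 := by
    have h1 : ∀ k, ‖y k‖ ^ 2 ≤ u k ^ 2 + (if k = i then 2 * ‖z‖ + ‖z‖ ^ 2 else 0) := by
      intro k
      have h2 : ‖y k‖ ≤ u k ^ 2 + (if k = i then ‖z‖ else 0) := by
        rw [hy]
        unfold arow
        refine (norm_sub_le _ _).trans (add_le_add (ha k) ?_)
        split_ifs
        · exact le_rfl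
        · simp
      have h3 := hu2 k
      have h4 : 0 ≤ u k ^ 2 := sq_nonneg _
      have h5 : 0 ≤ ‖z‖ := norm_nonneg z
      have h6 : 0 ≤ ‖y k‖ := norm_nonneg _
      split_ifs at h2 ⊢
      · calc ‖y k‖ ^ 2 ≤ (u k ^ 2 + ‖z‖) ^ 2 := by gcongr
          _ ≤ _ := by nlinarith
      · calc ‖y k‖ ^ 2 ≤ (u k ^ 2 + 0) ^ 2 := by gcongr
          _ ≤ _ := by nlinarith
    calc _ ≤ _ := Finset.sum_le_sum fun k _ => h1 k
      _ = (1 + ‖z‖) ^ 2 := by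
        rw [Finset.sum_add_distrib, hu1]
        simp
        ring
  have hM : ∑ k, ‖∑ j, (∑ l, starRingEnd ℂ (g l k) * g l j) * y j‖ ^ 2 ≤
      C ^ 2 * (1 + ‖z‖) ^ 2 := by
    have h1 : ∀ k, ∑ j, (∑ l, starRingEnd ℂ (g l k) * g l j) * y j =
        ∑ l, starRingEnd ℂ (g l k) * (∑ j, g l j * y j) := by
      intro k
      simp only [Finset.sum_mul, Finset.mul_sum]
      rw [Finset.sum_comm]
      refine Finset.sum_congr rfl fun l _ => Finset.sum_congr rfl fun j _ => by ring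
    simp only [h1]
    calc _ ≤ C * ∑ l, ‖∑ j, g l j * y j‖ ^ 2 := t2_adj g hC hg _
      _ ≤ C * (C * ∑ k, ‖y k‖ ^ 2) := by
        have := hg y
        gcongr
      _ ≤ C * (C * (1 + ‖z‖) ^ 2) := by gcongr
      _ = _ := by ring
  have h1 : ∑ k, ∑ j, ‖∑ l, starRingEnd ℂ (g l k) * g l j‖ ^ 2 * v j ≤ 2 * C ^ 2 := by
    rw [Finset.sum_comm]
    calc _ = ∑ j, v j * ∑ k, ‖∑ l, starRingEnd ℂ (g l k) * g l j‖ ^ 2 := by
          refine Finset.sum_congr rfl fun j _ => ?_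
          rw [Finset.mul_sum]
          refine Finset.sum_congr rfl fun k _ => by ring
      _ ≤ ∑ j, v j * C ^ 2 := by
          refine Finset.sum_le_sum fun j _ => ?_
          have := o2_gram g hC hg j
          have := hv0 j
          gcongr
      _ = (∑ j, v j) * C ^ 2 := by rw [Finset.sum_mul]
      _ ≤ _ := by gcongr
  have h2 : ∑ k, 8 * v k * (∑ j, ‖∑ l, starRingEnd ℂ (g l k) * g l j‖ ^ 2 * v j +
      ‖∑ j, (∑ l, starRingEnd ℂ (g l k) * g l j) * y j‖ ^ 2) ≤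
      16 * δ * (2 * C ^ 2 + C ^ 2 * (1 + ‖z‖) ^ 2) := by
    calc _ ≤ ∑ k, 16 * δ * (∑ j, ‖∑ l, starRingEnd ℂ (g l k) * g l j‖ ^ 2 * v j +
          ‖∑ j, (∑ l, starRingEnd ℂ (g l k) * g l j) * y j‖ ^ 2) := by
          refine Finset.sum_le_sum fun k _ => ?_
          have h3 : 0 ≤ ∑ j, ‖∑ l, starRingEnd ℂ (g l k) * g l j‖ ^ 2 * v j +
              ‖∑ j, (∑ l, starRingEnd ℂ (g l k) * g l j) * y j‖ ^ 2 := by
            refine add_nonneg (Finset.sum_nonneg fun j _ => ?_) (by positivity)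
            have := hv0 j
            positivity
          have h4 : 8 * v k ≤ 16 * δ := by linarith [hvδ k]
          gcongr
      _ = 16 * δ * (∑ k, ∑ j, ‖∑ l, starRingEnd ℂ (g l k) * g l j‖ ^ 2 * v j +
          ∑ k, ‖∑ j, (∑ l, starRingEnd ℂ (g l k) * g l j) * y j‖ ^ 2) := by
          rw [← Finset.mul_sum, Finset.sum_add_distrib]
      _ ≤ _ := by gcongr
  have h3 : ∑ k, 8 * c ^ 2 * (∑ l, ‖g l k‖ ^ 2) ^ 2 * v k ≤ 16 * c ^ 2 * C ^ 2 := by
    calc _ ≤ ∑ k, 8 * c ^ 2 * C ^ 2 * v k := by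
          refine Finset.sum_le_sum fun k _ => ?_
          have hk2 := o2_col g hg k
          have hk3 : 0 ≤ ∑ l, ‖g l k‖ ^ 2 := Finset.sum_nonneg fun l _ => by positivity
          have := hv0 k
          gcongr
      _ = 8 * c ^ 2 * C ^ 2 * ∑ k, v k := by rw [Finset.mul_sum]
      _ ≤ 8 * c ^ 2 * C ^ 2 * 2 := by gcongr
      _ = _ := by ring
  rw [Finset.sum_add_distrib]
  calc _ ≤ 16 * δ * (2 * C ^ 2 + C ^ 2 * (1 + ‖z‖) ^ 2) + 16 * c ^ 2 * C ^ 2 :=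
        add_le_add h2 h3
    _ = _ := by ring

theorem one_row_two2 (ν : Fin n → Measure ℂ) [∀ k, IsProbabilityMeasure (ν k)]
    (g : Matrix (Fin n) (Fin n) ℂ) (u : Fin n → ℝ) (z : ℂ) (i : Fin n) {δ η c κ : ℝ}
    (hν : ∀ k, LawT (ν k) (u k) c κ) (hc : 0 ≤ c) (hκ0 : 0 ≤ κ) (hκ1 : κ ≤ 1)
    (hu : ∀ k, 0 ≤ u k) (hu1 : ∑ k, u k ^ 2 = 1) (huδ : ∀ k, u k ^ 2 ≤ δ) (hη : 0 < η)
    (hg : ∀ x : Fin n → ℂ, ∑ l, ‖∑ k, g l k * x k‖ ^ 2 ≤ (η ^ 2)⁻¹ * ∑ k, ‖x k‖ ^ 2)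
    (hV : (16 * δ * (2 + (1 + ‖z‖) ^ 2) + 16 * c ^ 2) / η ^ 4 ≤ 1) :
    ∫⁻ x, ∫⁻ y, ENNReal.ofReal (((1 + Q g u z i x) / (1 + Q g u z i y)) ^ (2 : ℝ))
        ∂(Measure.pi ν) ∂(Measure.pi ν) ≤
      ENNReal.ofReal (1 + 7 * ((16 * δ * (2 + (1 + ‖z‖) ^ 2) + 16 * c ^ 2) / η ^ 4)) := by
  set P : Measure (Fin n → ℂ) := Measure.pi ν with hP
  set V₀ : ℝ := (16 * δ * (2 + (1 + ‖z‖) ^ 2) + 16 * c ^ 2) / η ^ 4 with hV₀
  set q : (Fin n → ℂ) → ℝ := Q g u z i with hq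
  have hC : 0 < (η ^ 2)⁻¹ := by positivity
  have hδ : 0 ≤ δ := le_trans (sq_nonneg _) (huδ i)
  have hV0 : 0 ≤ V₀ := by positivity
  have hqm : Measurable q := o2_meas g u z i
  have hq0 : ∀ x, 0 ≤ q x := fun x => Finset.sum_nonneg fun l _ => by positivity
  have hq2 : Integrable (fun x => q x ^ 2) P := t2_Q_sq_int ν g u z i hν hu hC.le hg
  have hq1 : Integrable q P := by
    refine ((integrable_const (1 : ℝ)).add hq2).mono' hqm.aestronglyMeasurable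
      (Filter.Eventually.of_forall fun x => ?_)
    simp only [Pi.add_apply]
    rw [Real.norm_of_nonneg (hq0 x)]
    nlinarith [sq_nonneg (q x - 1), sq_nonneg (q x)]
  set E : ℝ := ∫ x, q x ∂P with hE
  have hE0 : 0 ≤ E := integral_nonneg hq0
  set V : ℝ := ∫ x, q x ^ 2 ∂P - E ^ 2 with hVdef
  have hVle : V ≤ V₀ := by
    have h1 := efron_stein2 ν q hqm hq2
    have h2 := Finset.sum_le_sum fun k (_ : k ∈ Finset.univ) => t2_term ν g u z i k hν hu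
    have h3 := t2_sum ν g u z i hν hκ1 hu hu1 huδ hC hg
    have h4 : (16 * δ * (2 + (1 + ‖z‖) ^ 2) + 16 * c ^ 2) * ((η ^ 2)⁻¹) ^ 2 = V₀ := by
      rw [hV₀]
      field_simp
    rw [h4] at h3
    exact h1.trans (h2.trans h3)
  -- the centred second moment
  have hcent : ∫ x, (q x - E) ^ 2 ∂P = V := by
    have h1 : (fun x => (q x - E) ^ 2) = fun x => (q x ^ 2 - (2 * E) * q x) + E ^ 2 := by
      funext x; ring
    have h2 : Integrable (fun x => q x ^ 2 - (2 * E) * q x) P := hq2.sub (hq1.const_mul _)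
    rw [h1, integral_add h2 (integrable_const _),
      integral_sub hq2 (hq1.const_mul _), integral_const_mul]
    simp only [integral_const, probReal_univ, smul_eq_mul, one_mul]
    rw [hVdef, ← hE]
    ring
  have hVnn : 0 ≤ V := by
    rw [← hcent]
    exact integral_nonneg fun x => sq_nonneg _
  have hci : Integrable (fun x => (q x - E) ^ 2) P := by
    have h1 : (fun x => (q x - E) ^ 2) = fun x => (q x ^ 2 - (2 * E) * q x) + E ^ 2 := by
      funext x; ring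
    rw [h1]
    exact (hq2.sub (hq1.const_mul _)).add (integrable_const _)
  -- first factor
  have hA : ∫⁻ x, ENNReal.ofReal ((1 + q x) ^ 2) ∂P = ENNReal.ofReal ((1 + E) ^ 2 + V) := by
    have h1 : (fun x => (1 + q x) ^ 2) = fun x => (q x ^ 2 + 2 * q x) + 1 := by
      funext x; ring
    have hi : Integrable (fun x => (1 + q x) ^ 2) P := by
      rw [h1]
      exact (hq2.add (hq1.const_mul _)).add (integrable_const _)
    rw [← ofReal_integral_eq_lintegral_ofReal hi (Filter.Eventually.of_forall fun x => by positivity)]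
    congr 1
    have h2 : Integrable (fun x => q x ^ 2 + 2 * q x) P := hq2.add (hq1.const_mul _)
    rw [h1, integral_add h2 (integrable_const _),
      integral_add hq2 (hq1.const_mul _), integral_const_mul]
    simp only [integral_const, probReal_univ, smul_eq_mul, one_mul]
    rw [hVdef, ← hE]
    ring
  -- second factor
  have hB : ∫⁻ y, ENNReal.ofReal (((1 + q y) ^ 2)⁻¹) ∂P ≤
      ENNReal.ofReal (((1 + E) ^ 2)⁻¹ * (1 + 3 * V)) := by
    have hi1 : Integrable (fun y => q y - E) P := hq1.sub (integrable_const _)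
    have hi2 : Integrable (fun y => ((1 + E) ^ 2)⁻¹ - (2 * ((1 + E) ^ 3)⁻¹) * (q y - E)) P :=
      (integrable_const _).sub (hi1.const_mul _)
    have hi : Integrable (fun y => (((1 + E) ^ 2)⁻¹ - (2 * ((1 + E) ^ 3)⁻¹) * (q y - E)) +
        (3 * ((1 + E) ^ 2)⁻¹) * (q y - E) ^ 2) P := hi2.add (hci.const_mul _)
    have hpw : ∀ y, ((1 + q y) ^ 2)⁻¹ ≤ (((1 + E) ^ 2)⁻¹ - (2 * ((1 + E) ^ 3)⁻¹) * (q y - E)) +
        (3 * ((1 + E) ^ 2)⁻¹) * (q y - E) ^ 2 := by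
      intro y
      have h := o2_pw (x := 1 + q y) (a := 1 + E) (by linarith [hq0 y]) (by linarith)
      calc _ ≤ _ := h
        _ = _ := by ring
    refine (lintegral_mono fun y => ENNReal.ofReal_le_ofReal (hpw y)).trans ?_
    rw [← ofReal_integral_eq_lintegral_ofReal hi
      (Filter.Eventually.of_forall fun y => le_trans (by positivity) (hpw y))]
    refine ENNReal.ofReal_le_ofReal (le_of_eq ?_)
    rw [integral_add hi2 (hci.const_mul _), integral_sub (integrable_const _)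
        (hi1.const_mul _), integral_const_mul, integral_const_mul,
        hcent, integral_sub hq1 (integrable_const _)]
    simp only [integral_const, probReal_univ, smul_eq_mul, one_mul]
    rw [← hE]
    ring
  have hsplit : ∀ x y, ENNReal.ofReal (((1 + q x) / (1 + q y)) ^ (2 : ℝ)) =
      ENNReal.ofReal ((1 + q x) ^ 2) * ENNReal.ofReal (((1 + q y) ^ 2)⁻¹) := by
    intro x y
    rw [← ENNReal.ofReal_mul (by positivity), Real.rpow_two, div_pow, div_eq_mul_inv]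
  simp only [hsplit]
  have h5 : ∀ x, ∫⁻ y, ENNReal.ofReal ((1 + q x) ^ 2) * ENNReal.ofReal (((1 + q y) ^ 2)⁻¹) ∂P =
      ENNReal.ofReal ((1 + q x) ^ 2) * ∫⁻ y, ENNReal.ofReal (((1 + q y) ^ 2)⁻¹) ∂P := by
    intro x
    rw [lintegral_const_mul _ (by fun_prop)]
  simp only [h5]
  rw [lintegral_mul_const _ (by fun_prop), hA]
  calc _ ≤ ENNReal.ofReal ((1 + E) ^ 2 + V) * ENNReal.ofReal (((1 + E) ^ 2)⁻¹ * (1 + 3 * V)) := by
        gcongr
    _ = ENNReal.ofReal (((1 + E) ^ 2 + V) * (((1 + E) ^ 2)⁻¹ * (1 + 3 * V))) := by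
        rw [ENNReal.ofReal_mul (p := (1 + E) ^ 2 + V) (by positivity)]
    _ ≤ _ := by
        refine ENNReal.ofReal_le_ofReal ?_
        have h6 : ((1 + E) ^ 2 + V) * (((1 + E) ^ 2)⁻¹ * (1 + 3 * V)) =
            (1 + V * ((1 + E) ^ 2)⁻¹) * (1 + 3 * V) := by
          field_simp
        have h7 : ((1 + E) ^ 2)⁻¹ ≤ 1 := inv_le_one_of_one_le₀ (by nlinarith)
        rw [h6]
        have h8 : V * ((1 + E) ^ 2)⁻¹ ≤ V := by
          calc _ ≤ V * 1 := by gcongr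
            _ = V := mul_one _
        calc _ ≤ (1 + V) * (1 + 3 * V) := by gcongr
          _ ≤ (1 + V₀) * (1 + 3 * V₀) := by gcongr
          _ ≤ _ := by nlinarith

end Pool.Agent.Circ2
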