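import Pool.Agent.Lib.Circ.Tensor

/-!
# Module J2: tensorisation of the resampling bound, different laws of the rows

Same proof as `Pool.Agent.Lib.Circ.Tensor` (induction on `n`,
`measurePreserving_piFinSuccAbove ν 0`), with `ν i` and `φ i` depending on `i`.
-/

set_option autoImplicit false

open MeasureTheory ProbabilityTheory Filter Matrix Finset

namespace Pool.Agent.Circ2

open Pool.Agent.Circ

theorem tensor2 {Y : Type} [MeasurableSpace Y] {n : ℕ} (ν : Fin n → Measure Y)
    [∀ i, IsProbabilityMeasure (ν i)]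
    (f : (Fin n → Y) → ℝ) (hf : Measurable f) (hpos : ∀ x, 0 < f x) (φ : Fin n → Y → ℝ)
    (hφm : ∀ i, Measurable (φ i)) (hφ : ∀ i, Integrable (φ i) (ν i)) (C : ℝ)
    (hlog : ∀ x, |Real.log (f x)| ≤ C + ∑ i, φ i (x i)) {t K : ℝ} (hK1 : 1 ≤ K)
    (hK : ∀ x i, ∫⁻ a, ∫⁻ b, ENNReal.ofReal
      ((f (Function.update x i a) / f (Function.update x i b)) ^ t) ∂(ν i) ∂(ν i) ≤
        ENNReal.ofReal K) :
    ∫⁻ x, ENNReal.ofReal (f x ^ t) ∂(Measure.pi ν) ≤
      ENNReal.ofReal (K ^ n * Real.exp (t * ∫ x, Real.log (f x) ∂(Measure.pi ν))) := by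
  induction n generalizing C with
  | zero =>
    rw [Measure.pi_of_empty ν, lintegral_dirac, integral_dirac]
    apply ENNReal.ofReal_le_ofReal
    rw [Real.rpow_def_of_pos (hpos _), pow_zero, one_mul, mul_comm]
  | succ n ih =>
    -- notation
    have hmp := measurePreserving_piFinSuccAbove ν 0
    have hsymm : ∀ z : Y × (Fin n → Y),
        (MeasurableEquiv.piFinSuccAbove (fun _ : Fin (n + 1) => Y) 0).symm z =
          (Fin.cons z.1 z.2 : Fin (n + 1) → Y) := fun z => by
      simp [MeasurableEquiv.piFinSuccAbove]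
      rfl
    have hmp' : MeasurePreserving (fun z : Y × (Fin n → Y) => (Fin.cons z.1 z.2 : Fin (n + 1) → Y))
        ((ν 0).prod (Measure.pi fun k => ν (Fin.succ k))) (Measure.pi ν) := by
      have h := hmp.symm
      have h2 : (⇑(MeasurableEquiv.piFinSuccAbove (fun _ : Fin (n + 1) => Y) 0).symm) =
          fun z : Y × (Fin n → Y) => (Fin.cons z.1 z.2 : Fin (n + 1) → Y) := funext hsymm
      rw [h2] at h
      exact h
    have hcons := hmp'.measurable
    have hlogm : Measurable fun x => Real.log (f x) := Real.measurable_log.comp hf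
    have hL : ∀ F : (Fin (n + 1) → Y) → ENNReal, Measurable F →
        ∫⁻ x, F x ∂(Measure.pi ν) =
          ∫⁻ y, ∫⁻ a, F (Fin.cons a y) ∂(ν 0) ∂(Measure.pi fun k => ν (Fin.succ k)) := by
      intro F hF
      exact (hmp'.lintegral_comp hF).symm.trans
        (lintegral_prod_symm (fun z : Y × (Fin n → Y) => F (Fin.cons z.1 z.2))
          (hF.comp hcons).aemeasurable)
    have hev : ∀ i : Fin (n + 1), Integrable (fun x : Fin (n + 1) → Y => φ i (x i))
        (Measure.pi ν) := by
      intro i
      exact ((measurePreserving_eval ν i).integrable_comp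
        (hφm i).aestronglyMeasurable).2 (hφ i)
    have hint : Integrable (fun x => Real.log (f x)) (Measure.pi ν) := by
      refine Integrable.mono' (g := fun x => C + ∑ i, φ i (x i)) ?_ hlogm.aestronglyMeasurable
        (ae_of_all _ fun x => ?_)
      · exact (integrable_const _).add (integrable_finsetSum _ fun i _ => hev i)
      · rw [Real.norm_eq_abs]
        exact hlog x
    have hsum : ∀ a (y : Fin n → Y), ∑ i, φ i ((Fin.cons a y : Fin (n + 1) → Y) i) =
        φ 0 a + ∑ i, φ (Fin.succ i) (y i) := fun a y => by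
      rw [Fin.sum_univ_succ]
      simp
    have hrow : ∀ y : Fin n → Y, Integrable (fun a => Real.log (f (Fin.cons a y))) (ν 0) := by
      intro y
      refine Integrable.mono' (g := fun a => C + (φ 0 a + ∑ i, φ (Fin.succ i) (y i))) ?_ ?_
        (ae_of_all _ fun a => ?_)
      · exact (integrable_const _).add ((hφ 0).add (integrable_const _))
      · exact (hlogm.comp (hcons.comp measurable_prodMk_right)).aestronglyMeasurable
      · rw [Real.norm_eq_abs, ← hsum a y]
        exact hlog _
    let f₁ : (Fin n → Y) → ℝ := fun y => Real.exp (∫ a, Real.log (f (Fin.cons a y)) ∂(ν 0))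
    have hf₁m : Measurable f₁ := by
      refine Real.measurable_exp.comp ?_
      have : StronglyMeasurable fun z : Y × (Fin n → Y) => Real.log (f (Fin.cons z.1 z.2)) :=
        (hlogm.comp hcons).stronglyMeasurable
      exact this.integral_prod_left'.measurable
    have hlog₁ : ∀ y, |Real.log (f₁ y)| ≤ (C + ∫ a, φ 0 a ∂(ν 0)) + ∑ i, φ (Fin.succ i) (y i) := by
      intro y
      change |Real.log (Real.exp _)| ≤ _
      rw [Real.log_exp]
      have h1 : |∫ a, Real.log (f (Fin.cons a y)) ∂(ν 0)| ≤
          ∫ a, (C + (φ 0 a + ∑ i, φ (Fin.succ i) (y i))) ∂(ν 0) := by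
        rw [← Real.norm_eq_abs]
        refine norm_integral_le_of_norm_le ?_ (ae_of_all _ fun a => ?_)
        · exact (integrable_const _).add ((hφ 0).add (integrable_const _))
        · rw [Real.norm_eq_abs, ← hsum a y]
          exact hlog _
      have h2 : ∫ a, (C + (φ 0 a + ∑ i, φ (Fin.succ i) (y i))) ∂(ν 0) = C + (∫ a, φ 0 a ∂(ν 0) + ∑ i, φ (Fin.succ i) (y i)) := by
        have e1 : ∫ a, (C + (φ 0 a + ∑ i, φ (Fin.succ i) (y i))) ∂(ν 0) =
            ∫ _a : Y, C ∂(ν 0) + ∫ a, (φ 0 a + ∑ i, φ (Fin.succ i) (y i)) ∂(ν 0) :=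
          integral_add (integrable_const _) ((hφ 0).add (integrable_const _))
        have e2 : ∫ a, (φ 0 a + ∑ i, φ (Fin.succ i) (y i)) ∂(ν 0) = ∫ a, φ 0 a ∂(ν 0) + ∫ _a : Y, ∑ i, φ (Fin.succ i) (y i) ∂(ν 0) :=
          integral_add (hφ 0) (integrable_const _)
        rw [e1, e2]
        simp
      linarith
    have hK₁ : ∀ y i, ∫⁻ a, ∫⁻ b, ENNReal.ofReal
        ((f₁ (Function.update y i a) / f₁ (Function.update y i b)) ^ t) ∂(ν i.succ) ∂(ν i.succ) ≤
          ENNReal.ofReal K := by
      intro y i
      have hR : Measurable fun p : Y × Y =>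
          f (Fin.cons p.1 (Function.update y i p.2) : Fin (n + 1) → Y) := by
        refine hf.comp (hcons.comp (measurable_fst.prodMk ?_))
        exact (measurable_update y).comp measurable_snd
      have hH : Measurable fun p : (Y × Y) × Y => ENNReal.ofReal
          ((f (Fin.cons p.1.2 (Function.update y i p.1.1) : Fin (n + 1) → Y) /
            f (Fin.cons p.1.2 (Function.update y i p.2) : Fin (n + 1) → Y)) ^ t) := by
        refine (Measurable.pow_const (Measurable.div ?_ ?_) t).ennreal_ofReal
        · exact hR.comp ((measurable_snd.comp measurable_fst).prodMk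
            (measurable_fst.comp measurable_fst))
        · exact hR.comp ((measurable_snd.comp measurable_fst).prodMk measurable_snd)
      have hle : ∀ b b', ENNReal.ofReal
          ((f₁ (Function.update y i b) / f₁ (Function.update y i b')) ^ t) ≤
          ∫⁻ a, ENNReal.ofReal ((f (Fin.cons a (Function.update y i b) : Fin (n + 1) → Y) /
            f (Fin.cons a (Function.update y i b') : Fin (n + 1) → Y)) ^ t) ∂(ν 0) := by
        intro b b'
        have hi := (((hrow (Function.update y i b)).sub
          (hrow (Function.update y i b'))).const_mul t)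
        have h := tens_jensen (ν 0) _ hi
        have e1 : (f₁ (Function.update y i b) / f₁ (Function.update y i b')) ^ t =
            Real.exp (∫ a, t * (Real.log (f (Fin.cons a (Function.update y i b))) -
              Real.log (f (Fin.cons a (Function.update y i b')))) ∂(ν 0)) := by
          rw [integral_const_mul, integral_sub (hrow _) (hrow _)]
          change (Real.exp _ / Real.exp _) ^ t = _
          rw [← Real.exp_sub, ← Real.exp_mul]
          ring_nf
        rw [e1]
        refine h.trans (le_of_eq (lintegral_congr fun a => ?_))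
        congr 1
        change Real.exp (t * (Real.log _ - Real.log _)) = _
        rw [← Real.log_div (hpos _).ne' (hpos _).ne', Real.rpow_def_of_pos (div_pos (hpos _) (hpos _)),
          mul_comm]
      calc ∫⁻ b, ∫⁻ b', ENNReal.ofReal
            ((f₁ (Function.update y i b) / f₁ (Function.update y i b')) ^ t) ∂(ν i.succ) ∂(ν i.succ)
          ≤ ∫⁻ b, ∫⁻ b', ∫⁻ a, ENNReal.ofReal
              ((f (Fin.cons a (Function.update y i b) : Fin (n + 1) → Y) /
                f (Fin.cons a (Function.update y i b') : Fin (n + 1) → Y)) ^ t) ∂(ν 0) ∂(ν i.succ) ∂(ν i.succ) :=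
            lintegral_mono fun b => lintegral_mono fun b' => hle b b'
        _ = ∫⁻ b, ∫⁻ a, ∫⁻ b', ENNReal.ofReal
              ((f (Fin.cons a (Function.update y i b) : Fin (n + 1) → Y) /
                f (Fin.cons a (Function.update y i b') : Fin (n + 1) → Y)) ^ t) ∂(ν i.succ) ∂(ν 0) ∂(ν i.succ) := by
            refine lintegral_congr fun b => ?_
            refine lintegral_lintegral_swap ?_
            refine Measurable.aemeasurable ?_
            exact hH.comp (((measurable_const (a := b)).prodMk measurable_snd).prodMk measurable_fst)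
        _ = ∫⁻ a, ∫⁻ b, ∫⁻ b', ENNReal.ofReal
              ((f (Fin.cons a (Function.update y i b) : Fin (n + 1) → Y) /
                f (Fin.cons a (Function.update y i b') : Fin (n + 1) → Y)) ^ t) ∂(ν i.succ) ∂(ν i.succ) ∂(ν 0) := by
            refine lintegral_lintegral_swap ?_
            exact hH.lintegral_prod_right'.aemeasurable
        _ ≤ ∫⁻ _a : Y, ENNReal.ofReal K ∂(ν 0) := by
            refine lintegral_mono fun a => ?_
            have h := hK (Fin.cons a y) i.succ
            simp only [← Fin.cons_update] at h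
            exact h
        _ = ENNReal.ofReal K := by simp
    have hIH := ih (fun k => ν (Fin.succ k)) f₁ hf₁m (fun y => Real.exp_pos _)
      (fun k => φ (Fin.succ k)) (fun k => hφm _) (fun k => hφ _) (C + ∫ a, φ 0 a ∂(ν 0)) hlog₁ hK₁
    have hfub : ∫ x, Real.log (f x) ∂(Measure.pi ν) =
        ∫ y, Real.log (f₁ y) ∂(Measure.pi fun k => ν (Fin.succ k)) := by
      have h1 : Integrable (fun z : Y × (Fin n → Y) => Real.log (f (Fin.cons z.1 z.2)))
          ((ν 0).prod (Measure.pi fun k => ν (Fin.succ k))) :=
        (hmp'.integrable_comp hlogm.aestronglyMeasurable).2 hint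
      have h2 := integral_prod_symm _ h1
      have h3 : ∫ z : Y × (Fin n → Y), Real.log (f (Fin.cons z.1 z.2))
          ∂((ν 0).prod (Measure.pi fun k => ν (Fin.succ k))) =
          ∫ x, Real.log (f x) ∂(Measure.pi ν) := by
        conv_rhs => rw [← hmp'.map_eq]
        rw [integral_map hcons.aemeasurable hlogm.aestronglyMeasurable]
      rw [← h3, h2]
      refine integral_congr_ae (ae_of_all _ fun y => ?_)
      change _ = Real.log (Real.exp _)
      rw [Real.log_exp]
    have hrowle : ∀ y : Fin n → Y, ∫⁻ a, ENNReal.ofReal (f (Fin.cons a y) ^ t) ∂(ν 0) ≤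
        ENNReal.ofReal K * ENNReal.ofReal (f₁ y ^ t) := by
      intro y
      have hKy : ∫⁻ a, ∫⁻ b, ENNReal.ofReal
          ((f (Fin.cons a y) / f (Fin.cons b y)) ^ t) ∂(ν 0) ∂(ν 0) ≤ ENNReal.ofReal K := by
        obtain ⟨a0⟩ : Nonempty Y := by
          by_contra hne
          rw [not_nonempty_iff] at hne
          have h1 : (ν 0) Set.univ = 1 := measure_univ
          rw [Set.univ_eq_empty_iff.2 hne, measure_empty] at h1
          exact zero_ne_one h1
        have h := hK (Fin.cons a0 y) 0
        simp only [Fin.update_cons_zero] at h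
        exact h
      have h := tens_row (ν 0) (fun a => f (Fin.cons a y)) (hf.comp (hcons.comp measurable_prodMk_right))
        (fun a => hpos _) (hrow y) hKy
      refine h.trans (le_of_eq ?_)
      congr 2
      change _ = (Real.exp _) ^ t
      rw [← Real.exp_mul, mul_comm]
    have hf₁t : Measurable fun y => ENNReal.ofReal (f₁ y ^ t) := (hf₁m.pow_const t).ennreal_ofReal
    calc ∫⁻ x, ENNReal.ofReal (f x ^ t) ∂(Measure.pi ν)
        = ∫⁻ y, ∫⁻ a, ENNReal.ofReal (f (Fin.cons a y) ^ t) ∂(ν 0) ∂(Measure.pi fun k => ν (Fin.succ k)) :=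
          hL _ (hf.pow_const t).ennreal_ofReal
      _ ≤ ∫⁻ y, ENNReal.ofReal K * ENNReal.ofReal (f₁ y ^ t) ∂(Measure.pi fun k => ν (Fin.succ k)) :=
          lintegral_mono hrowle
      _ = ENNReal.ofReal K * ∫⁻ y, ENNReal.ofReal (f₁ y ^ t) ∂(Measure.pi fun k => ν (Fin.succ k)) :=
          lintegral_const_mul _ hf₁t
      _ ≤ ENNReal.ofReal K * ENNReal.ofReal (K ^ n *
            Real.exp (t * ∫ y, Real.log (f₁ y) ∂(Measure.pi fun k => ν (Fin.succ k)))) :=
          mul_le_mul_right hIH _
      _ = ENNReal.ofReal (K ^ (n + 1) *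
            Real.exp (t * ∫ x, Real.log (f x) ∂(Measure.pi ν))) := by
          rw [← ENNReal.ofReal_mul (by linarith), hfub]
          congr 1
          ring

end Pool.Agent.Circ2
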