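import Pool.Agent.Lib.Circ2.LinForm2
import Pool.Agent.Lib.Circ2.MeanD
import Pool.Agent.Lib.Circ2.OneRowSmall2
import Pool.Agent.Lib.Circ2.OneRowTwo2
import Pool.Agent.Lib.Circ2.Tensor2
import Pool.Agent.Lib.Circ.FixedZ

/-!
# Module N2: the estimates at a fixed point z, two moments

Compare `Pool.Agent.Lib.Circ.FixedZ` (many `fz_` lemmas can be reused).
 (1) `∫_ν D τ ≥ (1-2κ)^n exp (n ψ) ≥ exp (n (ψ - 4κ))` (`meanD_lower`, `lintegral_Q_lower`).
 (2) `∫_ν (D τ)² ≤ ∫_ν (D η)² ≤ exp (7 V n) (∫_ν D η)² ≤ exp (n (7 V + 2 g + 2 ψ + 2 ω))`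
     (`tensor2`, `one_row_two2`, Jensen, `hden`, upper bound for `μ`).
 (3) Hölder under `ν` (`fz_holder`).
 (4) `∫_ν D τ ^ t ≤ exp (n g) ∫_μ D τ ^ t ≤ exp (n g + 2 (t L)² n + t ∫_μ log D τ)`.
-/

set_option autoImplicit false

open MeasureTheory ProbabilityTheory Filter Matrix Finset

namespace Pool.Agent.Circ2

open Pool.Agent.Circ

variable {n : ℕ}

theorem fz2_eval_integrable (ν : Fin n → Measure ℂ) [∀ j, IsProbabilityMeasure (ν j)]
    (hν : ∀ j, Integrable (fun x : ℂ => ‖x‖ ^ 2) (ν j)) (k : Fin n) :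
    Integrable (fun y : Fin n → ℂ => ‖y k‖ ^ 2) (Measure.pi ν) :=
  (measurePreserving_eval ν k).integrable_comp_of_integrable (hν k)

theorem fz2_phi_integrable (ν : Fin n → Measure ℂ) [∀ j, IsProbabilityMeasure (ν j)]
    (hν : ∀ j, Integrable (fun x : ℂ => ‖x‖ ^ 2) (ν j)) (τ : ℝ) (z : ℂ) :
    Integrable (fzPhi (n := n) τ z) (Measure.pi ν) := by
  unfold fzPhi
  refine Integrable.const_mul ?_ _
  refine integrable_finsetSum _ fun k _ => ?_
  exact ((fz2_eval_integrable ν hν k).const_mul 2).add (integrable_const _)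

theorem fz2_bound_integrable (ν : Fin n → Fin n → Measure ℂ)
    (hprob : ∀ i j, IsProbabilityMeasure (ν i j))
    (hν : ∀ i j, Integrable (fun x : ℂ => ‖x‖ ^ 2) (ν i j)) (C τ : ℝ) (z : ℂ) :
    Integrable (fun x : Fin n → Fin n → ℂ => C + ∑ i, fzPhi τ z (x i)) (arr2 ν) := by
  have hp : IsProbabilityMeasure (arr2 ν) := by
    unfold arr2
    infer_instance
  refine (integrable_const _).add (integrable_finsetSum _ fun i _ => ?_)
  have hm : MeasurePreserving (fun x : Fin n → Fin n → ℂ => x i) (arr2 ν)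
      (Measure.pi (ν i)) :=
    measurePreserving_eval (fun i : Fin n => Measure.pi (ν i)) i
  exact hm.integrable_comp_of_integrable (fz2_phi_integrable (ν i) (hν i) τ z)

theorem fz2_log_integrable (ν : Fin n → Fin n → Measure ℂ)
    (hprob : ∀ i j, IsProbabilityMeasure (ν i j))
    (hν : ∀ i j, Integrable (fun x : ℂ => ‖x‖ ^ 2) (ν i j))
    {U : Matrix (Fin n) (Fin n) ℝ} {δ : ℝ} (hU : Profile U δ) {τ : ℝ} (hτ : 0 < τ) (z : ℂ) :
    Integrable (fun x => Real.log (D τ (Amat U z x))) (arr2 ν) := by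
  refine Integrable.mono' (fz2_bound_integrable ν hprob hν (n * |Real.log (τ ^ 2)|) τ z) ?_ ?_
  · exact (Real.measurable_log.comp (fz_D_measurable U z τ)).aestronglyMeasurable
  · exact Filter.Eventually.of_forall fun x => fz_hlog hU hτ z x

theorem fixed_z_upper2 {μ : Measure ℂ} [IsProbabilityMeasure μ] (hμ : Law2 μ)
    {U : Matrix (Fin n) (Fin n) ℝ} {δ η ρ κ' ω : ℝ} (hU : Profile U δ) (hδ0 : 0 ≤ δ)
    (hδ1 : δ ≤ 1) (hη : 0 < η) (hρ0 : 0 < ρ) (hρ1 : ρ ≤ 1)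
    (hκ : κ' = 2 * Real.sqrt δ + Real.exp 1 * η) (hκ1 : κ' ≤ 1)
    (hω : ω = η + 2 * κ' + ρ + 2 * δ / (ρ * κ')) (z : ℂ) :
    ∫⁻ x, ENNReal.ofReal (D η (Amat U z x)) ∂(arr μ n) ≤
      ENNReal.ofReal (Real.exp (n * (psi (‖z‖ ^ 2) + ω))) := by
  have hκ0 : 0 < κ' := by rw [hκ]; positivity
  have hM := meanD_upper (fun _ : Fin n => Measure.pi fun _ : Fin n => μ) U hU.nonneg z
    (fun i g => (lintegral_Q2 hμ g (U i) z i).le) hη
  refine le_trans hM (ENNReal.ofReal_le_ofReal ?_)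
  have hZ := Z_upper hU hδ1 (p := ‖z‖ ^ 2) (η := η) (by positivity) hη.le
  rw [← hκ] at hZ
  have hG := G_bound (V := Matrix.of fun i j => U i j ^ 2) (δ := δ) (κ := κ') (ρ := ρ)
    (p := ‖z‖ ^ 2) (fun i j => by simp; positivity) (fun i j => by simpa using hU.small i j)
    (fun i => by simpa using hU.row i) (fun j => by simpa using hU.col j) hδ0 hκ0 hκ1 hρ0 hρ1
    (by positivity)
  simp only [Matrix.of_apply] at hG
  refine hZ.trans ((mul_le_mul_of_nonneg_left hG (by positivity)).trans ?_)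
  have h1 : (1 + η) ^ n ≤ Real.exp (n * η) := by
    rw [Real.exp_nat_mul]
    gcongr
    linarith [Real.add_one_le_exp η]
  refine (mul_le_mul_of_nonneg_right h1 (Real.exp_pos _).le).trans_eq ?_
  rw [← Real.exp_add, hω]
  congr 1
  ring

/-- An integrable bound for the logarithm, uniform in `z` in a ball. -/
theorem log_D_dom {μ : Measure ℂ} [IsProbabilityMeasure μ] (hμ : Law2 μ)
    {U : Matrix (Fin n) (Fin n) ℝ} {δ : ℝ} (hU : Profile U δ) {τ : ℝ} (hτ : 0 < τ) (R0 : ℝ) :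
    ∃ G : (Fin n → Fin n → ℂ) → ℝ, Integrable G (arr μ n) ∧
      ∀ z : ℂ, ‖z‖ ≤ R0 → ∀ x, |Real.log (D τ (Amat U z x))| ≤ G x := by
  refine ⟨fun x => n * |Real.log (τ ^ 2)| + ∑ i, fzPhi τ (R0 : ℂ) (x i), ?_, ?_⟩
  · exact fz2_bound_integrable (fun _ _ : Fin n => μ) (fun _ _ => inferInstance)
      (fun _ _ => hμ.int2) _ _ _
  · intro z hz x
    refine (fz_hlog hU hτ z x).trans ?_
    change _ ≤ (n : ℝ) * |Real.log (τ ^ 2)| + ∑ i, fzPhi τ (R0 : ℂ) (x i)
    have hR : ‖z‖ ≤ ‖(R0 : ℂ)‖ := by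
      rw [Complex.norm_real, Real.norm_eq_abs]
      exact hz.trans (le_abs_self _)
    have hsum : ∀ i : Fin n, fzPhi τ z (x i) ≤ fzPhi τ (R0 : ℂ) (x i) := by
      intro i
      unfold fzPhi
      gcongr
    have := Finset.sum_le_sum (s := Finset.univ) fun i _ => hsum i
    linarith

theorem fixed_z_lower2 {μ : Measure ℂ} [IsProbabilityMeasure μ] (hμ : Law2 μ) {Λ : ℝ}
    (hΛ : UnifNeg μ Λ)
    {U : Matrix (Fin n) (Fin n) ℝ} {δ η ρ κ' ω : ℝ} (hU : Profile U δ) (hδ0 : 0 ≤ δ)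
    (hδ1 : δ ≤ 1) (hη : 0 < η) (hρ0 : 0 < ρ) (hρ1 : ρ ≤ 1)
    (hκ' : κ' = 2 * Real.sqrt δ + Real.exp 1 * η) (hκ1' : κ' ≤ 1)
    (hω : ω = η + 2 * κ' + ρ + 2 * δ / (ρ * κ')) (z : ℂ)
    (ν : Fin n → Fin n → Measure ℂ) (hprob : ∀ i j, IsProbabilityMeasure (ν i j)) {c κ g : ℝ}
    (hc : 0 ≤ c) (hκ0 : 0 < κ) (hκ1 : κ ≤ 1 / 4) (hg : 0 ≤ g)
    (hν : ∀ i j, LawT (ν i j) (U i j) c κ)
    (hden : ∀ f : (Fin n → Fin n → ℂ) → ENNReal, Measurable f →
      ∫⁻ x, f x ∂(arr2 ν) ≤ ENNReal.ofReal (Real.exp (n * g)) * ∫⁻ x, f x ∂(arr μ n))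
    (hV : (16 * δ * (2 + (1 + ‖z‖) ^ 2) + 16 * c ^ 2) / η ^ 4 ≤ 1) {t : ℝ} (ht0 : 0 < t)
    (ht1 : t < 1) (ht : t * Real.log Λ ≤ 1) {τ : ℝ} (hτ : 0 < τ) (hτη : τ ≤ η) :
    n * (psi (‖z‖ ^ 2) - (8 * κ + 7 * ((16 * δ * (2 + (1 + ‖z‖) ^ 2) + 16 * c ^ 2) / η ^ 4) +
        3 * g + 2 * ω + 2 * (t * Real.log Λ) ^ 2) / t) ≤
      ∫ x, Real.log (D τ (Amat U z x)) ∂(arr μ n) := by
  set L : ℝ := Real.log Λ with hL
  set V0 : ℝ := (16 * δ * (2 + (1 + ‖z‖) ^ 2) + 16 * c ^ 2) / η ^ 4 with hV0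
  have hV00 : 0 ≤ V0 := by rw [hV0]; positivity
  have hκ0' : 0 < κ' := by rw [hκ']; positivity
  have hω0 : 0 ≤ ω := by rw [hω]; positivity
  have hpν : IsProbabilityMeasure (arr2 ν) := by
    unfold arr2
    infer_instance
  set ψ := psi (‖z‖ ^ 2) with hψ
  -- (1) the mean under the truncated law
  have h1 : ENNReal.ofReal (Real.exp (n * (ψ - 4 * κ))) ≤
      ∫⁻ x, ENNReal.ofReal (D τ (Amat U z x)) ∂(arr2 ν) := by
    have hM := meanD_lower (fun i : Fin n => Measure.pi (ν i)) U hU.nonneg z (q := 1 - 2 * κ)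
      (by linarith) (by linarith)
      (fun i g => lintegral_Q_lower (ν i) g (U i) z i (hν i) (hU.nonneg i) (hU.row i) hκ0
        (by linarith)) hτ
    refine le_trans (ENNReal.ofReal_le_ofReal ?_) hM
    have hF : Real.exp (n * ψ) ≤ F (Bmat U (‖z‖ ^ 2)) (fun _ => 1) (fun _ => τ ^ 2)
        Finset.univ Finset.univ := by
      refine (per_lower hU (by positivity)).trans ?_
      refine F_mono ?_ (fun _ => le_rfl) (fun _ => le_rfl) (fun _ _ => le_rfl)
        (fun _ => by simp) (fun _ => sq_nonneg τ) _ _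
      intro i j
      simp only [Bmat, Matrix.of_apply]
      split_ifs <;> positivity
    have hq : Real.exp (n * (-(4 * κ))) ≤ (1 - 2 * κ) ^ n := by
      rw [Real.exp_nat_mul]
      refine pow_le_pow_left₀ (Real.exp_pos _).le ?_ n
      have h2 : 0 < 1 - 2 * κ := by linarith
      have h3 : -(4 * κ) ≤ Real.log (1 - 2 * κ) := by
        have h4 := Real.one_sub_inv_le_log_of_pos h2
        refine le_trans ?_ h4
        rw [← one_div, le_sub_iff_add_le, ← le_sub_iff_add_le', div_le_iff₀ h2]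
        nlinarith
      calc Real.exp (-(4 * κ)) ≤ Real.exp (Real.log (1 - 2 * κ)) := Real.exp_le_exp.mpr h3
        _ = 1 - 2 * κ := Real.exp_log h2
    calc Real.exp (n * (ψ - 4 * κ)) = Real.exp (n * (-(4 * κ))) * Real.exp (n * ψ) := by
          rw [← Real.exp_add]
          congr 1
          ring
      _ ≤ _ := mul_le_mul hq hF (Real.exp_pos _).le (by
          have : 0 ≤ 1 - 2 * κ := by linarith
          positivity)
  -- the mean of the logarithm at scale eta under the truncated law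
  have hlogη := fz2_log_integrable ν hprob (fun i j => (hν i j).int2) hU hη z
  have hEη : ∫ x, Real.log (D η (Amat U z x)) ∂(arr2 ν) ≤ n * (g + ψ + ω) := by
    refine fz_jensen (fz_D_measurable U z η) (fun x => D_pos hη _) hlogη ?_
    refine (hden _ (fz_D_measurable U z η).ennreal_ofReal).trans ?_
    refine (mul_le_mul' le_rfl (fixed_z_upper2 hμ hU hδ0 hδ1 hη hρ0 hρ1 hκ' hκ1' hω z)).trans ?_
    rw [← ENNReal.ofReal_mul (Real.exp_pos _).le, ← Real.exp_add]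
    refine ENNReal.ofReal_le_ofReal (Real.exp_le_exp.mpr (le_of_eq ?_))
    ring
  -- (2) the second moment
  have h2 : ∫⁻ x, ENNReal.ofReal (D τ (Amat U z x) ^ (2 : ℝ)) ∂(arr2 ν) ≤
      ENNReal.ofReal (Real.exp (n * (7 * V0) + 2 * (n * (g + ψ + ω)))) := by
    have hmono : ∫⁻ x, ENNReal.ofReal (D τ (Amat U z x) ^ (2 : ℝ)) ∂(arr2 ν) ≤
        ∫⁻ x, ENNReal.ofReal (D η (Amat U z x) ^ (2 : ℝ)) ∂(arr2 ν) := by
      refine lintegral_mono fun x => ENNReal.ofReal_le_ofReal ?_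
      exact Real.rpow_le_rpow (D_nonneg _ _) (D_mono hτ.le hτη _) (by norm_num)
    refine hmono.trans ?_
    have hT := tensor2 (fun i : Fin n => Measure.pi (ν i))
      (fun x : Fin n → Fin n → ℂ => D η (Amat U z x)) (fz_D_measurable U z η)
      (fun x => D_pos hη _) (fun _ => fzPhi η z) (fun _ => fzPhi_measurable η z)
      (fun i => fz2_phi_integrable (ν i) (fun j => (hν i j).int2) η z)
      (n * |Real.log (η ^ 2)|) (fun x => fz_hlog hU hη z x) (t := 2) (K := 1 + 7 * V0)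
      (by linarith)
      (fun x i => by
        obtain ⟨g, hg, hr⟩ := fz_ratio (U := U) hη z x i
        simp only [hr]
        exact one_row_two2 (ν i) g (U i) z i (hν i) hc hκ0.le (by linarith) (hU.nonneg i)
          (hU.row i) (hU.small i) hη hg hV)
    refine hT.trans (ENNReal.ofReal_le_ofReal ?_)
    rw [Real.exp_add, Real.exp_nat_mul]
    have hexp : (1 + 7 * V0) ^ n ≤ Real.exp (7 * V0) ^ n := by
      gcongr
      linarith [Real.add_one_le_exp (7 * V0)]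
    refine mul_le_mul hexp (Real.exp_le_exp.mpr ?_) (Real.exp_pos _).le (by positivity)
    exact mul_le_mul_of_nonneg_left hEη (by norm_num)
  -- (4) the small exponent
  set E : ℝ := ∫ x, Real.log (D τ (Amat U z x)) ∂(arr μ n) with hE
  have h4 : ∫⁻ x, ENNReal.ofReal (D τ (Amat U z x) ^ t) ∂(arr μ n) ≤
      ENNReal.ofReal (Real.exp (n * (2 * (t * L) ^ 2) + t * E)) := by
    have hT := tensor2 (fun _ : Fin n => Measure.pi fun _ : Fin n => μ)
      (fun x : Fin n → Fin n → ℂ => D τ (Amat U z x)) (fz_D_measurable U z τ)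
      (fun x => D_pos hτ _) (fun _ => fzPhi τ z) (fun _ => fzPhi_measurable τ z)
      (fun _ => fz2_phi_integrable (fun _ : Fin n => μ) (fun _ => hμ.int2) τ z)
      (n * |Real.log (τ ^ 2)|) (fun x => fz_hlog hU hτ z x) (t := t)
      (K := 1 + 2 * (t * L) ^ 2) (by nlinarith [sq_nonneg (t * L)])
      (fun x i => by
        obtain ⟨g, hg, hr⟩ := fz_ratio (U := U) hτ z x i
        simp only [hr]
        exact one_row_small2 hμ hΛ g (U i) z i ht0.le ht)
    refine hT.trans (ENNReal.ofReal_le_ofReal ?_)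
    rw [Real.exp_add, Real.exp_nat_mul]
    have hexp : (1 + 2 * (t * L) ^ 2) ^ n ≤ Real.exp (2 * (t * L) ^ 2) ^ n := by
      gcongr
      linarith [Real.add_one_le_exp (2 * (t * L) ^ 2)]
    exact mul_le_mul_of_nonneg_right hexp (Real.exp_pos _).le
  have h4' : ∫⁻ x, ENNReal.ofReal (D τ (Amat U z x) ^ t) ∂(arr2 ν) ≤
      ENNReal.ofReal (Real.exp (n * g + (n * (2 * (t * L) ^ 2) + t * E))) := by
    refine (hden _ (Measurable.ennreal_ofReal
      ((fz_D_measurable U z τ).pow_const t))).trans ?_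
    refine (mul_le_mul' le_rfl h4).trans ?_
    rw [← ENNReal.ofReal_mul (Real.exp_pos _).le, ← Real.exp_add]
  -- (3) Hölder
  have h3 := fz_holder (fz_D_measurable U z τ) (fun x => D_pos hτ _) ht0 ht1 h1 h4' h2
  have hn' : (0 : ℝ) ≤ n := Nat.cast_nonneg n
  have h5 : t * (n * ψ) - n * (8 * κ + 7 * V0 + 3 * g + 2 * ω + 2 * (t * L) ^ 2) ≤ t * E := by
    have e1 : 0 ≤ t * (n * (4 * κ)) := by positivity
    have e2 : 0 ≤ t * (n * (7 * V0 + 2 * g + 2 * ω)) := by positivity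
    nlinarith [h3, e1, e2]
  have h7 : n * (ψ - (8 * κ + 7 * V0 + 3 * g + 2 * ω + 2 * (t * L) ^ 2) / t) =
      (t * (n * ψ) - n * (8 * κ + 7 * V0 + 3 * g + 2 * ω + 2 * (t * L) ^ 2)) / t := by
    field_simp
  rw [h7, div_le_iff₀ ht0]
  linarith

end Pool.Agent.Circ2
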