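import Pool.Agent.Lib.Circ2.Defs2

/-!
# Module G2: second moments of affine forms, independent entries with arbitrary means

`lf_sq2`: expand (compare `Pool.Agent.Lib.Circ.LinForm`). `lintegral_Q2`: `Law2` has mean `0`.
`lintegral_Q_lower`: for a fixed `l`, with `m k` the means, `A = Σ g l k u k m k`, `B = z g l i`:
`‖A - B‖² ≥ (1-κ) ‖B‖² - (1/κ - 1) ‖A‖²`, `‖A‖² ≤ κ² Σ ‖g l k‖² (u k)²` (Cauchy-Schwarz,
`‖m k‖ ≤ κ u k`), variance of `x k` at least `1 - κ - κ²`; total factor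
`1 - κ - κ² - κ² (1/κ - 1) = 1 - 2κ`.
-/

set_option autoImplicit false

open MeasureTheory ProbabilityTheory Filter Matrix Finset

namespace Pool.Agent.Circ2

open Pool.Agent.Circ

variable {n : ℕ}

theorem l2_int_id {μ : Measure ℂ} [IsProbabilityMeasure μ]
    (hμ : Integrable (fun x : ℂ => ‖x‖ ^ 2) μ) : Integrable (fun x : ℂ => x) μ := by
  have h : Integrable (fun x : ℂ => 1 + ‖x‖ ^ 2) μ := (integrable_const _).add hμ
  refine h.mono' (by fun_prop) (Eventually.of_forall fun x => ?_)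
  nlinarith [sq_nonneg (‖x‖ - 1), sq_nonneg (‖x‖)]

theorem l2_int_conj {μ : Measure ℂ} [IsProbabilityMeasure μ]
    (hμ : Integrable (fun x : ℂ => ‖x‖ ^ 2) μ) :
    Integrable (fun x : ℂ => (starRingEnd ℂ) x) μ :=
  (l2_int_id hμ).mono (by fun_prop) (Eventually.of_forall fun x => by simp)

theorem l2_integral_eval (ν : Fin n → Measure ℂ) [∀ k, IsProbabilityMeasure (ν k)] (k : Fin n)
    (f : ℂ → ℂ) (hf : Measurable f) :
    ∫ x : Fin n → ℂ, f (x k) ∂(Measure.pi ν) = ∫ x, f x ∂(ν k) := by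
  have h := measurePreserving_eval ν k
  have h2 := integral_map (f := f) (μ := Measure.pi ν)
    h.measurable.aemeasurable hf.aestronglyMeasurable
  rw [h.map_eq] at h2
  exact h2.symm

/-- Mixed second moments. -/
theorem l2_mixed (ν : Fin n → Measure ℂ) [∀ k, IsProbabilityMeasure (ν k)]
    (hν : ∀ k, Integrable (fun x : ℂ => ‖x‖ ^ 2) (ν k)) (k l : Fin n) :
    Integrable (fun x : Fin n → ℂ => x k * (starRingEnd ℂ) (x l)) (Measure.pi ν) ∧
    ∫ x : Fin n → ℂ, x k * (starRingEnd ℂ) (x l) ∂(Measure.pi ν) =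
      (∫ x, x ∂(ν k)) * (starRingEnd ℂ) (∫ x, x ∂(ν l)) +
      if k = l then ((∫ x, ‖x‖ ^ 2 ∂(ν k) - ‖∫ x, x ∂(ν k)‖ ^ 2 : ℝ) : ℂ) else 0 := by
  by_cases hkl : k = l
  · subst hkl
    have h1 : Integrable (fun x : ℂ => x * (starRingEnd ℂ) x) (ν k) := by
      refine (hν k).mono (by fun_prop) (Eventually.of_forall fun x => ?_)
      simp [sq]
    refine ⟨integrable_comp_eval (μ := ν) (i := k) h1, ?_⟩
    rw [if_pos rfl, l2_integral_eval ν k (fun x => x * (starRingEnd ℂ) x) (by fun_prop)]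
    have h2 : (fun x : ℂ => x * (starRingEnd ℂ) x) = fun x : ℂ => ((‖x‖ ^ 2 : ℝ) : ℂ) := by
      funext x
      rw [Complex.mul_conj']
      push_cast
      rfl
    rw [h2, integral_complex_ofReal, Complex.mul_conj']
    push_cast
    ring
  · have hind : iIndepFun (fun (i : Fin n) (x : Fin n → ℂ) => x i) (Measure.pi ν) :=
      iIndepFun_pi (X := fun _ : Fin n => (id : ℂ → ℂ)) (fun i => aemeasurable_id)
    have h2 : IndepFun (fun x : Fin n → ℂ => x k) (fun x : Fin n → ℂ => (starRingEnd ℂ) (x l))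
        (Measure.pi ν) :=
      (hind.indepFun hkl).comp (φ := fun x : ℂ => x) (ψ := fun x : ℂ => (starRingEnd ℂ) x)
        measurable_id (by fun_prop)
    have hk : Integrable (fun x : Fin n → ℂ => x k) (Measure.pi ν) :=
      integrable_comp_eval (μ := ν) (i := k) (f := fun x : ℂ => x) (l2_int_id (hν k))
    have hl : Integrable (fun x : Fin n → ℂ => (starRingEnd ℂ) (x l)) (Measure.pi ν) :=
      integrable_comp_eval (μ := ν) (i := l)
        (f := fun x : ℂ => (starRingEnd ℂ) x) (l2_int_conj (hν l))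
    refine ⟨h2.integrable_mul hk hl, ?_⟩
    rw [if_neg hkl, add_zero, h2.integral_fun_mul_eq_mul_integral hk.aestronglyMeasurable
      hl.aestronglyMeasurable]
    have e1 := l2_integral_eval ν k (fun x => x) (by fun_prop)
    have e2 := l2_integral_eval ν l (fun x => (starRingEnd ℂ) x) (by fun_prop)
    rw [e1, e2, integral_conj]

theorem lf_sq2 (ν : Fin n → Measure ℂ) [∀ k, IsProbabilityMeasure (ν k)]
    (hν : ∀ k, Integrable (fun x : ℂ => ‖x‖ ^ 2) (ν k)) (c : Fin n → ℂ) (b : ℂ) :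
    Integrable (fun x : Fin n → ℂ => ‖∑ k, c k * x k - b‖ ^ 2) (Measure.pi ν) ∧
    ∫ x, ‖∑ k, c k * x k - b‖ ^ 2 ∂(Measure.pi ν) =
      ∑ k, ‖c k‖ ^ 2 * (∫ x, ‖x‖ ^ 2 ∂(ν k) - ‖∫ x, x ∂(ν k)‖ ^ 2) +
        ‖∑ k, c k * (∫ x, x ∂(ν k)) - b‖ ^ 2 := by
  set P := Measure.pi ν with hP
  set m : Fin n → ℂ := fun k => ∫ x, x ∂(ν k) with hm
  set v : Fin n → ℝ := fun k => ∫ x, ‖x‖ ^ 2 ∂(ν k) - ‖m k‖ ^ 2 with hv
  have hsq : ∀ w : Fin n → ℂ, ((‖∑ k, c k * w k - b‖ ^ 2 : ℝ) : ℂ) =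
      (∑ k, ∑ l, (c k * (starRingEnd ℂ) (c l)) * (w k * (starRingEnd ℂ) (w l))) -
      (∑ k, ((starRingEnd ℂ) b * c k) * w k) -
      (∑ k, (b * (starRingEnd ℂ) (c k)) * (starRingEnd ℂ) (w k)) + b * (starRingEnd ℂ) b := by
    intro x
    have h1 : ((‖∑ k, c k * x k - b‖ ^ 2 : ℝ) : ℂ) =
        (∑ k, c k * x k - b) * (starRingEnd ℂ) (∑ k, c k * x k - b) := by
      rw [Complex.mul_conj']
      push_cast
      rfl
    rw [h1, map_sub, map_sum, sub_mul, mul_sub, mul_sub, Finset.sum_mul_sum]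
    simp only [map_mul]
    have e1 : ∑ k, ∑ l, c k * x k * ((starRingEnd ℂ) (c l) * (starRingEnd ℂ) (x l)) =
        ∑ k, ∑ l, (c k * (starRingEnd ℂ) (c l)) * (x k * (starRingEnd ℂ) (x l)) :=
      Finset.sum_congr rfl fun k _ => Finset.sum_congr rfl fun l _ => by ring
    have e2 : (∑ k, c k * x k) * (starRingEnd ℂ) b = ∑ k, ((starRingEnd ℂ) b * c k) * x k := by
      rw [Finset.sum_mul]
      exact Finset.sum_congr rfl fun k _ => by ring
    have e3 : b * ∑ k, (starRingEnd ℂ) (c k) * (starRingEnd ℂ) (x k) =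
        ∑ k, (b * (starRingEnd ℂ) (c k)) * (starRingEnd ℂ) (x k) := by
      rw [Finset.mul_sum]
      exact Finset.sum_congr rfl fun k _ => by ring
    rw [e1, e2, e3]
    ring
  have hexp : (fun x : Fin n → ℂ => ((‖∑ k, c k * x k - b‖ ^ 2 : ℝ) : ℂ)) = fun x =>
      (∑ k, ∑ l, (c k * (starRingEnd ℂ) (c l)) * (x k * (starRingEnd ℂ) (x l))) -
      (∑ k, ((starRingEnd ℂ) b * c k) * x k) -
      (∑ k, (b * (starRingEnd ℂ) (c k)) * (starRingEnd ℂ) (x k)) + b * (starRingEnd ℂ) b :=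
    funext hsq
  have hk : ∀ k, Integrable (fun x : Fin n → ℂ => x k) P := fun k =>
    integrable_comp_eval (μ := ν) (i := k) (f := fun x : ℂ => x) (l2_int_id (hν k))
  have hl : ∀ l, Integrable (fun x : Fin n → ℂ => (starRingEnd ℂ) (x l)) P := fun l =>
      integrable_comp_eval (μ := ν) (i := l)
        (f := fun x : ℂ => (starRingEnd ℂ) x) (l2_int_conj (hν l))
  have i1 : ∀ k, Integrable (fun x : Fin n → ℂ =>
      ∑ l, (c k * (starRingEnd ℂ) (c l)) * (x k * (starRingEnd ℂ) (x l))) P := fun k =>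
    integrable_finsetSum _ fun l _ => ((l2_mixed ν hν k l).1).const_mul _
  have i2 : Integrable (fun x : Fin n → ℂ =>
      ∑ k, ∑ l, (c k * (starRingEnd ℂ) (c l)) * (x k * (starRingEnd ℂ) (x l))) P :=
    integrable_finsetSum _ fun k _ => i1 k
  have i3 : Integrable (fun x : Fin n → ℂ => ∑ k, ((starRingEnd ℂ) b * c k) * x k) P :=
    integrable_finsetSum _ fun k _ => (hk k).const_mul _
  have i4 : Integrable (fun x : Fin n → ℂ =>
      ∑ k, (b * (starRingEnd ℂ) (c k)) * (starRingEnd ℂ) (x k)) P :=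
    integrable_finsetSum _ fun k _ => (hl k).const_mul _
  have i5 : Integrable (fun x : Fin n → ℂ =>
      (∑ k, ∑ l, (c k * (starRingEnd ℂ) (c l)) * (x k * (starRingEnd ℂ) (x l))) -
      (∑ k, ((starRingEnd ℂ) b * c k) * x k)) P := i2.sub i3
  have i6 : Integrable (fun x : Fin n → ℂ =>
      (∑ k, ∑ l, (c k * (starRingEnd ℂ) (c l)) * (x k * (starRingEnd ℂ) (x l))) -
      (∑ k, ((starRingEnd ℂ) b * c k) * x k) -
      (∑ k, (b * (starRingEnd ℂ) (c k)) * (starRingEnd ℂ) (x k))) P := i5.sub i4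
  have hint : Integrable (fun x : Fin n → ℂ => ((‖∑ k, c k * x k - b‖ ^ 2 : ℝ) : ℂ)) P := by
    rw [hexp]
    exact i6.add (integrable_const _)
  have hint' : Integrable (fun x : Fin n → ℂ => ‖∑ k, c k * x k - b‖ ^ 2) P := by
    exact hint.re.congr (Eventually.of_forall fun x => Complex.ofReal_re _)
  refine ⟨hint', ?_⟩
  have key : ((∫ x : Fin n → ℂ, ‖∑ k, c k * x k - b‖ ^ 2 ∂P : ℝ) : ℂ) =
      ((∑ k, ‖c k‖ ^ 2 * v k + ‖∑ k, c k * m k - b‖ ^ 2 : ℝ) : ℂ) := by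
    rw [← integral_complex_ofReal, hexp, integral_add i6 (integrable_const _),
      integral_sub i5 i4, integral_sub i2 i3, integral_finsetSum _ (fun k _ => i1 k)]
    have e1 : ∀ k, ∫ x : Fin n → ℂ,
        ∑ l, (c k * (starRingEnd ℂ) (c l)) * (x k * (starRingEnd ℂ) (x l)) ∂P =
        ∑ l, (c k * (starRingEnd ℂ) (c l)) * (m k * (starRingEnd ℂ) (m l)) +
        ((‖c k‖ ^ 2 * v k : ℝ) : ℂ) := by
      intro k
      rw [integral_finsetSum _ (fun l _ => ((l2_mixed ν hν k l).1).const_mul _)]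
      have : ∀ l, ∫ x : Fin n → ℂ,
          (c k * (starRingEnd ℂ) (c l)) * (x k * (starRingEnd ℂ) (x l)) ∂P =
          (c k * (starRingEnd ℂ) (c l)) * (m k * (starRingEnd ℂ) (m l)) +
          if k = l then (c k * (starRingEnd ℂ) (c l)) * (v k : ℂ) else 0 := by
        intro l
        rw [integral_const_mul, (l2_mixed ν hν k l).2]
        split_ifs <;> simp [hm, hv, mul_add]
      rw [Finset.sum_congr rfl fun l _ => this l, Finset.sum_add_distrib]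
      simp only [Finset.sum_ite_eq, Finset.mem_univ, if_true]
      rw [Complex.mul_conj']
      push_cast
      rfl
    have e2 : ∫ x : Fin n → ℂ, ∑ k, ((starRingEnd ℂ) b * c k) * x k ∂P =
        ∑ k, ((starRingEnd ℂ) b * c k) * m k := by
      rw [integral_finsetSum _ (fun k _ => (hk k).const_mul _)]
      refine Finset.sum_congr rfl fun k _ => ?_
      have := l2_integral_eval ν k (fun x => x) (by fun_prop)
      rw [integral_const_mul, this]
    have e3 : ∫ x : Fin n → ℂ, ∑ k, (b * (starRingEnd ℂ) (c k)) * (starRingEnd ℂ) (x k) ∂P =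
        ∑ k, (b * (starRingEnd ℂ) (c k)) * (starRingEnd ℂ) (m k) := by
      rw [integral_finsetSum _ (fun k _ => (hl k).const_mul _)]
      refine Finset.sum_congr rfl fun k _ => ?_
      have := l2_integral_eval ν k (fun x => (starRingEnd ℂ) x) (by fun_prop)
      rw [integral_const_mul, this, integral_conj]
    rw [Finset.sum_congr rfl fun k _ => e1 k, e2, e3, Finset.sum_add_distrib]
    simp only [integral_const, probReal_univ, one_smul]
    have h7 := hsq m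
    push_cast at h7 ⊢
    rw [h7]
    ring
  exact_mod_cast key

/-- The mean of the quadratic form. -/
theorem l2_Qgen (ν : Fin n → Measure ℂ) [∀ k, IsProbabilityMeasure (ν k)]
    (hν : ∀ k, Integrable (fun x : ℂ => ‖x‖ ^ 2) (ν k))
    (g : Matrix (Fin n) (Fin n) ℂ) (u : Fin n → ℝ) (z : ℂ) (i : Fin n) :
    ∫⁻ x, ENNReal.ofReal (Q g u z i x) ∂(Measure.pi ν) =
      ENNReal.ofReal (∑ l, (∑ k, ‖g l k * (u k : ℂ)‖ ^ 2 *
        (∫ x, ‖x‖ ^ 2 ∂(ν k) - ‖∫ x, x ∂(ν k)‖ ^ 2) +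
        ‖∑ k, (g l k * (u k : ℂ)) * (∫ x, x ∂(ν k)) - g l i * z‖ ^ 2)) := by
  have h1 : ∀ x : Fin n → ℂ, Q g u z i x =
      ∑ l, ‖∑ k, (g l k * (u k : ℂ)) * x k - g l i * z‖ ^ 2 := by
    intro x
    unfold Q arow
    refine Finset.sum_congr rfl fun l _ => ?_
    congr 2
    have : ∀ k, g l k * ((u k : ℂ) * x k - (if k = i then z else 0)) =
        (g l k * (u k : ℂ)) * x k - (if k = i then g l k * z else 0) := by
      intro k
      split_ifs <;> ring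
    rw [Finset.sum_congr rfl fun k _ => this k, Finset.sum_sub_distrib]
    simp
  simp_rw [h1]
  rw [← ofReal_integral_eq_lintegral_ofReal
    (integrable_finsetSum _ fun l _ => (lf_sq2 ν hν (fun k => g l k * (u k : ℂ)) (g l i * z)).1)
    (Eventually.of_forall fun x => Finset.sum_nonneg fun l _ => by positivity)]
  congr 1
  rw [integral_finsetSum _
    (fun l _ => (lf_sq2 ν hν (fun k => g l k * (u k : ℂ)) (g l i * z)).1)]
  exact Finset.sum_congr rfl fun l _ => (lf_sq2 ν hν (fun k => g l k * (u k : ℂ)) (g l i * z)).2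

theorem l2_target (g : Matrix (Fin n) (Fin n) ℂ) (u : Fin n → ℝ) (z : ℂ) (i : Fin n) :
    ∑ k, (u k ^ 2 + (if k = i then ‖z‖ ^ 2 else 0)) * ∑ l, ‖g l k‖ ^ 2 =
      ∑ l, (∑ k, ‖g l k * (u k : ℂ)‖ ^ 2 + ‖g l i * z‖ ^ 2) := by
  have h2 : ∀ l, ∑ k, ‖g l k * (u k : ℂ)‖ ^ 2 + ‖g l i * z‖ ^ 2 =
      ∑ k, (u k ^ 2 + (if k = i then ‖z‖ ^ 2 else 0)) * ‖g l k‖ ^ 2 := by
    intro l
    have : ∀ k, (u k ^ 2 + (if k = i then ‖z‖ ^ 2 else 0)) * ‖g l k‖ ^ 2 =
        ‖g l k * (u k : ℂ)‖ ^ 2 + (if k = i then ‖g l k * z‖ ^ 2 else 0) := by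
      intro k
      rw [norm_mul, Complex.norm_real, Real.norm_eq_abs, mul_pow, sq_abs]
      split_ifs
      · rw [norm_mul]; ring
      · ring
    rw [Finset.sum_congr rfl fun k _ => this k, Finset.sum_add_distrib]
    simp
  rw [Finset.sum_congr rfl fun l _ => h2 l, Finset.sum_comm]
  exact Finset.sum_congr rfl fun k _ => by rw [Finset.mul_sum]

/-- The mean of the quadratic form, centred case. -/
theorem lintegral_Q2 {μ : Measure ℂ} [IsProbabilityMeasure μ] (hμ : Law2 μ)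
    (g : Matrix (Fin n) (Fin n) ℂ) (u : Fin n → ℝ) (z : ℂ) (i : Fin n) :
    ∫⁻ x, ENNReal.ofReal (Q g u z i x) ∂(Measure.pi fun _ : Fin n => μ) =
      ENNReal.ofReal (∑ k, (u k ^ 2 + (if k = i then ‖z‖ ^ 2 else 0)) * ∑ l, ‖g l k‖ ^ 2) := by
  rw [l2_Qgen (fun _ : Fin n => μ) (fun _ => hμ.int2), l2_target]
  congr 1
  refine Finset.sum_congr rfl fun l _ => ?_
  rw [hμ.mean, hμ.var]
  simp

/-- The elementary inequality. -/
theorem l2_elem (A B : ℂ) {κ : ℝ} (hκ0 : 0 < κ) :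
    (1 - κ) * ‖B‖ ^ 2 - (1 / κ - 1) * ‖A‖ ^ 2 ≤ ‖A - B‖ ^ 2 := by
  have h1 : ‖B‖ - ‖A‖ ≤ ‖A - B‖ := by
    rw [norm_sub_rev]
    exact norm_sub_norm_le B A
  have h2 : ‖A‖ - ‖B‖ ≤ ‖A - B‖ := norm_sub_norm_le A B
  have h3 : (‖A‖ - ‖B‖) ^ 2 ≤ ‖A - B‖ ^ 2 := by
    apply sq_le_sq'
    · linarith
    · exact h2
  refine le_trans ?_ h3
  have h4 : 0 ≤ (κ * ‖B‖ - ‖A‖) ^ 2 / κ := by positivity
  have h5 : (κ * ‖B‖ - ‖A‖) ^ 2 / κ = κ * ‖B‖ ^ 2 - 2 * ‖A‖ * ‖B‖ + 1 / κ * ‖A‖ ^ 2 := by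
    field_simp
    ring
  nlinarith

/-- The mean of the quadratic form, truncated case. -/
theorem lintegral_Q_lower (ν : Fin n → Measure ℂ) [∀ k, IsProbabilityMeasure (ν k)]
    (g : Matrix (Fin n) (Fin n) ℂ) (u : Fin n → ℝ) (z : ℂ) (i : Fin n) {c κ : ℝ}
    (hν : ∀ k, LawT (ν k) (u k) c κ) (hu : ∀ k, 0 ≤ u k) (hu1 : ∑ k, u k ^ 2 = 1)
    (hκ0 : 0 < κ) (hκ1 : κ ≤ 1) :
    ENNReal.ofReal ((1 - 2 * κ) *
        ∑ k, (u k ^ 2 + (if k = i then ‖z‖ ^ 2 else 0)) * ∑ l, ‖g l k‖ ^ 2) ≤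
      ∫⁻ x, ENNReal.ofReal (Q g u z i x) ∂(Measure.pi ν) := by
  rw [l2_Qgen ν (fun k => (hν k).int2), l2_target]
  apply ENNReal.ofReal_le_ofReal
  rw [Finset.mul_sum]
  refine Finset.sum_le_sum fun l _ => ?_
  set S := ∑ k, ‖g l k * (u k : ℂ)‖ ^ 2 with hS
  have hS0 : 0 ≤ S := Finset.sum_nonneg fun k _ => by positivity
  have hu2 : ∀ k, u k ^ 2 ≤ 1 := by
    intro k
    rw [← hu1]
    exact Finset.single_le_sum (f := fun k => u k ^ 2) (fun k _ => by positivity)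
      (Finset.mem_univ k)
  have h1 : (1 - κ - κ ^ 2) * S ≤ ∑ k, ‖g l k * (u k : ℂ)‖ ^ 2 *
      (∫ x, ‖x‖ ^ 2 ∂(ν k) - ‖∫ x, x ∂(ν k)‖ ^ 2) := by
    rw [hS, Finset.mul_sum]
    refine Finset.sum_le_sum fun k _ => ?_
    rw [mul_comm]
    refine mul_le_mul_of_nonneg_left ?_ (by positivity)
    have h2 := (hν k).lo
    have h3 : ‖∫ x, x ∂(ν k)‖ ^ 2 ≤ κ ^ 2 := by
      calc ‖∫ x, x ∂(ν k)‖ ^ 2 ≤ (κ * u k) ^ 2 :=
            pow_le_pow_left₀ (norm_nonneg _) (hν k).mean 2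
        _ = κ ^ 2 * u k ^ 2 := by ring
        _ ≤ κ ^ 2 * 1 := by
            gcongr
            exact hu2 k
        _ = κ ^ 2 := mul_one _
    linarith
  have h2 : ‖∑ k, (g l k * (u k : ℂ)) * (∫ x, x ∂(ν k))‖ ^ 2 ≤ κ ^ 2 * S := by
    have h3 : ‖∑ k, (g l k * (u k : ℂ)) * (∫ x, x ∂(ν k))‖ ≤
        ∑ k, ‖g l k * (u k : ℂ)‖ * (κ * u k) := by
      refine (norm_sum_le _ _).trans (Finset.sum_le_sum fun k _ => ?_)
      rw [norm_mul (g l k * (u k : ℂ))]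
      exact mul_le_mul_of_nonneg_left (hν k).mean (norm_nonneg _)
    calc ‖∑ k, (g l k * (u k : ℂ)) * (∫ x, x ∂(ν k))‖ ^ 2
        ≤ (∑ k, ‖g l k * (u k : ℂ)‖ * (κ * u k)) ^ 2 :=
          pow_le_pow_left₀ (norm_nonneg _) h3 2
      _ ≤ (∑ k, ‖g l k * (u k : ℂ)‖ ^ 2) * ∑ k, (κ * u k) ^ 2 :=
          Finset.sum_mul_sq_le_sq_mul_sq _ _ _
      _ = κ ^ 2 * S := by
          simp only [mul_pow]
          rw [← Finset.mul_sum, hu1, ← hS]
          ring
  have h3 := l2_elem (∑ k, (g l k * (u k : ℂ)) * (∫ x, x ∂(ν k))) (g l i * z) hκ0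
  have h4 : (1 / κ - 1) * ‖∑ k, (g l k * (u k : ℂ)) * (∫ x, x ∂(ν k))‖ ^ 2 ≤
      (1 / κ - 1) * (κ ^ 2 * S) := by
    refine mul_le_mul_of_nonneg_left h2 ?_
    rw [sub_nonneg, le_div_iff₀ hκ0]
    linarith
  have h5 : (1 / κ - 1) * (κ ^ 2 * S) = (κ - κ ^ 2) * S := by
    field_simp
  have h6 : 0 ≤ ‖g l i * z‖ ^ 2 := by positivity
  have _ := hu
  nlinarith

end Pool.Agent.Circ2
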