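import Pool.Agent.Lib.Circ2.SmallBall
import Pool.Agent.Lib.Circ2.LinForm2
import Pool.Agent.Lib.Circ.LinNeg

/-!
# Module S3: negative moments of affine forms, uniform in the number of variables

Let `σ² = Σ ‖c k‖²`, `c⋆ = max ‖c k‖ = ‖c k₀‖`, `w = Σ c_k x_k - b`.
(1) Conditioning on the coordinates other than `k₀`: `∫ ‖w‖^(-α) ≤ K c⋆^(-α)` (compare
`Pool.Agent.Lib.Circ.LinNeg`), so `P (‖w‖ ≤ r) ≤ K (r/c⋆)^α` for all `r > 0`.
(2) `P (‖w‖ ≤ r) ≤ C r/σ` for `r ≥ c⋆` (`small_ball_big`).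
(3) Hence `P (‖w‖ ≤ r) ≤ C' (r/σ)^γ` for all `r > 0`, `γ = α/(1+α)`: for `r < c⋆` interpolate
`P ≤ (K (r/c⋆)^α)^(1/(1+α)) (C c⋆/σ)^(α/(1+α))`, for `c⋆ ≤ r ≤ σ` use `(2)`, for `r > σ` trivial.
(4) Summing over dyadic scales (or layer cake): `∫ ‖w‖^(-2β₀) ≤ C'' σ^(-2β₀)`, `2 β₀ = γ/2`.
(5) If `‖b‖ ≤ 2σ` then `s2 ≤ 5 σ²`. If `‖b‖ > 2σ`, split according to `‖Σ c_k x_k‖ ≤ ‖b‖/2`
(there `‖w‖ ≥ ‖b‖/2`); on the complement use Cauchy-Schwarz with exponent `β₀/2`, Chebyshev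
`P ≤ 4σ²/‖b‖²` and `(4)` (if `σ = 0` trivial).
(6) Lyapunov for smaller exponents; `Λ` is the maximum of `e`, `C₀^(1/β₁)` and `e^(1/β₁)`, where
`∫ ‖w‖^(-2β₁) ≤ C₀ s2^(-β₁)`.
-/

set_option autoImplicit false

open MeasureTheory ProbabilityTheory Filter Matrix Finset

namespace Pool.Agent.Circ2

open Pool.Agent.Circ

variable {n : ℕ}

theorem ln2_sq {μ : Measure ℂ} [IsProbabilityMeasure μ] (hμ : Law2 μ)
    (c : Fin n → ℂ) (b : ℂ) :
    ∫⁻ x, ENNReal.ofReal (‖∑ k, c k * x k - b‖ ^ 2) ∂(Measure.pi fun _ : Fin n => μ) =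
      ENNReal.ofReal (∑ k, ‖c k‖ ^ 2 + ‖b‖ ^ 2) := by
  obtain ⟨h1, h2⟩ := lf_sq2 (fun _ : Fin n => μ) (fun _ => hμ.int2) c b
  have h3 : ∑ k, ‖c k‖ ^ 2 * (∫ x, ‖x‖ ^ 2 ∂μ - ‖∫ x, x ∂μ‖ ^ 2) +
        ‖∑ k, c k * (∫ x, x ∂μ) - b‖ ^ 2 = ∑ k, ‖c k‖ ^ 2 + ‖b‖ ^ 2 := by
    rw [hμ.mean, hμ.var]
    simp
  rw [← h3, ← h2, ofReal_integral_eq_lintegral_ofReal h1
    (Eventually.of_forall fun x => by positivity)]

/-- Conditioning on all coordinates but one. -/
theorem ln2_alpha {μ : Measure ℂ} [IsProbabilityMeasure μ] {K α : ℝ}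
    (hK : LawNeg μ K α) (c : Fin n → ℂ) (b : ℂ) (k : Fin n) (hc0 : c k ≠ 0) :
    ∫⁻ x, ‖∑ k, c k * x k - b‖ₑ ^ (-α) ∂(Measure.pi fun _ : Fin n => μ) ≤
      ENNReal.ofReal (K * ‖c k‖ ^ (-α)) := by
  have hck : 0 < ‖c k‖ := norm_pos_iff.2 hc0
  have hmeas : Measurable fun x : Fin n → ℂ => ‖∑ k, c k * x k - b‖ₑ ^ (-α) := by fun_prop
  have hgoal : ∫⁻ x, ‖∑ k, c k * x k - b‖ₑ ^ (-α) ∂(Measure.pi fun _ : Fin n => μ) ≤
      ∫⁻ _x : Fin n → ℂ, ENNReal.ofReal (K * ‖c k‖ ^ (-α))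
        ∂(Measure.pi fun _ : Fin n => μ) := by
    refine lintegral_le_of_lmarginal_le (μ := fun _ : Fin n => μ) {k} hmeas measurable_const ?_
    rw [lmarginal_singleton, lmarginal_singleton]
    intro x
    simp only [lintegral_const, measure_univ, mul_one]
    set a : ℂ := (b - ∑ j ∈ Finset.univ.erase k, c j * x j) / c k with ha
    have h1 : ∀ y : ℂ, ‖∑ j, c j * Function.update x k y j - b‖ₑ ^ (-α) =
        ‖c k‖ₑ ^ (-α) * ‖y - a‖ₑ ^ (-α) := by
      intro y
      have : ∑ j, c j * Function.update x k y j - b = c k * (y - a) := by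
        rw [lfn_split, ha, mul_sub, mul_div_cancel₀ _ hc0]
        ring
      rw [this, enorm_mul, ENNReal.mul_rpow_of_ne_top enorm_ne_top enorm_ne_top]
    simp_rw [h1]
    rw [lintegral_const_mul _ (by fun_prop)]
    calc ‖c k‖ₑ ^ (-α) * ∫⁻ y, ‖y - a‖ₑ ^ (-α) ∂μ
        ≤ ‖c k‖ₑ ^ (-α) * ENNReal.ofReal K := by gcongr; exact hK.neg a
      _ = ENNReal.ofReal (‖c k‖ ^ (-α)) * ENNReal.ofReal K := by
          rw [← ENNReal.ofReal_rpow_of_pos hck, ofReal_norm]
      _ = ENNReal.ofReal (K * ‖c k‖ ^ (-α)) := by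
          rw [← ENNReal.ofReal_mul (by positivity), mul_comm]
  refine hgoal.trans ?_
  simp

/-- Markov's inequality. -/
theorem ln2_markov {μ : Measure ℂ} [IsProbabilityMeasure μ] {K α : ℝ}
    (hK : LawNeg μ K α) (c : Fin n → ℂ) (b : ℂ) (k : Fin n) (hc0 : c k ≠ 0) {r : ℝ}
    (hr : 0 < r) :
    (Measure.pi fun _ : Fin n => μ) {x | ‖∑ k, c k * x k - b‖ ≤ r} ≤
      ENNReal.ofReal (K * (r / ‖c k‖) ^ α) := by
  have hck : 0 < ‖c k‖ := norm_pos_iff.2 hc0
  have hα := hK.α0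
  have hK0 : 0 < K := by linarith [hK.K1]
  have hra : 0 < r ^ (-α) := Real.rpow_pos_of_pos hr _
  have hmeas : Measurable fun x : Fin n → ℂ => ‖∑ k, c k * x k - b‖ₑ ^ (-α) := by fun_prop
  have h1 := mul_meas_ge_le_lintegral₀ (μ := Measure.pi fun _ : Fin n => μ) hmeas.aemeasurable
    (ENNReal.ofReal (r ^ (-α)))
  have h2 : {x : Fin n → ℂ | ‖∑ k, c k * x k - b‖ ≤ r} ⊆
      {x | ENNReal.ofReal (r ^ (-α)) ≤ ‖∑ k, c k * x k - b‖ₑ ^ (-α)} := by
    intro x hx
    change ENNReal.ofReal (r ^ (-α)) ≤ _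
    rw [← ENNReal.ofReal_rpow_of_pos hr, ← ofReal_norm]
    rw [ENNReal.rpow_neg, ENNReal.rpow_neg, ENNReal.inv_le_inv]
    exact ENNReal.rpow_le_rpow (ENNReal.ofReal_le_ofReal hx) hα.le
  have h3 : ENNReal.ofReal (r ^ (-α)) *
      (Measure.pi fun _ : Fin n => μ) {x | ‖∑ k, c k * x k - b‖ ≤ r} ≤
      ENNReal.ofReal (K * ‖c k‖ ^ (-α)) :=
    le_trans (by gcongr) (h1.trans (ln2_alpha hK c b k hc0))
  have h4 : ENNReal.ofReal (r ^ α) * ENNReal.ofReal (r ^ (-α)) = 1 := by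
    rw [← ENNReal.ofReal_mul (by positivity), ← Real.rpow_add hr]
    simp
  calc (Measure.pi fun _ : Fin n => μ) {x | ‖∑ k, c k * x k - b‖ ≤ r}
      = ENNReal.ofReal (r ^ α) * (ENNReal.ofReal (r ^ (-α)) *
        (Measure.pi fun _ : Fin n => μ) {x | ‖∑ k, c k * x k - b‖ ≤ r}) := by
        rw [← mul_assoc, h4, one_mul]
    _ ≤ ENNReal.ofReal (r ^ α) * ENNReal.ofReal (K * ‖c k‖ ^ (-α)) := by gcongr
    _ = ENNReal.ofReal (K * (r / ‖c k‖) ^ α) := by
        rw [← ENNReal.ofReal_mul (by positivity), Real.div_rpow hr.le hck.le,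
          Real.rpow_neg hck.le]
        congr 1
        ring

/-- Small ball probabilities at all scales. -/
theorem ln2_small {μ : Measure ℂ} [IsProbabilityMeasure μ] {K α C : ℝ}
    (hK : LawNeg μ K α) (hC1 : 1 ≤ C) (c : Fin n → ℂ) (b : ℂ)
    (hC : ∀ r : ℝ, 0 < r → (∀ k, ‖c k‖ ≤ r) →
      (Measure.pi fun _ : Fin n => μ) {x | ‖∑ k, c k * x k - b‖ ≤ r} ≤
        ENNReal.ofReal (C * r / Real.sqrt (∑ k, ‖c k‖ ^ 2)))
    (hS : 0 < ∑ k, ‖c k‖ ^ 2) {r : ℝ} (hr : 0 < r) :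
    (Measure.pi fun _ : Fin n => μ) {x | ‖∑ k, c k * x k - b‖ ≤ r} ≤
      ENNReal.ofReal (K * C * (r / Real.sqrt (∑ k, ‖c k‖ ^ 2)) ^ (α / (1 + α))) := by
  set P := Measure.pi fun _ : Fin n => μ with hP
  set σ := Real.sqrt (∑ k, ‖c k‖ ^ 2) with hσ
  have hσ0 : 0 < σ := Real.sqrt_pos.2 hS
  have hα := hK.α0
  have hK1 := hK.K1
  have hK0 : 0 < K := by linarith
  have hC0 : 0 < C := by linarith
  set γ := α / (1 + α) with hγ
  have hγ0 : 0 < γ := by positivity
  have hγ1 : γ ≤ 1 := by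
    rw [hγ, div_le_one (by linarith)]
    linarith
  have hKC : 1 ≤ K * C := by nlinarith
  have hne : (Finset.univ : Finset (Fin n)).Nonempty := by
    by_contra h
    rw [Finset.not_nonempty_iff_eq_empty] at h
    rw [h, Finset.sum_empty] at hS
    exact lt_irrefl _ hS
  obtain ⟨k, -, hk⟩ := Finset.exists_max_image Finset.univ (fun k => ‖c k‖) hne
  have hck : 0 < ‖c k‖ := by
    by_contra h
    push Not at h
    have : ∑ j, ‖c j‖ ^ 2 = 0 := by
      refine Finset.sum_eq_zero fun j _ => ?_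
      have h1 := (hk j (Finset.mem_univ j)).trans h
      have h2 : ‖c j‖ = 0 := le_antisymm h1 (norm_nonneg _)
      rw [h2]
      norm_num
    linarith
  rcases le_or_gt σ r with hσr | hσr
  · refine prob_le_one.trans ?_
    rw [← ENNReal.ofReal_one]
    apply ENNReal.ofReal_le_ofReal
    have : 1 ≤ (r / σ) ^ γ := Real.one_le_rpow (by rw [le_div_iff₀ hσ0]; linarith) hγ0.le
    nlinarith
  · rcases le_or_gt ‖c k‖ r with hkr | hkr
    · refine (hC r hr (fun j => (hk j (Finset.mem_univ j)).trans hkr)).trans ?_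
      apply ENNReal.ofReal_le_ofReal
      have h1 : r / σ ≤ (r / σ) ^ γ := by
        calc r / σ = (r / σ) ^ (1 : ℝ) := (Real.rpow_one _).symm
          _ ≤ (r / σ) ^ γ := Real.rpow_le_rpow_of_exponent_ge (by positivity)
              ((div_le_one hσ0).2 hσr.le) hγ1
      have h2 : C * r / σ = C * (r / σ) := by ring
      rw [h2]
      have h3 : C * (r / σ) ≤ C * (r / σ) ^ γ := by gcongr
      have h4 : 0 ≤ C * (r / σ) ^ γ := by positivity
      nlinarith
    · set q := (P {x | ‖∑ k, c k * x k - b‖ ≤ r}).toReal with hq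
      have hq0 : 0 ≤ q := ENNReal.toReal_nonneg
      have hPq : P {x | ‖∑ k, c k * x k - b‖ ≤ r} = ENNReal.ofReal q :=
        (ENNReal.ofReal_toReal (measure_ne_top _ _)).symm
      have h1 : q ≤ K * (r / ‖c k‖) ^ α :=
        ENNReal.toReal_le_of_le_ofReal (by positivity)
          (ln2_markov hK c b k (norm_pos_iff.1 hck) hr)
      have h2 : q ≤ C * (‖c k‖ / σ) := by
        apply ENNReal.toReal_le_of_le_ofReal (by positivity)
        have h3 := hC ‖c k‖ hck (fun j => hk j (Finset.mem_univ j))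
        rw [mul_div_assoc] at h3
        refine le_trans (measure_mono fun x hx => ?_) h3
        exact le_trans hx hkr.le
      rw [hPq]
      apply ENNReal.ofReal_le_ofReal
      rcases hq0.eq_or_lt with hq0' | hq0'
      · rw [← hq0']
        positivity
      have e1 : 1 / (1 + α) + γ = 1 := by
        rw [hγ]
        field_simp
      calc q = q ^ (1 / (1 + α)) * q ^ γ := by
            rw [← Real.rpow_add hq0', e1, Real.rpow_one]
        _ ≤ (K * (r / ‖c k‖) ^ α) ^ (1 / (1 + α)) * (C * (‖c k‖ / σ)) ^ γ := by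
            gcongr
        _ = (K ^ (1 / (1 + α)) * C ^ γ) * (r / σ) ^ γ := by
            rw [Real.mul_rpow hK0.le (by positivity), Real.mul_rpow hC0.le (by positivity),
              ← Real.rpow_mul (by positivity)]
            have e2 : α * (1 / (1 + α)) = γ := by rw [hγ]; ring
            rw [e2]
            have e3 : (r / ‖c k‖) ^ γ * (‖c k‖ / σ) ^ γ = (r / σ) ^ γ := by
              rw [← Real.mul_rpow (by positivity) (by positivity)]
              congr 1
              field_simp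
            rw [← e3]
            ring
        _ ≤ K * C * (r / σ) ^ γ := by
            have e4 : K ^ (1 / (1 + α)) ≤ K := by
              calc K ^ (1 / (1 + α)) ≤ K ^ (1 : ℝ) :=
                    Real.rpow_le_rpow_of_exponent_le hK1 (by
                      rw [div_le_one (by linarith)]
                      linarith)
                _ = K := Real.rpow_one K
            have e5 : C ^ γ ≤ C := by
              calc C ^ γ ≤ C ^ (1 : ℝ) := Real.rpow_le_rpow_of_exponent_le hC1 hγ1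
                _ = C := Real.rpow_one C
            gcongr

/-- From small ball probabilities to negative moments. -/
theorem ln2_layer {Ω : Type*} [MeasurableSpace Ω] (P : Measure Ω) [IsProbabilityMeasure P]
    (f : Ω → ℂ) (hf : Measurable f) {σ p C : ℝ} (hσ : 0 < σ) (hp : 0 < p) (hp1 : p ≤ 1)
    (hC0 : 0 ≤ C)
    (h : ∀ r : ℝ, 0 < r → P {x | ‖f x‖ ≤ r} ≤ ENNReal.ofReal (C * (r / σ) ^ (2 * p))) :
    ∫⁻ x, ‖f x‖ₑ ^ (-p) ∂P ≤
      ENNReal.ofReal ((1 + 2 * C / (1 - (1 / 2 : ℝ) ^ p)) * σ ^ (-p)) := by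
  set ρ : ℝ := 1 / 2 with hρ
  have hρ0 : 0 < ρ := by norm_num [hρ]
  have hρ1 : ρ < 1 := by norm_num [hρ]
  set A : ℕ → Set Ω := fun j => {x | ‖f x‖ ≤ σ * ρ ^ j} with hA
  have hAm : ∀ j, MeasurableSet (A j) := fun j =>
    measurableSet_le hf.norm measurable_const
  set t : ℕ → ENNReal := fun j => ENNReal.ofReal ((σ * ρ ^ (j + 1)) ^ (-p)) with ht
  have hpt : ∀ x, ‖f x‖ₑ ^ (-p) ≤ ENNReal.ofReal (σ ^ (-p)) +
      ∑' j, t j * (A j).indicator (fun _ => (1 : ENNReal)) x := by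
    intro x
    rcases (norm_nonneg (f x)).eq_or_lt with h0 | h0
    · -- zero
      refine le_add_left ?_
      have h1 : ∀ j, ENNReal.ofReal ((σ * ρ) ^ (-p)) ≤
          t j * (A j).indicator (fun _ => (1 : ENNReal)) x := by
        intro j
        have h2 : x ∈ A j := by
          change ‖f x‖ ≤ σ * ρ ^ j
          rw [← h0]
          positivity
        rw [Set.indicator_of_mem h2, mul_one]
        apply ENNReal.ofReal_le_ofReal
        apply Real.rpow_le_rpow_of_nonpos (by positivity) _ (by linarith)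
        rw [pow_succ]
        have : ρ ^ j ≤ 1 := pow_le_one₀ hρ0.le hρ1.le
        have h5 : 0 < σ * ρ := by positivity
        nlinarith
      have h3 : (⊤ : ENNReal) = ∑' _j : ℕ, ENNReal.ofReal ((σ * ρ) ^ (-p)) := by
        rw [ENNReal.tsum_const_eq_top_of_ne_zero]
        exact (ENNReal.ofReal_pos.2 (Real.rpow_pos_of_pos (by positivity) _)).ne'
      calc ‖f x‖ₑ ^ (-p) ≤ ⊤ := le_top
        _ = ∑' _j : ℕ, ENNReal.ofReal ((σ * ρ) ^ (-p)) := h3
        _ ≤ _ := ENNReal.tsum_le_tsum h1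
    · rcases le_or_gt ‖f x‖ σ with h1 | h1
      · refine le_add_left ?_
        obtain ⟨j, hj1, hj2⟩ := exists_nat_pow_near_of_lt_one (x := ‖f x‖ / σ) (y := ρ)
          (by positivity) ((div_le_one hσ).2 h1) hρ0 hρ1
        rw [lt_div_iff₀ hσ] at hj1
        rw [div_le_iff₀ hσ] at hj2
        have h2 : x ∈ A j := by
          change ‖f x‖ ≤ σ * ρ ^ j
          linarith
        refine le_trans ?_ (ENNReal.le_tsum j)
        rw [Set.indicator_of_mem h2, mul_one, ← ofReal_norm, ENNReal.ofReal_rpow_of_pos h0]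
        apply ENNReal.ofReal_le_ofReal
        apply Real.rpow_le_rpow_of_nonpos (by positivity) _ (by linarith)
        linarith
      · refine le_add_right ?_
        rw [← ofReal_norm, ENNReal.ofReal_rpow_of_pos h0]
        apply ENNReal.ofReal_le_ofReal
        exact Real.rpow_le_rpow_of_nonpos hσ h1.le (by linarith)
  have hterm : ∀ j, t j * P (A j) ≤
      ENNReal.ofReal (2 * C * σ ^ (-p) * (ρ ^ p) ^ j) := by
    intro j
    have h1 := h (σ * ρ ^ j) (by positivity)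
    have h2 : σ * ρ ^ j / σ = ρ ^ j := by field_simp
    rw [h2] at h1
    calc t j * P (A j) ≤ t j * ENNReal.ofReal (C * (ρ ^ j) ^ (2 * p)) := by gcongr
      _ = ENNReal.ofReal ((σ * ρ ^ (j + 1)) ^ (-p) * (C * (ρ ^ j) ^ (2 * p))) := by
          rw [ht, ← ENNReal.ofReal_mul (by positivity)]
      _ ≤ _ := by
          apply ENNReal.ofReal_le_ofReal
          rw [Real.mul_rpow hσ.le (by positivity), pow_succ,
            Real.mul_rpow (by positivity) hρ0.le]
          have e1 : (ρ ^ j) ^ (-p) * (ρ ^ j) ^ (2 * p) = (ρ ^ p) ^ j := by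
            rw [← Real.rpow_add (by positivity), ← Real.rpow_natCast ρ j,
              ← Real.rpow_mul hρ0.le, ← Real.rpow_natCast (ρ ^ p) j, ← Real.rpow_mul hρ0.le]
            congr 1
            ring
          have e2 : ρ ^ (-p) ≤ 2 := by
            calc ρ ^ (-p) ≤ ρ ^ (-1 : ℝ) :=
                  Real.rpow_le_rpow_of_exponent_ge hρ0 hρ1.le (by linarith)
              _ = 2 := by
                  rw [Real.rpow_neg_one, hρ]
                  norm_num
          calc σ ^ (-p) * ((ρ ^ j) ^ (-p) * ρ ^ (-p)) * (C * (ρ ^ j) ^ (2 * p))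
              = ρ ^ (-p) * (C * σ ^ (-p) * ((ρ ^ j) ^ (-p) * (ρ ^ j) ^ (2 * p))) := by ring
            _ ≤ 2 * (C * σ ^ (-p) * ((ρ ^ j) ^ (-p) * (ρ ^ j) ^ (2 * p))) := by
                gcongr
            _ = _ := by rw [e1]; ring
  have hρp : ρ ^ p < 1 := Real.rpow_lt_one hρ0.le hρ1 hp
  have hρp0 : 0 < ρ ^ p := Real.rpow_pos_of_pos hρ0 p
  calc ∫⁻ x, ‖f x‖ₑ ^ (-p) ∂P
      ≤ ∫⁻ x, (ENNReal.ofReal (σ ^ (-p)) +
        ∑' j, t j * (A j).indicator (fun _ => (1 : ENNReal)) x) ∂P := lintegral_mono hpt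
    _ = ENNReal.ofReal (σ ^ (-p)) + ∑' j, t j * P (A j) := by
        rw [lintegral_add_left measurable_const, lintegral_const, measure_univ, mul_one,
          lintegral_tsum (fun j => ((measurable_const.indicator (hAm j)).const_mul _).aemeasurable)]
        congr 1
        refine tsum_congr fun j => ?_
        rw [lintegral_const_mul _ (measurable_const.indicator (hAm j)),
          lintegral_indicator_const (hAm j), one_mul]
    _ ≤ ENNReal.ofReal (σ ^ (-p)) +
        ∑' j, ENNReal.ofReal (2 * C * σ ^ (-p) * (ρ ^ p) ^ j) := by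
        gcongr with j
        exact hterm j
    _ = ENNReal.ofReal (σ ^ (-p)) +
        ENNReal.ofReal (2 * C * σ ^ (-p) * (1 - ρ ^ p)⁻¹) := by
        rw [← ENNReal.ofReal_tsum_of_nonneg (fun j => by positivity)
          ((summable_geometric_of_lt_one hρp0.le hρp).mul_left _), tsum_mul_left,
          tsum_geometric_of_lt_one hρp0.le hρp]
    _ = _ := by
        have h1 : 0 < 1 - ρ ^ p := by linarith
        rw [← ENNReal.ofReal_add (by positivity) (by positivity)]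
        congr 1
        rw [div_eq_mul_inv]
        ring

/-- Cauchy-Schwarz for large `b` (the argument of `lfn_half` with `n = 1`). -/
theorem ln2_half {μ : Measure ℂ} [IsProbabilityMeasure μ] {K α : ℝ} (hμ : Law2 μ)
    (hK1 : 1 ≤ K) (hα0 : 0 < α) (hα1 : α ≤ 1) (c : Fin n → ℂ) (b : ℂ)
    (hsq0 : 0 < ∑ k, ‖c k‖ ^ 2 →
      ∫⁻ x, ‖∑ k, c k * x k - b‖ₑ ^ (-α) ∂(Measure.pi fun _ : Fin n => μ) ≤
        ENNReal.ofReal (K * (Real.sqrt (∑ k, ‖c k‖ ^ 2)) ^ (-α)))
    (hs : 0 < ∑ k, ‖c k‖ ^ 2 + ‖b‖ ^ 2) :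
    ∫⁻ x, ‖∑ k, c k * x k - b‖ₑ ^ (-(α / 2)) ∂(Measure.pi fun _ : Fin n => μ) ≤
      ENNReal.ofReal (6 * K * (∑ k, ‖c k‖ ^ 2 + ‖b‖ ^ 2) ^ (-(α / 4))) := by
  set S := ∑ k, ‖c k‖ ^ 2 with hSdef
  have hS0 : 0 ≤ S := Finset.sum_nonneg fun k _ => by positivity
  have hK0 : 0 < K := by linarith
  have hKs : K ^ (1 / 2 : ℝ) ≤ K := by
    calc K ^ (1 / 2 : ℝ) ≤ K ^ (1 : ℝ) :=
          Real.rpow_le_rpow_of_exponent_le hK1 (by norm_num)
      _ = K := Real.rpow_one K
  rcases hS0.eq_or_lt with hS | hS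
  · -- constant case
    have hc : ∀ k, c k = 0 := by
      intro k
      have h := (Finset.sum_eq_zero_iff_of_nonneg (fun k _ => by positivity)).1 hS.symm k
        (Finset.mem_univ k)
      simpa using h
    have hb : 0 < ‖b‖ ^ 2 := by rw [← hS] at hs; simpa using hs
    have hb' : 0 < ‖b‖ := by
      by_contra h
      have : ‖b‖ = 0 := le_antisymm (not_lt.1 h) (norm_nonneg _)
      rw [this] at hb
      norm_num at hb
    simp only [hc, zero_mul, Finset.sum_const_zero, zero_sub, enorm_neg, lintegral_const,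
      measure_univ, mul_one]
    rw [← ofReal_norm, ENNReal.ofReal_rpow_of_pos hb', ← hS, zero_add]
    apply ENNReal.ofReal_le_ofReal
    have e : (‖b‖ ^ 2) ^ (-(α / 4)) = ‖b‖ ^ (-(α / 2)) := by
      rw [← Real.rpow_natCast, ← Real.rpow_mul hb'.le]
      congr 1
      push_cast
      ring
    rw [e]
    have : 1 ≤ 6 * K := by nlinarith
    have h3 : 0 < ‖b‖ ^ (-(α / 2)) := Real.rpow_pos_of_pos hb' _
    nlinarith
  · have hsq : (∫⁻ x, ‖∑ k, c k * x k - b‖ₑ ^ (-α) ∂(Measure.pi fun _ : Fin n => μ)) ^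
        (1 / 2 : ℝ) ≤ ENNReal.ofReal (K ^ (1 / 2 : ℝ) * S ^ (-(α / 4))) := by
      refine (ENNReal.rpow_le_rpow (hsq0 hS) (by norm_num)).trans (le_of_eq ?_)
      rw [ENNReal.ofReal_rpow_of_nonneg (by positivity) (by norm_num)]
      congr 1
      rw [Real.mul_rpow hK0.le (by positivity), Real.sqrt_eq_rpow, ← Real.rpow_mul hS.le,
        ← Real.rpow_mul hS.le]
      congr 2
      ring
    have hm1 : Measurable fun x : Fin n → ℂ => ‖∑ k, c k * x k - b‖ₑ ^ (-α) := by fun_prop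
    have hhalf : ∀ x : Fin n → ℂ, ‖∑ k, c k * x k - b‖ₑ ^ (-(α / 2)) =
        (‖∑ k, c k * x k - b‖ₑ ^ (-α)) ^ (1 / 2 : ℝ) := by
      intro x
      rw [← ENNReal.rpow_mul]
      congr 1
      ring
    by_cases hb : ‖b‖ ^ 2 ≤ 4 * S
    · -- first case
      simp_rw [hhalf]
      refine (lfn_lyap _ hm1 (by norm_num) (by norm_num)).trans (hsq.trans ?_)
      apply ENNReal.ofReal_le_ofReal
      have h1 : S ^ (-(α / 4)) ≤ 5 * (S + ‖b‖ ^ 2) ^ (-(α / 4)) := by
        have h2 : S ^ (-(α / 4)) ≤ ((S + ‖b‖ ^ 2) / 5) ^ (-(α / 4)) :=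
          Real.rpow_le_rpow_of_nonpos (by positivity) (by linarith) (by linarith)
        have h3 : ((S + ‖b‖ ^ 2) / 5) ^ (-(α / 4)) =
            5 ^ (α / 4) * (S + ‖b‖ ^ 2) ^ (-(α / 4)) := by
          rw [Real.div_rpow hs.le (by norm_num), Real.rpow_neg (by norm_num : (0 : ℝ) ≤ 5)]
          field_simp
        have h4 : (5 : ℝ) ^ (α / 4) ≤ 5 := by
          calc (5 : ℝ) ^ (α / 4) ≤ 5 ^ (1 : ℝ) :=
                Real.rpow_le_rpow_of_exponent_le (by norm_num) (by linarith)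
            _ = 5 := Real.rpow_one 5
        rw [h3] at h2
        have h5 : 0 ≤ (S + ‖b‖ ^ 2) ^ (-(α / 4)) := by positivity
        nlinarith
      have h6 : 0 ≤ (S + ‖b‖ ^ 2) ^ (-(α / 4)) := by positivity
      calc K ^ (1 / 2 : ℝ) * S ^ (-(α / 4))
          ≤ K * (5 * (S + ‖b‖ ^ 2) ^ (-(α / 4))) := by gcongr
        _ ≤ 6 * K * (S + ‖b‖ ^ 2) ^ (-(α / 4)) := by
            have : 0 ≤ K * (S + ‖b‖ ^ 2) ^ (-(α / 4)) := by positivity
            nlinarith
    · -- second case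
      push Not at hb
      have hb2 : 0 < ‖b‖ ^ 2 := by linarith
      have hb' : 0 < ‖b‖ := by
        by_contra h
        have : ‖b‖ = 0 := le_antisymm (not_lt.1 h) (norm_nonneg _)
        rw [this] at hb2
        norm_num at hb2
      have hpt : ∀ x : Fin n → ℂ, ‖∑ k, c k * x k - b‖ₑ ^ (-(α / 2)) ≤
          ENNReal.ofReal ((‖b‖ / 2) ^ (-(α / 2))) + ENNReal.ofReal (2 / ‖b‖) *
            ((‖∑ k, c k * x k - b‖ₑ ^ (-α)) ^ (1 / 2 : ℝ) *
              (‖∑ k, c k * x k‖ₑ ^ 2) ^ (1 / 2 : ℝ)) := by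
        intro x
        set T := ∑ k, c k * x k with hT
        by_cases hTb : ‖T‖ ≤ ‖b‖ / 2
        · refine le_add_right ?_
          have h1 : ‖b‖ / 2 ≤ ‖T - b‖ := by
            have := norm_sub_norm_le b T
            rw [norm_sub_rev] at this
            linarith
          have h2 : 0 < ‖T - b‖ := by linarith
          rw [← ofReal_norm, ENNReal.ofReal_rpow_of_pos h2]
          exact ENNReal.ofReal_le_ofReal
            (Real.rpow_le_rpow_of_nonpos (by positivity) h1 (by linarith))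
        · refine le_add_left ?_
          push Not at hTb
          have h1 : (‖T‖ₑ ^ 2) ^ (1 / 2 : ℝ) = ‖T‖ₑ := by
            rw [← ENNReal.rpow_natCast, ← ENNReal.rpow_mul]
            norm_num
          rw [h1, ← ENNReal.rpow_mul]
          have h2 : -α * (1 / 2) = -(α / 2) := by ring
          rw [h2, mul_left_comm]
          have h3 : 1 ≤ ENNReal.ofReal (2 / ‖b‖) * ‖T‖ₑ := by
            rw [← ofReal_norm, ← ENNReal.ofReal_mul (by positivity), ← ENNReal.ofReal_one]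
            apply ENNReal.ofReal_le_ofReal
            rw [div_mul_eq_mul_div, le_div_iff₀ hb']
            linarith
          calc ‖T - b‖ₑ ^ (-(α / 2)) = ‖T - b‖ₑ ^ (-(α / 2)) * 1 := (mul_one _).symm
            _ ≤ _ := by gcongr
      have hT2 : ∫⁻ x, ‖∑ k, c k * x k‖ₑ ^ 2 ∂(Measure.pi fun _ : Fin n => μ) =
          ENNReal.ofReal S := by
        have := ln2_sq hμ c 0
        simp only [sub_zero, norm_zero] at this
        rw [hSdef]
        have e : (∑ k, ‖c k‖ ^ 2 + 0 ^ 2 : ℝ) = ∑ k, ‖c k‖ ^ 2 := by norm_num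
        rw [e] at this
        rw [← this]
        refine lintegral_congr fun x => ?_
        rw [ENNReal.ofReal_pow (norm_nonneg _), ofReal_norm]
      have hm2 : Measurable fun x : Fin n → ℂ => ‖∑ k, c k * x k‖ₑ ^ 2 := by fun_prop
      calc ∫⁻ x, ‖∑ k, c k * x k - b‖ₑ ^ (-(α / 2)) ∂(Measure.pi fun _ : Fin n => μ)
          ≤ ∫⁻ x, (ENNReal.ofReal ((‖b‖ / 2) ^ (-(α / 2))) + ENNReal.ofReal (2 / ‖b‖) *
            ((‖∑ k, c k * x k - b‖ₑ ^ (-α)) ^ (1 / 2 : ℝ) *
              (‖∑ k, c k * x k‖ₑ ^ 2) ^ (1 / 2 : ℝ))) ∂(Measure.pi fun _ : Fin n => μ) :=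
            lintegral_mono hpt
        _ = ENNReal.ofReal ((‖b‖ / 2) ^ (-(α / 2))) + ENNReal.ofReal (2 / ‖b‖) *
            ∫⁻ x, ((‖∑ k, c k * x k - b‖ₑ ^ (-α)) ^ (1 / 2 : ℝ) *
              (‖∑ k, c k * x k‖ₑ ^ 2) ^ (1 / 2 : ℝ)) ∂(Measure.pi fun _ : Fin n => μ) := by
            rw [lintegral_add_left measurable_const, lintegral_const, measure_univ, mul_one,
              lintegral_const_mul _ (by fun_prop)]
        _ ≤ ENNReal.ofReal ((‖b‖ / 2) ^ (-(α / 2))) + ENNReal.ofReal (2 / ‖b‖) *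
            ((∫⁻ x, ‖∑ k, c k * x k - b‖ₑ ^ (-α) ∂(Measure.pi fun _ : Fin n => μ)) ^
                (1 / 2 : ℝ) *
              (∫⁻ x, ‖∑ k, c k * x k‖ₑ ^ 2 ∂(Measure.pi fun _ : Fin n => μ)) ^
                (1 / 2 : ℝ)) := by
            gcongr
            exact ENNReal.lintegral_mul_norm_pow_le hm1.aemeasurable hm2.aemeasurable
              (by norm_num) (by norm_num) (by norm_num)
        _ ≤ ENNReal.ofReal ((‖b‖ / 2) ^ (-(α / 2))) + ENNReal.ofReal (2 / ‖b‖) *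
            (ENNReal.ofReal (K ^ (1 / 2 : ℝ) * S ^ (-(α / 4))) *
              ENNReal.ofReal (S ^ (1 / 2 : ℝ))) := by
            rw [hT2, ENNReal.ofReal_rpow_of_nonneg hS0 (by norm_num)]
            gcongr
        _ = ENNReal.ofReal ((‖b‖ / 2) ^ (-(α / 2)) + (2 / ‖b‖) *
            ((K ^ (1 / 2 : ℝ) * S ^ (-(α / 4))) * S ^ (1 / 2 : ℝ))) := by
            rw [← ENNReal.ofReal_mul (by positivity), ← ENNReal.ofReal_mul (by positivity),
              ← ENNReal.ofReal_add (by positivity) (by positivity)]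
        _ ≤ _ := by
            apply ENNReal.ofReal_le_ofReal
            have hB4 : (‖b‖ / 2) ^ (-(α / 2)) = (‖b‖ ^ 2 / 4) ^ (-(α / 4)) := by
              have e : ‖b‖ ^ 2 / 4 = (‖b‖ / 2) ^ 2 := by ring
              rw [e, ← Real.rpow_natCast, ← Real.rpow_mul (by positivity)]
              congr 1
              push_cast
              ring
            have h5 : (‖b‖ ^ 2 / 4) ^ (-(α / 4)) ≤ 3 * (S + ‖b‖ ^ 2) ^ (-(α / 4)) := by
              have h2 : (‖b‖ ^ 2 / 4) ^ (-(α / 4)) ≤ ((S + ‖b‖ ^ 2) / 5) ^ (-(α / 4)) :=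
                Real.rpow_le_rpow_of_nonpos (by positivity) (by linarith) (by linarith)
              have h3 : ((S + ‖b‖ ^ 2) / 5) ^ (-(α / 4)) =
                  5 ^ (α / 4) * (S + ‖b‖ ^ 2) ^ (-(α / 4)) := by
                rw [Real.div_rpow hs.le (by norm_num), Real.rpow_neg (by norm_num : (0 : ℝ) ≤ 5)]
                field_simp
              have h4 : (5 : ℝ) ^ (α / 4) ≤ 3 := by
                calc (5 : ℝ) ^ (α / 4) ≤ 5 ^ (1 / 2 : ℝ) :=
                      Real.rpow_le_rpow_of_exponent_le (by norm_num) (by linarith)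
                  _ = Real.sqrt 5 := (Real.sqrt_eq_rpow 5).symm
                  _ ≤ 3 := by
                      rw [Real.sqrt_le_left (by norm_num)]
                      norm_num
              rw [h3] at h2
              have h5 : 0 ≤ (S + ‖b‖ ^ 2) ^ (-(α / 4)) := by positivity
              nlinarith
            have h6 : (2 / ‖b‖) * (S ^ (-(α / 4)) * S ^ (1 / 2 : ℝ)) ≤
                (‖b‖ / 2) ^ (-(α / 2)) := by
              rw [← Real.rpow_add hS]
              have h7 : S ^ (-(α / 4) + 1 / 2) ≤ ((‖b‖ / 2) ^ 2) ^ (-(α / 4) + 1 / 2) :=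
                Real.rpow_le_rpow hS0 (by nlinarith) (by linarith)
              have h8 : ((‖b‖ / 2) ^ 2) ^ (-(α / 4) + 1 / 2) =
                  (‖b‖ / 2) * (‖b‖ / 2) ^ (-(α / 2)) := by
                rw [← Real.rpow_natCast, ← Real.rpow_mul (by positivity)]
                nth_rewrite 2 [← Real.rpow_one (‖b‖ / 2)]
                rw [← Real.rpow_add (by positivity)]
                congr 1
                push_cast
                ring
              rw [h8] at h7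
              calc (2 / ‖b‖) * S ^ (-(α / 4) + 1 / 2)
                  ≤ (2 / ‖b‖) * ((‖b‖ / 2) * (‖b‖ / 2) ^ (-(α / 2))) := by gcongr
                _ = (‖b‖ / 2) ^ (-(α / 2)) := by field_simp
            have h9 : 0 ≤ (‖b‖ / 2) ^ (-(α / 2)) := by positivity
            calc (‖b‖ / 2) ^ (-(α / 2)) + (2 / ‖b‖) *
                  ((K ^ (1 / 2 : ℝ) * S ^ (-(α / 4))) * S ^ (1 / 2 : ℝ))
                = (‖b‖ / 2) ^ (-(α / 2)) + (K ^ (1 / 2 : ℝ)) *
                  ((2 / ‖b‖) * (S ^ (-(α / 4)) * S ^ (1 / 2 : ℝ))) := by ring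
              _ ≤ K * (‖b‖ / 2) ^ (-(α / 2)) + K * (‖b‖ / 2) ^ (-(α / 2)) := by
                  refine add_le_add (by nlinarith) ?_
                  exact mul_le_mul hKs h6 (by positivity) (by positivity)
              _ = 2 * K * (‖b‖ ^ 2 / 4) ^ (-(α / 4)) := by rw [hB4]; ring
              _ ≤ 2 * K * (3 * (S + ‖b‖ ^ 2) ^ (-(α / 4))) := by gcongr
              _ = _ := by ring

theorem exists_unifNeg {μ : Measure ℂ} [IsProbabilityMeasure μ] (hμ : Law2 μ) {K α : ℝ}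
    (hK : LawNeg μ K α) : ∃ Λ : ℝ, UnifNeg μ Λ := by
  obtain ⟨C, hC1, hC⟩ := small_ball_big hμ
  have hα0 := hK.α0
  have hα1 := hK.α1
  have hK1 := hK.K1
  set p : ℝ := α / (1 + α) / 2 with hp
  have hp0 : 0 < p := by positivity
  have hp1 : p ≤ 1 := by
    have : α / (1 + α) ≤ 1 := by
      rw [div_le_one (by linarith)]
      linarith
    linarith
  have hρp : (1 / 2 : ℝ) ^ p < 1 := Real.rpow_lt_one (by norm_num) (by norm_num) hp0
  have hρ' : 0 < 1 - (1 / 2 : ℝ) ^ p := by linarith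
  set L : ℝ := 1 + 2 * (K * C) / (1 - (1 / 2 : ℝ) ^ p) with hL
  have hL1 : 1 ≤ L := by
    rw [hL]
    have : 0 ≤ 2 * (K * C) / (1 - (1 / 2 : ℝ) ^ p) := by positivity
    linarith
  have hmom : ∀ (n : ℕ) (c : Fin n → ℂ) (b : ℂ), 0 < ∑ k, ‖c k‖ ^ 2 →
      ∫⁻ x, ‖∑ k, c k * x k - b‖ₑ ^ (-p) ∂(Measure.pi fun _ : Fin n => μ) ≤
        ENNReal.ofReal (L * (Real.sqrt (∑ k, ‖c k‖ ^ 2)) ^ (-p)) := by
    intro n c b hS
    refine ln2_layer _ (fun x : Fin n → ℂ => ∑ k, c k * x k - b) (by fun_prop)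
      (Real.sqrt_pos.2 hS) hp0 hp1 (by positivity) (fun r hr => ?_)
    have h2p : 2 * p = α / (1 + α) := by rw [hp]; ring
    rw [h2p]
    exact ln2_small hK hC1 c b (fun r hr hcr => hC n c b r hr hcr hS) hS hr
  set Λ : ℝ := Real.exp (4 / p) * (6 * L) ^ (4 / p) with hΛ
  have h4p : 1 ≤ 4 / p := by
    rw [le_div_iff₀ hp0]
    linarith
  have h6L : 1 ≤ (6 * L) ^ (4 / p) := Real.one_le_rpow (by linarith) (by positivity)
  have hexp : Real.exp 1 ≤ Real.exp (4 / p) := Real.exp_le_exp.2 h4p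
  have hexp0 : 0 < Real.exp (4 / p) := Real.exp_pos _
  have hΛe : Real.exp (4 / p) ≤ Λ := by
    rw [hΛ]
    nlinarith
  have hΛ0 : 0 < Λ := lt_of_lt_of_le hexp0 hΛe
  refine ⟨Λ, hexp.trans hΛe, ?_⟩
  intro n c b s2 hs hs2 β hβ0 hβ
  have hlog : 4 / p ≤ Real.log Λ := by
    rw [Real.le_log_iff_exp_le hΛ0]
    exact hΛe
  set θ : ℝ := 4 * β / p with hθ
  have hθ0 : 0 ≤ θ := by positivity
  have hθ1 : θ ≤ 1 := by
    have h1 : β * (4 / p) ≤ β * Real.log Λ := mul_le_mul_of_nonneg_left hlog hβ0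
    have h2 : θ = β * (4 / p) := by rw [hθ]; ring
    rw [h2]
    linarith
  have h1 : ∀ x : Fin n → ℂ, ‖∑ k, c k * x k - b‖ₑ ^ (-2 * β) =
      (‖∑ k, c k * x k - b‖ₑ ^ (-(p / 2))) ^ θ := by
    intro x
    rw [← ENNReal.rpow_mul, hθ]
    congr 1
    field_simp
    ring
  simp_rw [h1]
  refine (lfn_lyap _ (by fun_prop) hθ0 hθ1).trans ?_
  refine (ENNReal.rpow_le_rpow (ln2_half hμ hL1 hp0 hp1 c b (hmom n c b) (hs2 ▸ hs))
    hθ0).trans ?_
  rw [← hs2, ENNReal.ofReal_rpow_of_nonneg (by positivity) hθ0]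
  apply ENNReal.ofReal_le_ofReal
  have e1 : θ = 4 / p * β := by rw [hθ]; ring
  have e2 : p / 4 * θ = β := by rw [hθ]; field_simp
  have e3 : -(p / 4) * θ = -β := by rw [neg_mul, e2]
  have h6L0 : 0 ≤ 6 * L := by linarith
  have e4 : (6 * L) ^ θ ≤ Λ ^ β := by
    rw [e1, Real.rpow_mul h6L0]
    apply Real.rpow_le_rpow (by positivity) _ hβ0
    rw [hΛ]
    have : 1 ≤ Real.exp (4 / p) := Real.one_le_exp (by positivity)
    nlinarith
  rw [Real.mul_rpow h6L0 (by positivity), ← Real.rpow_mul hs.le, e3]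
  gcongr

end Pool.Agent.Circ2
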