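import Pool.Agent.Lib.Circ2.Defs2

/-!
# Module T: truncated laws

`pi_le`: domination of product measures (e.g. induction on `n` by
`measurePreserving_piFinSuccAbove`, or via `lintegral` and Tonelli).
`trunc_law`: with `e(T) = ∫ ‖x‖² 1(‖x‖ > T) dμ → 0`; on the complement of `box u c` one has
`‖x‖ > c/u`, so `μ(boxᶜ) ≤ (u²/c²) e(c/u)`, the mean of the conditional law is
`-E(x; boxᶜ)/μ(box)`, of norm at most `2 (u/c) e(c/u)`; second moment between `1 - e(c/u)` and
`1/μ(box) ≤ 2`. For `u = 0` the box is everything.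
`trunc_arr`: `∏ 1/μ(box) ≤ exp (2 κ Σ (U i j)²) = exp (2 κ n)`.
-/

set_option autoImplicit false

open MeasureTheory ProbabilityTheory Filter Matrix Finset

namespace Pool.Agent.Circ2

open Pool.Agent.Circ

variable {n : ℕ}

theorem pi_le {Y : Type} [MeasurableSpace Y] (μ ν : Fin n → Measure Y)
    [∀ i, IsProbabilityMeasure (μ i)] [∀ i, IsProbabilityMeasure (ν i)] (c : Fin n → ENNReal)
    (h : ∀ i, ν i ≤ c i • μ i) : Measure.pi ν ≤ (∏ i, c i) • Measure.pi μ := by
  induction n with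
  | zero =>
    rw [Finset.univ_eq_empty, Finset.prod_empty, one_smul]
    apply le_of_eq
    rw [Measure.pi_of_empty, Measure.pi_of_empty]
  | succ n ih =>
    have h1 := measurePreserving_piFinSuccAbove ν 0
    have h2 := measurePreserving_piFinSuccAbove μ 0
    set e := MeasurableEquiv.piFinSuccAbove (fun _ : Fin (n + 1) => Y) 0 with he
    have h3 := ih (fun j => μ (Fin.succAbove 0 j)) (fun j => ν (Fin.succAbove 0 j))
      (fun j => c (Fin.succAbove 0 j)) (fun j => h _)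
    rw [Measure.le_iff]
    intro s hs
    have e1 : Measure.pi ν s = ((ν 0).prod (Measure.pi fun j => ν (Fin.succAbove 0 j))) (e.symm ⁻¹' s) := by
      rw [← h1.measure_preimage (e.symm.measurable hs).nullMeasurableSet]
      congr 1
      ext x
      simp
    have e2 : Measure.pi μ s = ((μ 0).prod (Measure.pi fun j => μ (Fin.succAbove 0 j))) (e.symm ⁻¹' s) := by
      rw [← h2.measure_preimage (e.symm.measurable hs).nullMeasurableSet]
      congr 1
      ext x
      simp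
    rw [Measure.smul_apply, e1, e2, Fin.prod_univ_succAbove _ 0]
    have hms : MeasurableSet (e.symm ⁻¹' s) := e.symm.measurable hs
    rw [Measure.prod_apply hms, Measure.prod_apply hms, smul_eq_mul]
    calc ∫⁻ x, (Measure.pi fun j => ν (Fin.succAbove 0 j)) (Prod.mk x ⁻¹' (e.symm ⁻¹' s)) ∂(ν 0)
        ≤ ∫⁻ x, ((∏ j, c (Fin.succAbove 0 j)) • (Measure.pi fun j => μ (Fin.succAbove 0 j)))
            (Prod.mk x ⁻¹' (e.symm ⁻¹' s)) ∂(c 0 • μ 0) :=
          lintegral_mono' (h 0) (fun x => h3 _)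
      _ = _ := by
          rw [lintegral_smul_measure]
          simp only [Measure.smul_apply, smul_eq_mul]
          rw [lintegral_const_mul _ (measurable_measure_prodMk_left hms)]
          rw [mul_assoc]

theorem trunc_box_meas (u c : ℝ) : MeasurableSet (box u c) := by
  unfold box
  exact measurableSet_le (by fun_prop) measurable_const

theorem trunc_tail {μ : Measure ℂ} [IsProbabilityMeasure μ] (hμ : Law2 μ) {ε : ℝ} (hε : 0 < ε) :
    ∃ T0 : ℝ, 0 < T0 ∧ ∫ x in {x : ℂ | T0 < ‖x‖}, ‖x‖ ^ 2 ∂μ ≤ ε := by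
  have hm : ∀ k : ℕ, MeasurableSet {x : ℂ | (k : ℝ) < ‖x‖} := fun k =>
    measurableSet_lt measurable_const measurable_norm
  have h1 : Tendsto (fun k : ℕ => ∫ x in {x : ℂ | (k : ℝ) < ‖x‖}, ‖x‖ ^ 2 ∂μ) atTop
      (nhds (∫ x in ⋂ k : ℕ, {x : ℂ | (k : ℝ) < ‖x‖}, ‖x‖ ^ 2 ∂μ)) := by
    apply tendsto_setIntegral_of_antitone hm
    · intro a b hab x hx
      have hx' : (b : ℝ) < ‖x‖ := hx
      have : (a : ℝ) ≤ b := by exact_mod_cast hab
      exact lt_of_le_of_lt this hx'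
    · exact ⟨0, hμ.int2.integrableOn⟩
  have h2 : (⋂ k : ℕ, {x : ℂ | (k : ℝ) < ‖x‖}) = ∅ := by
    ext x
    simp only [Set.mem_iInter, Set.mem_ofPred_eq, Set.mem_empty_iff_false, iff_false, not_forall,
      not_lt]
    exact exists_nat_ge ‖x‖
  rw [h2, setIntegral_empty] at h1
  have h3 := (h1.eventually (gt_mem_nhds hε)).and (eventually_ge_atTop 1)
  obtain ⟨k, hk1, hk2⟩ := h3.exists
  exact ⟨k, by exact_mod_cast hk2, hk1.le⟩

theorem trunc_law {μ : Measure ℂ} [IsProbabilityMeasure μ] (hμ : Law2 μ) {c κ : ℝ} (hc : 0 < c)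
    (hκ0 : 0 < κ) (hκ1 : κ ≤ 1) :
    ∃ δ : ℝ, 0 < δ ∧ ∀ u : ℝ, 0 ≤ u → u ≤ δ →
      IsProbabilityMeasure (trunc μ u c) ∧ LawT (trunc μ u c) u c κ ∧
      μ (box u c)ᶜ ≤ ENNReal.ofReal (κ * u ^ 2) ∧ κ * u ^ 2 ≤ 1 / 2 := by
  have hε : 0 < min (κ * c ^ 2) (min (κ * c / 2) κ) := by positivity
  obtain ⟨T0, hT0, hT⟩ := trunc_tail hμ hε
  refine ⟨min (c / T0) (1 / 2), by positivity, fun u hu0 hu => ?_⟩
  have hu1 : u ≤ c / T0 := hu.trans (min_le_left _ _)
  have hu2 : u ≤ 1 / 2 := hu.trans (min_le_right _ _)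
  rw [le_div_iff₀ hT0] at hu1
  have hBm := trunc_box_meas u c
  set B := box u c with hB
  have hBc : ∀ x ∈ Bᶜ, c < u * ‖x‖ := by
    intro x hx
    rw [hB] at hx
    simpa [box] using hx
  have hsub : Bᶜ ⊆ {x : ℂ | T0 < ‖x‖} := by
    intro x hx
    have h1 := hBc x hx
    by_contra h
    have h2 : ‖x‖ ≤ T0 := not_lt.1 h
    have h3 : u * ‖x‖ ≤ u * T0 := mul_le_mul_of_nonneg_left h2 hu0
    linarith
  have hnorm : Integrable (fun x : ℂ => ‖x‖) μ := by
    refine Integrable.mono' (hμ.int2.add (integrable_const 1)) (by fun_prop)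
      (Filter.Eventually.of_forall fun x => ?_)
    simp only [norm_norm, Pi.add_apply]
    nlinarith [sq_nonneg (‖x‖ - 1), norm_nonneg x]
  have hid : Integrable (fun x : ℂ => x) μ := by
    refine ⟨by fun_prop, ?_⟩
    have := hnorm.2
    rwa [hasFiniteIntegral_norm_iff] at this
  set I := ∫ x in Bᶜ, ‖x‖ ^ 2 ∂μ with hI
  have hI0 : 0 ≤ I := setIntegral_nonneg hBm.compl fun x _ => by positivity
  have hIle : I ≤ min (κ * c ^ 2) (min (κ * c / 2) κ) := by
    refine le_trans ?_ hT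
    exact setIntegral_mono_set hμ.int2.integrableOn
      (Filter.Eventually.of_forall fun x => by positivity) hsub.eventuallyLE
  have hI1 : I ≤ κ * c ^ 2 := hIle.trans (min_le_left _ _)
  have hI2 : I ≤ κ * c / 2 := hIle.trans ((min_le_right _ _).trans (min_le_left _ _))
  have hI3 : I ≤ κ := hIle.trans ((min_le_right _ _).trans (min_le_right _ _))
  -- the measure of the complement
  have hm1 : c ^ 2 * μ.real Bᶜ ≤ u ^ 2 * I := by
    have h1 : ∫ x in Bᶜ, (c ^ 2 : ℝ) ∂μ ≤ ∫ x in Bᶜ, u ^ 2 * ‖x‖ ^ 2 ∂μ := by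
      apply setIntegral_mono_on (integrable_const _).integrableOn
        (hμ.int2.const_mul _).integrableOn hBm.compl
      intro x hx
      have := hBc x hx
      rw [← mul_pow]
      exact pow_le_pow_left₀ hc.le this.le 2
    rw [setIntegral_const, integral_const_mul, smul_eq_mul, mul_comm] at h1
    exact h1
  have hm2 : μ.real Bᶜ ≤ κ * u ^ 2 := by
    have h1 : c ^ 2 * μ.real Bᶜ ≤ c ^ 2 * (κ * u ^ 2) := by
      refine hm1.trans ?_
      calc u ^ 2 * I ≤ u ^ 2 * (κ * c ^ 2) := mul_le_mul_of_nonneg_left hI1 (by positivity)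
        _ = c ^ 2 * (κ * u ^ 2) := by ring
    exact le_of_mul_le_mul_left h1 (by positivity)
  have hκu : κ * u ^ 2 ≤ 1 / 2 := by
    have h1 : u ^ 2 ≤ 1 / 4 := by nlinarith
    nlinarith [sq_nonneg u]
  have hBr : 1 / 2 ≤ μ.real B := by
    have h1 := probReal_compl_eq_one_sub (μ := μ) hBm
    linarith
  have hBr1 : μ.real B ≤ 1 := measureReal_le_one
  have hBpos : 0 < μ.real B := by linarith
  have hB0 : μ B ≠ 0 := by
    intro h
    rw [measureReal_def, h] at hBpos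
    simp at hBpos
  have hprob : IsProbabilityMeasure (trunc μ u c) := by
    unfold trunc
    exact cond_isProbabilityMeasure hB0
  have hinv : ((μ B)⁻¹).toReal = (μ.real B)⁻¹ := by rw [ENNReal.toReal_inv, measureReal_def]
  have hinvle : (μ.real B)⁻¹ ≤ 2 := by
    rw [inv_le_comm₀ hBpos (by norm_num)]
    linarith
  have hinvge : 1 ≤ (μ.real B)⁻¹ := (one_le_inv₀ hBpos).2 hBr1
  have htr : trunc μ u c = (μ B)⁻¹ • μ.restrict B := rfl
  have hmean0 : (∫ x in B, x ∂μ) + ∫ x in Bᶜ, x ∂μ = 0 := by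
    rw [integral_add_compl hBm hid]
    exact hμ.mean
  have hvar0 : (∫ x in B, ‖x‖ ^ 2 ∂μ) + I = 1 := by
    rw [hI, integral_add_compl hBm hμ.int2]
    exact hμ.var
  have hnm : ‖∫ x in Bᶜ, x ∂μ‖ ≤ κ * u / 2 := by
    have h1 : ‖∫ x in Bᶜ, x ∂μ‖ ≤ ∫ x in Bᶜ, ‖x‖ ∂μ := norm_integral_le_integral_norm _
    have h2 : c * ∫ x in Bᶜ, ‖x‖ ∂μ ≤ u * I := by
      rw [hI, ← integral_const_mul, ← integral_const_mul]
      apply setIntegral_mono_on (hnorm.const_mul _).integrableOn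
        (hμ.int2.const_mul _).integrableOn hBm.compl
      intro x hx
      have := hBc x hx
      calc c * ‖x‖ ≤ (u * ‖x‖) * ‖x‖ := mul_le_mul_of_nonneg_right this.le (norm_nonneg _)
        _ = u * ‖x‖ ^ 2 := by ring
    have h3 : c * ∫ x in Bᶜ, ‖x‖ ∂μ ≤ c * (κ * u / 2) := by
      refine h2.trans ?_
      calc u * I ≤ u * (κ * c / 2) := mul_le_mul_of_nonneg_left hI2 hu0
        _ = c * (κ * u / 2) := by ring
    exact h1.trans (le_of_mul_le_mul_left h3 hc)
  refine ⟨hprob, ⟨?_, ?_, ?_, ?_, ?_⟩, ?_, hκu⟩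
  · rw [htr]
    exact (hμ.int2.integrableOn).smul_measure (ENNReal.inv_ne_top.2 hB0)
  · rw [htr]
    apply Measure.ae_smul_measure
    rw [ae_restrict_iff' hBm]
    exact Filter.Eventually.of_forall fun x hx => by
      rw [hB] at hx
      exact hx
  · rw [htr, integral_smul_measure, hinv, norm_smul, Real.norm_of_nonneg (by positivity)]
    have h1 : (∫ x in B, x ∂μ) = -∫ x in Bᶜ, x ∂μ := eq_neg_of_add_eq_zero_left hmean0
    rw [h1, norm_neg]
    calc (μ.real B)⁻¹ * ‖∫ x in Bᶜ, x ∂μ‖ ≤ 2 * (κ * u / 2) :=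
          mul_le_mul hinvle hnm (norm_nonneg _) (by norm_num)
      _ = κ * u := by ring
  · rw [htr, integral_smul_measure, hinv, smul_eq_mul]
    have h1 : (∫ x in B, ‖x‖ ^ 2 ∂μ) = 1 - I := by linarith
    rw [h1]
    have h2 : 0 ≤ 1 - I := by linarith
    nlinarith
  · rw [htr, integral_smul_measure, hinv, smul_eq_mul]
    have h1 : (∫ x in B, ‖x‖ ^ 2 ∂μ) = 1 - I := by linarith
    rw [h1]
    have h2 : 0 ≤ 1 - I := by linarith
    nlinarith
  · rw [← ofReal_measureReal]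
    exact ENNReal.ofReal_le_ofReal hm2

theorem trunc_arr {μ : Measure ℂ} [IsProbabilityMeasure μ]
    {U : Matrix (Fin n) (Fin n) ℝ} {δ : ℝ} (hU : Profile U δ) {c κ : ℝ} (hκ : 0 ≤ κ)
    (hprob : ∀ i j, IsProbabilityMeasure (trunc μ (U i j) c))
    (hbox : ∀ i j, μ (box (U i j) c)ᶜ ≤ ENNReal.ofReal (κ * U i j ^ 2))
    (hhalf : ∀ i j, κ * U i j ^ 2 ≤ 1 / 2)
    (f : (Fin n → Fin n → ℂ) → ENNReal) (_hf : Measurable f) :
    ∫⁻ x, f x ∂(arr2 fun i j => trunc μ (U i j) c) ≤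
      ENNReal.ofReal (Real.exp (n * (2 * κ))) * ∫⁻ x, f x ∂(arr μ n) := by
  -- one entry
  have h1 : ∀ i j, trunc μ (U i j) c ≤
      ENNReal.ofReal (Real.exp (2 * κ * U i j ^ 2)) • μ := by
    intro i j
    have hBm := trunc_box_meas (U i j) c
    set B := box (U i j) c with hB
    set q : ℝ := κ * U i j ^ 2 with hq
    have hq0 : 0 ≤ q := by positivity
    have hqh : q ≤ 1 / 2 := hhalf i j
    have h2 : μ.real B = 1 - μ.real Bᶜ := by
      have := probReal_compl_eq_one_sub (μ := μ) hBm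
      linarith
    have h3 : μ.real Bᶜ ≤ q := by
      rw [measureReal_def]
      refine (ENNReal.toReal_mono ENNReal.ofReal_ne_top (hbox i j)).trans ?_
      rw [ENNReal.toReal_ofReal hq0]
    have hBpos : 0 < μ.real B := by linarith
    have h5 : (μ.real B)⁻¹ ≤ Real.exp (2 * q) := by
      rw [inv_le_comm₀ hBpos (Real.exp_pos _)]
      have h6 : 1 + 2 * q ≤ Real.exp (2 * q) := by linarith [Real.add_one_le_exp (2 * q)]
      have h7 : (Real.exp (2 * q))⁻¹ ≤ (1 + 2 * q)⁻¹ := inv_anti₀ (by linarith) h6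
      have h8 : (1 + 2 * q)⁻¹ ≤ 1 - q := by
        rw [inv_le_iff_one_le_mul₀ (by linarith)]
        nlinarith
      linarith
    have h9 : (μ B)⁻¹ ≤ ENNReal.ofReal (Real.exp (2 * q)) := by
      rw [← ofReal_measureReal (μ := μ) (s := B), ← ENNReal.ofReal_inv_of_pos hBpos]
      exact ENNReal.ofReal_le_ofReal h5
    have e : 2 * κ * U i j ^ 2 = 2 * q := by rw [hq]; ring
    rw [e]
    have htr : trunc μ (U i j) c = (μ B)⁻¹ • μ.restrict B := rfl
    rw [htr, Measure.le_iff]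
    intro t _
    rw [Measure.smul_apply, Measure.smul_apply, smul_eq_mul, smul_eq_mul]
    exact mul_le_mul' h9 (Measure.restrict_apply_le B t)
  -- rows
  have h2 : ∀ i, Measure.pi (fun j => trunc μ (U i j) c) ≤
      (∏ j, ENNReal.ofReal (Real.exp (2 * κ * U i j ^ 2))) • Measure.pi (fun _ : Fin n => μ) := by
    intro i
    have := hprob i
    exact pi_le (fun _ : Fin n => μ) (fun j => trunc μ (U i j) c) _ (h1 i)
  have h3 : (arr2 fun i j => trunc μ (U i j) c) ≤
      (∏ i, ∏ j, ENNReal.ofReal (Real.exp (2 * κ * U i j ^ 2))) • arr μ n := by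
    unfold arr2 arr
    have hp : ∀ i, IsProbabilityMeasure (Measure.pi (fun j => trunc μ (U i j) c)) := by
      intro i
      have := hprob i
      infer_instance
    exact pi_le (fun _ : Fin n => Measure.pi (fun _ : Fin n => μ))
      (fun i => Measure.pi (fun j => trunc μ (U i j) c)) _ h2
  have h4 : ∏ i, ∏ j, ENNReal.ofReal (Real.exp (2 * κ * U i j ^ 2)) =
      ENNReal.ofReal (Real.exp (n * (2 * κ))) := by
    have h5 : ∀ i : Fin n, ∏ j, ENNReal.ofReal (Real.exp (2 * κ * U i j ^ 2)) =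
        ENNReal.ofReal (Real.exp (2 * κ)) := by
      intro i
      rw [← ENNReal.ofReal_prod_of_nonneg (fun j _ => (Real.exp_pos _).le), ← Real.exp_sum,
        ← Finset.mul_sum, hU.row i, mul_one]
    rw [Finset.prod_congr rfl fun i _ => h5 i, Finset.prod_const, Finset.card_univ,
      Fintype.card_fin, ← ENNReal.ofReal_pow (Real.exp_pos _).le, ← Real.exp_nat_mul]
  rw [← h4]
  calc ∫⁻ x, f x ∂(arr2 fun i j => trunc μ (U i j) c) ≤
      ∫⁻ x, f x ∂((∏ i, ∏ j, ENNReal.ofReal (Real.exp (2 * κ * U i j ^ 2))) • arr μ n) :=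
        lintegral_mono' h3 le_rfl
    _ = _ := by rw [lintegral_smul_measure, smul_eq_mul]

end Pool.Agent.Circ2
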