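import Pool.Agent.Lib.Circ2.CoreAbs
import Pool.Agent.Lib.Circ2.FixedZ2
import Pool.Agent.Lib.Circ2.Trunc
import Pool.Agent.Lib.Circ2.LinNeg2

/-!
# Module O2: convergence of the circle averages in L¹

Given `ε₀ > 0`. `Λ` from `exists_unifNeg`, `L = log Λ ≥ 1`, `R0 = ‖c‖ + r`. Choose in turn
`t` (`t < 1`, `t L ≤ 1`, `2 t L² ≤ ε₀/16`), `s = min (t ε₀/100) (1/4)`, `η = ρ = s/10`, the
truncation level `c₀ = s η²/8`, `κ = s` (`g = 2κ`), `δ₁` from `trunc_law`, and `δ = d²`,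
`d ≤ δ₁` small; then for all large `n` every `U n i j ≤ d`, and `core_abs` with
`fixed_z_upper2`, `fixed_z_lower2`, `log_D_dom` gives at most `ε₀`.
-/

set_option autoImplicit false

open MeasureTheory ProbabilityTheory Filter Matrix Finset

namespace Pool.Agent.Circ2

open Pool.Agent.Circ

theorem core2_norm_le {c z : ℂ} {r : ℝ} (hz : ‖z - c‖ = r) : ‖z‖ ≤ ‖c‖ + r := by
  have h : z = c + (z - c) := by ring
  calc ‖z‖ = ‖c + (z - c)‖ := by rw [← h]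
    _ ≤ ‖c‖ + ‖z - c‖ := norm_add_le _ _
    _ = ‖c‖ + r := by rw [hz]

/-- The size of `ω`. -/
theorem core2_omega {d η κ' : ℝ} (hd0 : 0 < d) (hη : 0 < η) (hη1 : η ≤ 1 / 40)
    (hd : d ≤ η ^ 2) (hκ : κ' = 2 * d + Real.exp 1 * η) :
    0 < κ' ∧ κ' ≤ 1 ∧ η + 2 * κ' + η + 2 * d ^ 2 / (η * κ') ≤ 10 * η := by
  have he := Real.exp_one_lt_d9
  have he1 := Real.exp_one_gt_d9
  have hd2 : d ≤ η / 40 := by nlinarith
  have hκη : η ≤ κ' := by rw [hκ]; nlinarith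
  have hκ3 : κ' ≤ 3 * η := by rw [hκ]; nlinarith
  have hκ0 : 0 < κ' := by linarith
  refine ⟨hκ0, by linarith, ?_⟩
  have h1 : 2 * d ^ 2 / (η * κ') ≤ η := by
    rw [div_le_iff₀ (by positivity)]
    have h2 : d ^ 2 ≤ (η / 40) * η ^ 2 := by
      rw [sq d]
      exact mul_le_mul hd2 hd hd0.le (by positivity)
    have h3 : η * (η * η) ≤ η * (η * κ') := by gcongr
    have h4 : 0 ≤ η ^ 3 := by positivity
    nlinarith
  linarith

/-- The size of the variance term. -/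
theorem core2_V {d η s R : ℝ} (hd0 : 0 < d) (hd1 : d ≤ 1) (hη : 0 < η) (hs0 : 0 < s)
    (hs1 : s ≤ 1 / 4) (hR : 0 ≤ R) (hd : d ≤ s * η ^ 4 / (32 * (2 + (1 + R) ^ 2))) :
    (16 * d ^ 2 * (2 + (1 + R) ^ 2) + 16 * (s * η ^ 2 / 8) ^ 2) / η ^ 4 ≤ s := by
  have hη4 : 0 < η ^ 4 := by positivity
  have hQ : 0 < 2 + (1 + R) ^ 2 := by positivity
  rw [div_le_iff₀ hη4]
  rw [le_div_iff₀ (by positivity)] at hd
  have h1 : d ^ 2 ≤ d := by nlinarith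
  have h2 : 16 * d ^ 2 * (2 + (1 + R) ^ 2) ≤ 16 * d * (2 + (1 + R) ^ 2) := by gcongr
  have h3 : 16 * (s * η ^ 2 / 8) ^ 2 = s ^ 2 * η ^ 4 / 4 := by ring
  have h4 : s ^ 2 * η ^ 4 ≤ s * η ^ 4 := by
    have : s ^ 2 ≤ s := by nlinarith
    gcongr
  rw [h3]
  nlinarith

theorem core2_fix {μ : Measure ℂ} [IsProbabilityMeasure μ] (hμ : Law2 μ) {Λ : ℝ}
    (hΛ : UnifNeg μ Λ) (U : ∀ n : ℕ, Matrix (Fin n) (Fin n) ℝ)
    (h0 : ∀ n i j, 0 ≤ U n i j) (hcol : ∀ n (j : Fin n), ∑ i, U n i j ^ 2 = 1)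
    (hrow : ∀ n (j : Fin n), ∑ i, U n j i ^ 2 = 1)
    (hsmall : ∀ δ : ℝ, 0 < δ → ∀ᶠ n in atTop, ∀ i j : Fin n, U n i j ≤ δ)
    (c : ℂ) {r : ℝ} (hr : 0 < r) {ε : ℝ} (hε : 0 < ε) :
    ∀ᶠ n : ℕ in atTop, ∫⁻ x, ENNReal.ofReal
      |(((Matrix.of fun i j => (U n i j : ℂ) * x i j).charpoly.roots.map
        (fun l => Real.log (max ‖l - c‖ r))).sum / (n : ℝ) -
        (1 / Real.pi) * ∫ w in Metric.closedBall (0 : ℂ) 1, Real.log (max ‖w - c‖ r))|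
      ∂(arr μ n) ≤ ENNReal.ofReal ε := by
  set L : ℝ := Real.log Λ with hL
  have hL1 : 1 ≤ L := by
    have h := Real.log_le_log (Real.exp_pos 1) hΛ.1
    rwa [Real.log_exp] at h
  have hL0 : 0 < L := by linarith
  obtain ⟨t, ht0, ht1, htL, htL2⟩ : ∃ t : ℝ, 0 < t ∧ t < 1 ∧ t * L ≤ 1 ∧
      2 * t * L ^ 2 ≤ ε / 16 := by
    refine ⟨min (1 / (2 * L)) (ε / (32 * L ^ 2)), by positivity, ?_, ?_, ?_⟩
    · refine (min_le_left _ _).trans_lt ?_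
      rw [div_lt_one (by positivity)]
      linarith
    · calc min (1 / (2 * L)) (ε / (32 * L ^ 2)) * L ≤ 1 / (2 * L) * L := by
            gcongr
            exact min_le_left _ _
        _ = 1 / 2 := by field_simp
        _ ≤ 1 := by norm_num
    · calc 2 * min (1 / (2 * L)) (ε / (32 * L ^ 2)) * L ^ 2 ≤ 2 * (ε / (32 * L ^ 2)) * L ^ 2 := by
            gcongr
            exact min_le_right _ _
        _ = ε / 16 := by field_simp; norm_num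
  obtain ⟨s, hs0, hs1, hs⟩ : ∃ s : ℝ, 0 < s ∧ s ≤ 1 / 4 ∧ s ≤ t * ε / 100 :=
    ⟨min (1 / 4) (t * ε / 100), by positivity, min_le_left _ _, min_le_right _ _⟩
  set R : ℝ := ‖c‖ + r with hR
  have hR0 : 0 ≤ R := by positivity
  set η : ℝ := s / 10 with hη
  have hη0 : 0 < η := by positivity
  have hη1 : η ≤ 1 / 40 := by rw [hη]; linarith
  set c0 : ℝ := s * η ^ 2 / 8 with hc0
  have hc00 : 0 < c0 := by positivity
  obtain ⟨δ1, hδ1, hT⟩ := trunc_law hμ hc00 hs0 (by linarith)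
  set m4 : ℝ := s * η ^ 4 / (32 * (2 + (1 + R) ^ 2)) with hm4
  have hm40 : 0 < m4 := by positivity
  obtain ⟨d, hd0, hdδ, hdη, hdm⟩ : ∃ d : ℝ, 0 < d ∧ d ≤ δ1 ∧ d ≤ η ^ 2 ∧ d ≤ m4 :=
    ⟨min δ1 (min (η ^ 2) m4), by positivity, min_le_left _ _,
      (min_le_right _ _).trans (min_le_left _ _), (min_le_right _ _).trans (min_le_right _ _)⟩
  have hd1 : d ≤ 1 := by nlinarith
  have hsq : Real.sqrt (d ^ 2) = d := Real.sqrt_sq hd0.le
  have hd20 : 0 ≤ d ^ 2 := by positivity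
  have hd21 : d ^ 2 ≤ 1 := pow_le_one₀ hd0.le hd1
  have hη11 : η ≤ 1 := by linarith
  obtain ⟨κ', hκ'⟩ : ∃ κ' : ℝ, κ' = 2 * Real.sqrt (d ^ 2) + Real.exp 1 * η := ⟨_, rfl⟩
  obtain ⟨hκ0, hκ1, hω10⟩ := core2_omega (κ' := κ') hd0 hη0 hη1 hdη (by rw [hκ', hsq])
  obtain ⟨ω, hω⟩ : ∃ ω : ℝ, ω = η + 2 * κ' + η + 2 * d ^ 2 / (η * κ') := ⟨_, rfl⟩
  have hω0 : 0 ≤ ω := by rw [hω]; positivity
  have hωs : ω ≤ s := by
    rw [hω]
    refine hω10.trans (le_of_eq ?_)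
    rw [hη]; ring
  have hV := core2_V hd0 hd1 hη0 hs0 hs1 hR0 hdm
  rw [← hc0] at hV
  set V : ℝ := (16 * d ^ 2 * (2 + (1 + R) ^ 2) + 16 * c0 ^ 2) / η ^ 4 with hVdef
  have hV0 : 0 ≤ V := by rw [hVdef]; positivity
  set E : ℝ := (8 * s + 7 * V + 3 * (2 * s) + 2 * ω + 2 * (t * L) ^ 2) / t with hE
  have hE0 : 0 ≤ E := by rw [hE]; positivity
  have hEε : E + 2 * ω ≤ ε / 2 := by
    have h1 : E ≤ 23 * (ε / 100) + ε / 16 := by
      rw [hE, div_le_iff₀ ht0]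
      have h2 : 2 * (t * L) ^ 2 = t * (2 * t * L ^ 2) := by ring
      have h3 : t * (2 * t * L ^ 2) ≤ t * (ε / 16) := by gcongr
      rw [h2]
      nlinarith
    have h2 : s ≤ ε / 100 := by
      refine hs.trans ?_
      have : t * ε ≤ 1 * ε := by gcongr
      linarith
    linarith
  filter_upwards [hsmall d hd0, eventually_ge_atTop 1,
    (tendsto_natCast_atTop_atTop (R := ℝ)).eventually_ge_atTop (4 / ε)] with n hUd hn1 hnε
  have hn0 : 0 < n := hn1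
  have hnR : (0 : ℝ) < n := by exact_mod_cast hn0
  have hU : Profile (U n) (d ^ 2) :=
    ⟨h0 n, hrow n, hcol n, fun i j => pow_le_pow_left₀ (h0 n i j) (hUd i j) 2⟩
  have hTr : ∀ i j : Fin n, IsProbabilityMeasure (trunc μ (U n i j) c0) ∧
      LawT (trunc μ (U n i j) c0) (U n i j) c0 s ∧
      μ (box (U n i j) c0)ᶜ ≤ ENNReal.ofReal (s * U n i j ^ 2) ∧ s * U n i j ^ 2 ≤ 1 / 2 :=
    fun i j => hT _ (h0 n i j) ((hUd i j).trans hdδ)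
  have hprob : IsProbabilityMeasure (arr μ n) := by unfold arr; infer_instance
  have hle : E + 2 * ω + 2 / n ≤ ε := by
    have h1 : 2 / (n : ℝ) ≤ ε / 2 := by
      rw [div_le_iff₀ hnR]
      rw [div_le_iff₀ hε] at hnε
      linarith
    linarith
  refine (core_abs hn0 (U n) c hr hη0 hω0 hE0 ?_ ?_ ?_).trans (ENNReal.ofReal_le_ofReal hle)
  · intro z _
    exact fixed_z_upper2 hμ hU hd20 hd21 hη0 hη0 hη11 hκ' hκ1 hω z
  · intro τ hτ hτη z hz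
    have hzR : ‖z‖ ≤ R := core2_norm_le hz
    have hVz : (16 * d ^ 2 * (2 + (1 + ‖z‖) ^ 2) + 16 * c0 ^ 2) / η ^ 4 ≤ V := by
      rw [hVdef]
      gcongr
    have hVz1 : (16 * d ^ 2 * (2 + (1 + ‖z‖) ^ 2) + 16 * c0 ^ 2) / η ^ 4 ≤ 1 := by linarith
    have h1 := fixed_z_lower2 hμ hΛ hU hd20 hd21 hη0 hη0 hη11
      hκ' hκ1 hω z (fun i j => trunc μ (U n i j) c0) (fun i j => (hTr i j).1) (c := c0) (κ := s)
      (g := 2 * s) hc00.le hs0 hs1 (by positivity) (fun i j => (hTr i j).2.1)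
      (fun f hf => trunc_arr hU hs0.le (fun i j => (hTr i j).1) (fun i j => (hTr i j).2.2.1)
        (fun i j => (hTr i j).2.2.2) f hf) hVz1 ht0 ht1 htL hτ hτη
    refine le_trans ?_ h1
    have h2 : (8 * s + 7 * ((16 * d ^ 2 * (2 + (1 + ‖z‖) ^ 2) + 16 * c0 ^ 2) / η ^ 4) +
        3 * (2 * s) + 2 * ω + 2 * (t * Real.log Λ) ^ 2) / t ≤ E := by
      rw [hE]
      gcongr
    gcongr
  · intro τ hτ
    obtain ⟨G, hG, hG1⟩ := log_D_dom hμ hU hτ R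
    exact ⟨G, hG, fun z hz x => hG1 z (core2_norm_le hz) x⟩

theorem core2 {μ : Measure ℂ} [IsProbabilityMeasure μ] (hμ : Law2 μ) {K α : ℝ}
    (hK : LawNeg μ K α) (U : ∀ n : ℕ, Matrix (Fin n) (Fin n) ℝ)
    (h0 : ∀ n i j, 0 ≤ U n i j) (hcol : ∀ n (j : Fin n), ∑ i, U n i j ^ 2 = 1)
    (hrow : ∀ n (j : Fin n), ∑ i, U n j i ^ 2 = 1)
    (hsmall : ∀ δ : ℝ, 0 < δ → ∀ᶠ n in atTop, ∀ i j : Fin n, U n i j ≤ δ)
    (c : ℂ) {r : ℝ} (hr : 0 < r) :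
    Tendsto (fun n : ℕ => ∫⁻ x, ENNReal.ofReal
      |(((Matrix.of fun i j => (U n i j : ℂ) * x i j).charpoly.roots.map
        (fun l => Real.log (max ‖l - c‖ r))).sum / (n : ℝ) -
        (1 / Real.pi) * ∫ w in Metric.closedBall (0 : ℂ) 1, Real.log (max ‖w - c‖ r))|
      ∂(arr μ n)) atTop (nhds 0) := by
  obtain ⟨Λ, hΛ⟩ := exists_unifNeg hμ hK
  rw [ENNReal.tendsto_nhds_zero]
  intro ε hε
  obtain ⟨ε0, hε0, hlt⟩ := ENNReal.lt_iff_exists_nnreal_btwn.1 hε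
  have hpos : (0 : ℝ) < ε0 := by exact_mod_cast hε0
  filter_upwards [core2_fix hμ hΛ U h0 hcol hrow hsmall c hr hpos] with n hn
  refine hn.trans ?_
  rw [ENNReal.ofReal_coe_nnreal]
  exact hlt.le

end Pool.Agent.Circ2
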