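import Pool.Agent.Lib.Circ.Circle
import Pool.Agent.Lib.Circ.CirclePsi

/-!
# Module O1: the passage from fixed points to circle averages, abstract form (helper29)
-/

set_option autoImplicit false

open MeasureTheory ProbabilityTheory Filter Matrix Finset

namespace Pool.Agent.Circ2

open Pool.Agent.Circ

variable {n : ℕ}

theorem ca_amat_eq (U : Matrix (Fin n) (Fin n) ℝ) (z : ℂ) (x : Fin n → Fin n → ℂ) :
    Amat U z x = (Matrix.of fun i j => (U i j : ℂ) * x i j) -
      z • (1 : Matrix (Fin n) (Fin n) ℂ) := by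
  ext i j
  simp only [Amat, Matrix.of_apply, Matrix.sub_apply, Matrix.smul_apply, Matrix.one_apply,
    smul_eq_mul]
  by_cases h : i = j
  · subst h; simp
  · simp [h, Ne.symm h]

/-- joint continuity -/
theorem ca_cont {α : Type*} [TopologicalSpace α] (U : Matrix (Fin n) (Fin n) ℝ) (τ : ℝ)
    {z : α → ℂ} (hz : Continuous z) {x : α → Fin n → Fin n → ℂ} (hx : Continuous x) :
    Continuous (fun q : α => D τ (Amat U (z q) (x q))) := by
  refine circ_cont (f := fun _ : α => τ) continuous_const ?_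
  refine continuous_matrix fun i j => ?_
  simp only [Amat, Matrix.of_apply]
  by_cases h : j = i
  · simp only [h, if_true]
    fun_prop
  · simp only [h, if_false]
    fun_prop

theorem ca_cont_log {α : Type*} [TopologicalSpace α] (U : Matrix (Fin n) (Fin n) ℝ) {τ : ℝ}
    (hτ : 0 < τ) {z : α → ℂ} (hz : Continuous z) {x : α → Fin n → Fin n → ℂ}
    (hx : Continuous x) :
    Continuous (fun q : α => Real.log (D τ (Amat U (z q) (x q)))) :=
  (ca_cont U τ hz hx).log (fun q => (D_pos hτ _).ne')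

/-- the circle average of the regularised logarithm -/
noncomputable def caT (U : Matrix (Fin n) (Fin n) ℝ) (c : ℂ) (r τ : ℝ)
    (x : Fin n → Fin n → ℂ) : ℝ :=
  (2 * Real.pi)⁻¹ * ∫ θ in Set.Ioc 0 (2 * Real.pi),
    Real.log (D τ (Amat U (circleMap c r θ) x))

theorem caT_eq (U : Matrix (Fin n) (Fin n) ℝ) (c : ℂ) (r τ : ℝ) (x : Fin n → Fin n → ℂ) :
    caT U c r τ x = Real.circleAverage (fun z => Real.log (D τ
      ((Matrix.of fun i j => (U i j : ℂ) * x i j) - z • (1 : Matrix (Fin n) (Fin n) ℂ)))) c r := by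
  rw [Real.circleAverage_def, intervalIntegral.integral_of_le (by positivity), smul_eq_mul, caT]
  simp only [ca_amat_eq]

theorem caT_measurable (U : Matrix (Fin n) (Fin n) ℝ) (c : ℂ) (r : ℝ) {τ : ℝ} (hτ : 0 < τ) :
    Measurable (caT U c r τ) := by
  have h : Continuous (fun q : (Fin n → Fin n → ℂ) × ℝ =>
      Real.log (D τ (Amat U (circleMap c r q.2) q.1))) :=
    ca_cont_log U hτ ((continuous_circleMap c r).comp continuous_snd) continuous_fst
  have h2 := h.measurable.stronglyMeasurable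
  have h3 := StronglyMeasurable.integral_prod_right'
    (ν := (volume : Measure ℝ).restrict (Set.Ioc 0 (2 * Real.pi))) h2
  exact (h3.measurable.const_mul _)

theorem ca_slice_int (U : Matrix (Fin n) (Fin n) ℝ) (c : ℂ) (r : ℝ) {τ : ℝ} (hτ : 0 < τ)
    (x : Fin n → Fin n → ℂ) :
    IntegrableOn (fun θ : ℝ => Real.log (D τ (Amat U (circleMap c r θ) x)))
      (Set.Ioc 0 (2 * Real.pi)) := by
  have h : Continuous (fun θ : ℝ => Real.log (D τ (Amat U (circleMap c r θ) x))) :=
    ca_cont_log U hτ (continuous_circleMap c r) (x := fun _ => x) continuous_const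
  exact (h.continuousOn.integrableOn_compact isCompact_Icc).mono_set Set.Ioc_subset_Icc_self

theorem caT_mono (U : Matrix (Fin n) (Fin n) ℝ) (c : ℂ) (r : ℝ) {τ η : ℝ} (hτ : 0 < τ)
    (h : τ ≤ η) (x : Fin n → Fin n → ℂ) : caT U c r τ x ≤ caT U c r η x := by
  unfold caT
  refine mul_le_mul_of_nonneg_left ?_ (by positivity)
  refine integral_mono (ca_slice_int U c r hτ x) (ca_slice_int U c r (hτ.trans_le h) x) ?_
  intro θ
  exact Real.log_le_log (D_pos hτ _) (D_mono hτ.le h _)

theorem ca_norm (c : ℂ) {r : ℝ} (hr : 0 < r) (θ : ℝ) : ‖circleMap c r θ - c‖ = r := by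
  simp [circleMap_sub_center, abs_of_pos hr]

theorem ca_psi_cont (c : ℂ) (r : ℝ) : Continuous (fun θ : ℝ => psi (‖circleMap c r θ‖ ^ 2)) :=
  psi_continuous.comp (((continuous_circleMap c r).norm).pow 2)

/-- Fubini and the lower bound. -/
theorem caT_lower {A : Measure (Fin n → Fin n → ℂ)} [IsProbabilityMeasure A]
    (U : Matrix (Fin n) (Fin n) ℝ) (c : ℂ) {r : ℝ} (hr : 0 < r) {τ : ℝ} (hτ : 0 < τ)
    {E : ℝ} (G : (Fin n → Fin n → ℂ) → ℝ) (hG : Integrable G A)
    (hdom : ∀ z : ℂ, ‖z - c‖ = r → ∀ x, |Real.log (D τ (Amat U z x))| ≤ G x)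
    (hlo : ∀ z : ℂ, ‖z - c‖ = r → n * (psi (‖z‖ ^ 2) - E) ≤
      ∫ x, Real.log (D τ (Amat U z x)) ∂A) :
    Integrable (caT U c r τ) A ∧
      n * (2 * ((1 / Real.pi) * ∫ w in Metric.closedBall (0 : ℂ) 1,
        Real.log (max ‖w - c‖ r)) - E) ≤ ∫ x, caT U c r τ x ∂A := by
  have hpi : 0 < 2 * Real.pi := by positivity
  set ν : Measure ℝ := (volume : Measure ℝ).restrict (Set.Ioc 0 (2 * Real.pi)) with hν
  have hmass : ν.real Set.univ = 2 * Real.pi := by
    rw [hν, measureReal_restrict_apply_univ, Real.volume_real_Ioc_of_le hpi.le, sub_zero]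
  have hfin : IsFiniteMeasure ν := by
    rw [hν]
    infer_instance
  have hcont : Continuous (fun q : ℝ × (Fin n → Fin n → ℂ) =>
      Real.log (D τ (Amat U (circleMap c r q.1) q.2))) :=
    ca_cont_log U hτ ((continuous_circleMap c r).comp continuous_fst) continuous_snd
  have hint : Integrable (Function.uncurry fun (θ : ℝ) (x : Fin n → Fin n → ℂ) =>
      Real.log (D τ (Amat U (circleMap c r θ) x))) (ν.prod A) := by
    have hG2 : Integrable (fun q : ℝ × (Fin n → Fin n → ℂ) => G q.2) (ν.prod A) :=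
      hG.comp_snd ν
    refine hG2.mono' hcont.aestronglyMeasurable ?_
    exact Filter.Eventually.of_forall fun q => hdom _ (ca_norm c hr q.1) q.2
  have hswap := integral_integral_swap hint
  have hsw : ∫ x, caT U c r τ x ∂A =
      (2 * Real.pi)⁻¹ * ∫ θ, ∫ x, Real.log (D τ (Amat U (circleMap c r θ) x)) ∂A ∂ν := by
    rw [hswap, ← integral_const_mul]
    rfl
  have hTint : Integrable (caT U c r τ) A := by
    have h := hint.integral_prod_right
    exact h.const_mul _
  refine ⟨hTint, ?_⟩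
  rw [hsw]
  have hpsi := circle_psi c hr
  rw [Real.circleAverage_def, intervalIntegral.integral_of_le hpi.le, smul_eq_mul] at hpsi
  rw [← hpsi]
  have hIp : Integrable (fun θ : ℝ => psi (‖circleMap c r θ‖ ^ 2)) ν :=
    ((ca_psi_cont c r).continuousOn.integrableOn_compact isCompact_Icc).mono_set
      Set.Ioc_subset_Icc_self
  have hmono : ∫ θ, n * (psi (‖circleMap c r θ‖ ^ 2) - E) ∂ν ≤
      ∫ θ, ∫ x, Real.log (D τ (Amat U (circleMap c r θ) x)) ∂A ∂ν := by
    refine integral_mono ?_ hint.integral_prod_left ?_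
    · exact (hIp.sub (integrable_const _)).const_mul _
    · intro θ
      exact hlo _ (ca_norm c hr θ)
  have hcalc : ∫ θ, n * (psi (‖circleMap c r θ‖ ^ 2) - E) ∂ν =
      n * (∫ θ, psi (‖circleMap c r θ‖ ^ 2) ∂ν - 2 * Real.pi * E) := by
    rw [integral_const_mul, integral_sub hIp (integrable_const _), integral_const, hmass,
      smul_eq_mul]
  rw [hcalc] at hmono
  set I := ∫ θ, psi (‖circleMap c r θ‖ ^ 2) ∂ν with hI
  set J := ∫ θ, ∫ x, Real.log (D τ (Amat U (circleMap c r θ) x)) ∂A ∂ν with hJ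
  have h1 : (2 * Real.pi)⁻¹ * (n * (I - 2 * Real.pi * E)) ≤ (2 * Real.pi)⁻¹ * J :=
    mul_le_mul_of_nonneg_left hmono (by positivity)
  refine le_trans (le_of_eq ?_) h1
  have hpi' := Real.pi_ne_zero
  field_simp

/-- The upper tail at scale `η`. -/
theorem caT_upper {A : Measure (Fin n → Fin n → ℂ)} [IsProbabilityMeasure A]
    (U : Matrix (Fin n) (Fin n) ℝ) (c : ℂ) {r : ℝ} (hr : 0 < r) {η : ℝ} (hη : 0 < η) {ω : ℝ}
    (hup : ∀ z : ℂ, ‖z - c‖ = r → ∫⁻ x, ENNReal.ofReal (D η (Amat U z x)) ∂A ≤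
      ENNReal.ofReal (Real.exp (n * (psi (‖z‖ ^ 2) + ω)))) :
    ∫⁻ x, ENNReal.ofReal (caT U c r η x - n * (2 * ((1 / Real.pi) *
      ∫ w in Metric.closedBall (0 : ℂ) 1, Real.log (max ‖w - c‖ r)) + ω)) ∂A ≤ 1 := by
  have hpi : 0 < 2 * Real.pi := by positivity
  set ν : Measure ℝ := (volume : Measure ℝ).restrict (Set.Ioc 0 (2 * Real.pi)) with hν
  have hfin : IsFiniteMeasure ν := by
    rw [hν]
    infer_instance
  have hmass : ν Set.univ = ENNReal.ofReal (2 * Real.pi) := by
    rw [hν, Measure.restrict_apply_univ, Real.volume_Ioc, sub_zero]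
  have hmassr : ν.real Set.univ = 2 * Real.pi := by
    rw [hν, measureReal_restrict_apply_univ, Real.volume_real_Ioc_of_le hpi.le, sub_zero]
  have hpsi := circle_psi c hr
  rw [Real.circleAverage_def, intervalIntegral.integral_of_le hpi.le, smul_eq_mul] at hpsi
  have hIp : Integrable (fun θ : ℝ => psi (‖circleMap c r θ‖ ^ 2)) ν :=
    ((ca_psi_cont c r).continuousOn.integrableOn_compact isCompact_Icc).mono_set
      Set.Ioc_subset_Icc_self
  have hIp2 : Integrable (fun θ : ℝ => n * (psi (‖circleMap c r θ‖ ^ 2) + ω)) ν :=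
    (hIp.add (integrable_const _)).const_mul _
  have hcalc : ∫ θ, n * (psi (‖circleMap c r θ‖ ^ 2) + ω) ∂ν =
      n * (∫ θ, psi (‖circleMap c r θ‖ ^ 2) ∂ν + 2 * Real.pi * ω) := by
    rw [integral_const_mul, integral_add hIp (integrable_const _), integral_const, hmassr,
      smul_eq_mul]
  have hcD : ∀ x : Fin n → Fin n → ℂ, Continuous (fun θ : ℝ =>
      D η (Amat U (circleMap c r θ) x)) := fun x =>
    ca_cont U η (continuous_circleMap c r) (x := fun _ => x) continuous_const
  -- pointwise bound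
  have hpt : ∀ x, ENNReal.ofReal (caT U c r η x - n * (2 * ((1 / Real.pi) *
      ∫ w in Metric.closedBall (0 : ℂ) 1, Real.log (max ‖w - c‖ r)) + ω)) ≤
      ENNReal.ofReal ((2 * Real.pi)⁻¹) * ∫⁻ θ, ENNReal.ofReal (
        D η (Amat U (circleMap c r θ) x) *
          Real.exp (-(n * (psi (‖circleMap c r θ‖ ^ 2) + ω)))) ∂ν := by
    intro x
    have hI := ca_slice_int U c r hη x
    have e1 : caT U c r η x - n * (2 * ((1 / Real.pi) *
        ∫ w in Metric.closedBall (0 : ℂ) 1, Real.log (max ‖w - c‖ r)) + ω) =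
        (2 * Real.pi)⁻¹ * ∫ θ, (Real.log (D η (Amat U (circleMap c r θ) x)) -
          n * (psi (‖circleMap c r θ‖ ^ 2) + ω)) ∂ν := by
      have e2 : ∫ θ, (Real.log (D η (Amat U (circleMap c r θ) x)) -
          n * (psi (‖circleMap c r θ‖ ^ 2) + ω)) ∂ν =
          ∫ θ, Real.log (D η (Amat U (circleMap c r θ) x)) ∂ν -
          ∫ θ, n * (psi (‖circleMap c r θ‖ ^ 2) + ω) ∂ν := integral_sub hI hIp2
      rw [e2, hcalc, ← hpsi, caT]
      set I := ∫ θ in Set.Ioc 0 (2 * Real.pi), psi (‖circleMap c r θ‖ ^ 2) with hII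
      have hpi' := Real.pi_ne_zero
      field_simp
      ring
    rw [e1, ENNReal.ofReal_mul (by positivity)]
    refine mul_le_mul' le_rfl ?_
    have hc1 : Continuous (fun θ : ℝ => D η (Amat U (circleMap c r θ) x) *
        Real.exp (-(n * (psi (‖circleMap c r θ‖ ^ 2) + ω)))) :=
      (hcD x).mul (Real.continuous_exp.comp
        ((continuous_const.mul ((ca_psi_cont c r).add continuous_const)).neg))
    have hc1i : Integrable (fun θ : ℝ => D η (Amat U (circleMap c r θ) x) *
        Real.exp (-(n * (psi (‖circleMap c r θ‖ ^ 2) + ω)))) ν :=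
      (hc1.continuousOn.integrableOn_compact isCompact_Icc).mono_set Set.Ioc_subset_Icc_self
    have h2 : ∫ θ, (Real.log (D η (Amat U (circleMap c r θ) x)) -
          n * (psi (‖circleMap c r θ‖ ^ 2) + ω)) ∂ν ≤
        ∫ θ, D η (Amat U (circleMap c r θ) x) *
          Real.exp (-(n * (psi (‖circleMap c r θ‖ ^ 2) + ω))) ∂ν := by
      refine integral_mono (hI.sub hIp2) hc1i ?_
      intro θ
      have hD := D_pos hη (Amat U (circleMap c r θ) x)
      have e2 : ∀ u : ℝ, D η (Amat U (circleMap c r θ) x) * Real.exp (-u) =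
          Real.exp (Real.log (D η (Amat U (circleMap c r θ) x)) - u) := by
        intro u
        rw [sub_eq_add_neg, Real.exp_add, Real.exp_log hD]
      change Real.log (D η (Amat U (circleMap c r θ) x)) -
          n * (psi (‖circleMap c r θ‖ ^ 2) + ω) ≤
        D η (Amat U (circleMap c r θ) x) *
          Real.exp (-(n * (psi (‖circleMap c r θ‖ ^ 2) + ω)))
      rw [e2]
      linarith [Real.add_one_le_exp (Real.log (D η (Amat U (circleMap c r θ) x)) -
        n * (psi (‖circleMap c r θ‖ ^ 2) + ω))]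
    refine (ENNReal.ofReal_le_ofReal h2).trans (le_of_eq ?_)
    refine ofReal_integral_eq_lintegral_ofReal hc1i (Filter.Eventually.of_forall fun θ => ?_)
    exact mul_nonneg (D_nonneg _ _) (Real.exp_pos _).le
  refine (lintegral_mono hpt).trans ?_
  rw [lintegral_const_mul' _ _ ENNReal.ofReal_ne_top]
  have hmeas : Measurable (Function.uncurry fun (x : Fin n → Fin n → ℂ) (θ : ℝ) =>
      ENNReal.ofReal (D η (Amat U (circleMap c r θ) x) *
          Real.exp (-(n * (psi (‖circleMap c r θ‖ ^ 2) + ω))))) := by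
    refine Measurable.ennreal_ofReal ?_
    have hA : Continuous (fun q : (Fin n → Fin n → ℂ) × ℝ =>
        D η (Amat U (circleMap c r q.2) q.1)) :=
      ca_cont U η ((continuous_circleMap c r).comp continuous_snd) continuous_fst
    have hB : Continuous (fun q : (Fin n → Fin n → ℂ) × ℝ =>
        Real.exp (-(n * (psi (‖circleMap c r q.2‖ ^ 2) + ω)))) :=
      Real.continuous_exp.comp ((continuous_const.mul (((ca_psi_cont c r).comp
        continuous_snd).add continuous_const)).neg)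
    exact hA.measurable.mul hB.measurable
  rw [lintegral_lintegral_swap hmeas.aemeasurable]
  have hin : ∀ θ : ℝ, ∫⁻ x, ENNReal.ofReal (D η (Amat U (circleMap c r θ) x) *
      Real.exp (-(n * (psi (‖circleMap c r θ‖ ^ 2) + ω)))) ∂A ≤ 1 := by
    intro θ
    have h3 : ∀ x, ENNReal.ofReal (D η (Amat U (circleMap c r θ) x) *
        Real.exp (-(n * (psi (‖circleMap c r θ‖ ^ 2) + ω)))) =
        ENNReal.ofReal (D η (Amat U (circleMap c r θ) x)) *
        ENNReal.ofReal (Real.exp (-(n * (psi (‖circleMap c r θ‖ ^ 2) + ω)))) := fun x =>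
      ENNReal.ofReal_mul (D_nonneg _ _)
    simp only [h3]
    rw [lintegral_mul_const' _ _ ENNReal.ofReal_ne_top]
    refine (mul_le_mul' (hup _ (ca_norm c hr θ)) le_rfl).trans ?_
    rw [← ENNReal.ofReal_mul (Real.exp_pos _).le, ← Real.exp_add]
    simp
  refine (mul_le_mul' le_rfl (lintegral_mono hin)).trans ?_
  rw [lintegral_const, one_mul, hmass, ← ENNReal.ofReal_mul (by positivity)]
  rw [inv_mul_cancel₀ hpi.ne']
  simp

theorem ca_abs_int {A : Measure (Fin n → Fin n → ℂ)} [IsProbabilityMeasure A]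
    {V : (Fin n → Fin n → ℂ) → ℝ} (hV : Integrable V A)
    (h1 : ∫⁻ x, ENNReal.ofReal (V x) ∂A ≤ 1) :
    ∫ x, V x ∂A ≤ 1 ∧
    ∫⁻ x, ENNReal.ofReal |V x| ∂A ≤ ENNReal.ofReal (2 - ∫ x, V x ∂A) := by
  have hp : Integrable (fun x => max (V x) 0) A := hV.pos_part
  have e1 : ∫ x, |V x| ∂A = 2 * ∫ x, max (V x) 0 ∂A - ∫ x, V x ∂A := by
    rw [← integral_const_mul, ← integral_sub (hp.const_mul 2) hV]
    refine integral_congr_ae (Filter.Eventually.of_forall fun x => ?_)
    rcases le_total 0 (V x) with h | h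
    · simp only [abs_of_nonneg h, max_eq_left h]
      ring
    · simp only [abs_of_nonpos h, max_eq_right h]
      ring
  have e2 : ∫ x, max (V x) 0 ∂A ≤ 1 := by
    have h3 : ENNReal.ofReal (∫ x, max (V x) 0 ∂A) ≤ ENNReal.ofReal 1 := by
      rw [ofReal_integral_eq_lintegral_ofReal hp
        (Filter.Eventually.of_forall fun x => le_max_right _ _), ENNReal.ofReal_one]
      refine le_trans (le_of_eq (lintegral_congr fun x => ?_)) h1
      rcases le_total 0 (V x) with h | h
      · rw [max_eq_left h]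
      · rw [max_eq_right h, ENNReal.ofReal_of_nonpos h, ENNReal.ofReal_zero]
    exact (ENNReal.ofReal_le_ofReal_iff zero_le_one).mp h3
  refine ⟨(integral_mono hV hp fun x => le_max_left _ _).trans e2, ?_⟩
  rw [← ofReal_integral_eq_lintegral_ofReal hV.abs
    (Filter.Eventually.of_forall fun x => abs_nonneg _), e1]
  exact ENNReal.ofReal_le_ofReal (by linarith)

theorem core_abs {n : ℕ} {A : Measure (Fin n → Fin n → ℂ)} [IsProbabilityMeasure A] (hn : 0 < n)
    (U : Matrix (Fin n) (Fin n) ℝ) (c : ℂ) {r : ℝ} (hr : 0 < r) {η ω E : ℝ} (hη : 0 < η)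
    (hω : 0 ≤ ω) (hE : 0 ≤ E)
    (hup : ∀ z : ℂ, ‖z - c‖ = r → ∫⁻ x, ENNReal.ofReal (D η (Amat U z x)) ∂A ≤
      ENNReal.ofReal (Real.exp (n * (psi (‖z‖ ^ 2) + ω))))
    (hlo : ∀ τ : ℝ, 0 < τ → τ ≤ η → ∀ z : ℂ, ‖z - c‖ = r → n * (psi (‖z‖ ^ 2) - E) ≤
      ∫ x, Real.log (D τ (Amat U z x)) ∂A)
    (hdom : ∀ τ : ℝ, 0 < τ → ∃ G : (Fin n → Fin n → ℂ) → ℝ, Integrable G A ∧
      ∀ z : ℂ, ‖z - c‖ = r → ∀ x, |Real.log (D τ (Amat U z x))| ≤ G x) :
    ∫⁻ x, ENNReal.ofReal |(((Matrix.of fun i j => (U i j : ℂ) * x i j).charpoly.roots.map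
        (fun l => Real.log (max ‖l - c‖ r))).sum / (n : ℝ) -
        (1 / Real.pi) * ∫ w in Metric.closedBall (0 : ℂ) 1, Real.log (max ‖w - c‖ r))| ∂A ≤
      ENNReal.ofReal (E + 2 * ω + 2 / n) := by
  have hn' : (0 : ℝ) < n := by exact_mod_cast hn
  set Ψ : ℝ := (1 / Real.pi) * ∫ w in Metric.closedBall (0 : ℂ) 1, Real.log (max ‖w - c‖ r)
    with hΨ
  set S : (Fin n → Fin n → ℂ) → ℝ := fun x =>
    ((Matrix.of fun i j => (U i j : ℂ) * x i j).charpoly.roots.map
        (fun l => Real.log (max ‖l - c‖ r))).sum with hS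
  set τ : ℕ → ℝ := fun k => η / (k + 1) with hτdef
  have hτ0 : ∀ k, 0 < τ k := fun k => by simp only [hτdef]; positivity
  have hτη : ∀ k, τ k ≤ η := by
    intro k
    simp only [hτdef]
    rw [div_le_iff₀ (by positivity)]
    nlinarith [(Nat.cast_nonneg k : (0 : ℝ) ≤ k)]
  have hτt : Tendsto τ atTop (nhdsWithin 0 (Set.Ioi 0)) := by
    refine tendsto_nhdsWithin_iff.mpr ⟨?_, Filter.Eventually.of_forall fun k => hτ0 k⟩
    have h := (tendsto_one_div_add_atTop_nhds_zero_nat (𝕜 := ℝ)).const_mul η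
    rw [mul_zero] at h
    refine h.congr fun k => ?_
    simp only [hτdef]
    ring
  have hlim : ∀ x, Tendsto (fun k => caT U c r (τ k) x) atTop (nhds (2 * S x)) := by
    intro x
    have h := (circle_tendsto (Matrix.of fun i j => (U i j : ℂ) * x i j) c hr).comp hτt
    refine h.congr fun k => ?_
    simp only [Function.comp_apply]
    rw [caT_eq]
  have hk : ∀ k, Integrable (caT U c r (τ k)) A ∧
      n * (2 * Ψ - E) ≤ ∫ x, caT U c r (τ k) x ∂A := by
    intro k
    obtain ⟨G, hG, hGd⟩ := hdom (τ k) (hτ0 k)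
    exact caT_lower U c hr (hτ0 k) G hG hGd (hlo (τ k) (hτ0 k) (hτη k))
  have hηI' : Integrable (caT U c r η) A ∧ n * (2 * Ψ - E) ≤ ∫ x, caT U c r η x ∂A := by
    obtain ⟨G, hG, hGd⟩ := hdom η hη
    exact caT_lower U c hr hη G hG hGd (hlo η hη le_rfl)
  obtain ⟨hηI, hηM⟩ := hηI'
  have hup1 := caT_upper U c hr hη hup
  rw [← hΨ] at hup1
  set M : ℝ := ∫ x, caT U c r η x ∂A with hM
  set V : (Fin n → Fin n → ℂ) → ℝ := fun x => caT U c r η x - n * (2 * Ψ + ω) with hV
  have hVI : Integrable V A := hηI.sub (integrable_const _)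
  have hVint : ∫ x, V x ∂A = M - n * (2 * Ψ + ω) := by
    simp only [hV]
    rw [integral_sub hηI (integrable_const _), integral_const]
    simp [hM]
  obtain ⟨hV1, hVabs⟩ := ca_abs_int hVI hup1
  rw [hVint] at hVabs hV1
  -- the limit
  have hSle : ∀ x, 2 * S x ≤ caT U c r η x := fun x =>
    le_of_tendsto (hlim x) (Filter.Eventually.of_forall fun k => caT_mono U c r (hτ0 k) (hτη k) x)
  have hW : ∫⁻ x, ENNReal.ofReal (caT U c r η x - 2 * S x) ∂A ≤
      ENNReal.ofReal (M - n * (2 * Ψ - E)) := by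
    have hlim2 : ∀ x, Tendsto (fun k => ENNReal.ofReal (caT U c r η x - caT U c r (τ k) x)) atTop
        (nhds (ENNReal.ofReal (caT U c r η x - 2 * S x))) := fun x =>
      ENNReal.tendsto_ofReal (tendsto_const_nhds.sub (hlim x))
    have hF := lintegral_liminf_le (μ := A) (u := (atTop : Filter ℕ))
      (f := fun k x => ENNReal.ofReal (caT U c r η x - caT U c r (τ k) x))
      (fun k => ((caT_measurable U c r hη).sub (caT_measurable U c r (hτ0 k))).ennreal_ofReal)
    have e1 : ∀ x, liminf (fun k => ENNReal.ofReal (caT U c r η x - caT U c r (τ k) x)) atTop =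
        ENNReal.ofReal (caT U c r η x - 2 * S x) := fun x => (hlim2 x).liminf_eq
    simp only [e1] at hF
    refine hF.trans ?_
    refine liminf_le_of_le (by isBoundedDefault) ?_
    intro b hb
    obtain ⟨k, hk2⟩ := hb.exists
    refine hk2.trans ?_
    have hsubI : Integrable (fun x => caT U c r η x - caT U c r (τ k) x) A := hηI.sub (hk k).1
    rw [← ofReal_integral_eq_lintegral_ofReal hsubI
      (Filter.Eventually.of_forall fun x => sub_nonneg.mpr (caT_mono U c r (hτ0 k) (hτη k) x))]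
    refine ENNReal.ofReal_le_ofReal ?_
    have e2 : ∫ x, (caT U c r η x - caT U c r (τ k) x) ∂A =
        M - ∫ x, caT U c r (τ k) x ∂A := integral_sub hηI (hk k).1
    rw [e2]
    linarith [(hk k).2]
  -- conclusion
  have hpt : ∀ x, ENNReal.ofReal |S x / (n : ℝ) - Ψ| ≤ ENNReal.ofReal (1 / (2 * n)) *
      (ENNReal.ofReal |V x| + (ENNReal.ofReal (n * ω) +
        ENNReal.ofReal (caT U c r η x - 2 * S x))) := by
    intro x
    rw [← ENNReal.ofReal_add (by positivity) (sub_nonneg.mpr (hSle x)),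
      ← ENNReal.ofReal_add (abs_nonneg _)
        (add_nonneg (by positivity) (sub_nonneg.mpr (hSle x))),
      ← ENNReal.ofReal_mul (by positivity)]
    refine ENNReal.ofReal_le_ofReal ?_
    have e1 : S x / (n : ℝ) - Ψ = 1 / (2 * n) * (V x + n * ω - (caT U c r η x - 2 * S x)) := by
      simp only [hV]
      field_simp
      ring
    rw [e1, abs_mul, abs_of_nonneg (by positivity : (0 : ℝ) ≤ 1 / (2 * n))]
    refine mul_le_mul_of_nonneg_left ?_ (by positivity)
    have h1 := abs_sub (V x + n * ω) (caT U c r η x - 2 * S x)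
    have h2 := abs_add_le (V x) (n * ω)
    rw [abs_of_nonneg (sub_nonneg.mpr (hSle x))] at h1
    rw [abs_of_nonneg (by positivity : (0 : ℝ) ≤ n * ω)] at h2
    linarith
  refine (lintegral_mono hpt).trans ?_
  have hVm : Measurable fun x => ENNReal.ofReal |V x| := by
    have h := (caT_measurable U c r hη).sub_const (n * (2 * Ψ + ω))
    exact (measurable_norm.comp h).ennreal_ofReal
  rw [lintegral_const_mul' _ _ ENNReal.ofReal_ne_top, lintegral_add_left hVm,
    lintegral_add_left measurable_const, lintegral_const, measure_univ, mul_one]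
  refine (mul_le_mul' le_rfl (add_le_add hVabs (add_le_add le_rfl hW))).trans ?_
  rw [← ENNReal.ofReal_add (by positivity) (by linarith),
    ← ENNReal.ofReal_add (by linarith) (add_nonneg (by positivity) (by linarith)),
    ← ENNReal.ofReal_mul (by positivity)]
  refine ENNReal.ofReal_le_ofReal ?_
  have e3 : 1 / (2 * (n : ℝ)) * (2 - (M - n * (2 * Ψ + ω)) + (n * ω + (M - n * (2 * Ψ - E)))) =
      1 / n + ω + E / 2 := by
    field_simp
    ring
  rw [e3]
  have e4 : (1 : ℝ) / n ≤ 2 / n := by gcongr; norm_num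
  linarith

end Pool.Agent.Circ2
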