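import Pool.Agent.Lib.Circ.Defs

/-!
# Circular law for doubly stochastic variance profiles, second version: definitions
-/

set_option autoImplicit false

open MeasureTheory ProbabilityTheory Filter Matrix Finset

namespace Pool.Agent.Circ2

open Pool.Agent.Circ

/-- Centred law with unit variance. -/
structure Law2 (μ : Measure ℂ) : Prop where
  int2 : Integrable (fun x : ℂ => ‖x‖ ^ 2) μ
  mean : ∫ x, x ∂μ = 0
  var : ∫ x, ‖x‖ ^ 2 ∂μ = 1

/-- Truncated law of an entry with coefficient `u`. -/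
structure LawT (ν : Measure ℂ) (u c κ : ℝ) : Prop where
  int2 : Integrable (fun x : ℂ => ‖x‖ ^ 2) ν
  bound : ∀ᵐ x ∂ν, u * ‖x‖ ≤ c
  mean : ‖∫ x, x ∂ν‖ ≤ κ * u
  lo : 1 - κ ≤ ∫ x, ‖x‖ ^ 2 ∂ν
  hi : ∫ x, ‖x‖ ^ 2 ∂ν ≤ 2

/-- Uniform bound for small negative moments of all affine forms. -/
def UnifNeg (μ : Measure ℂ) (Λ : ℝ) : Prop :=
  Real.exp 1 ≤ Λ ∧ ∀ (n : ℕ) (c : Fin n → ℂ) (b : ℂ) (s2 : ℝ), 0 < s2 →
    s2 = ∑ k, ‖c k‖ ^ 2 + ‖b‖ ^ 2 → ∀ β : ℝ, 0 ≤ β → β * Real.log Λ ≤ 1 →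
    ∫⁻ x, ‖∑ k, c k * x k - b‖ₑ ^ (-2 * β) ∂(Measure.pi fun _ : Fin n => μ) ≤
      ENNReal.ofReal (Λ ^ β * s2 ^ (-β))

/-- The law of an array with independent entries. -/
noncomputable def arr2 {n : ℕ} (ν : Fin n → Fin n → Measure ℂ) :
    Measure (Fin n → Fin n → ℂ) :=
  Measure.pi (fun i : Fin n => Measure.pi (fun j : Fin n => ν i j))

/-- The truncation set of an entry with coefficient `u`. -/
def box (u c : ℝ) : Set ℂ := {x | u * ‖x‖ ≤ c}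

/-- The truncated law. -/
noncomputable def trunc (μ : Measure ℂ) (u c : ℝ) : Measure ℂ := ProbabilityTheory.cond μ (box u c)

end Pool.Agent.Circ2
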