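import Mathlib

/-!
# Module S1: Esseen's inequality

With `k y = ∫ u in -1..1, (1 - |u|) cos (u y)` one has `k y = 2 (1 - cos y) / y²` for `y ≠ 0`, so
`k ≥ 0` everywhere and `k y ≥ 1/2` for `|y| ≤ 1` (for the latter `cos (u y) ≥ 1 - (u y)²/2 ≥ 1/2`
suffices). Hence `P (|Y - b| ≤ 1/a) ≤ 2 E k (a (Y - b))`, and by Fubini
`E k (a (Y - b)) = ∫ u in -1..1, (1 - |u|) E cos (a u (Y - b))`, where
`|E cos (a u (Y - b))| ≤ ‖E exp (i a u Y)‖`.
-/

set_option autoImplicit false

open MeasureTheory ProbabilityTheory Filter Finset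

namespace Pool.Agent.Circ2

/-- the Fejer kernel -/
noncomputable def S1_k (y : ℝ) : ℝ := ∫ u in (-1 : ℝ)..1, (1 - |u|) * Real.cos (u * y)

theorem S1_k_split (y : ℝ) : S1_k y = (∫ u in (-1 : ℝ)..0, (1 + u) * Real.cos (u * y)) +
    ∫ u in (0 : ℝ)..1, (1 - u) * Real.cos (u * y) := by
  have hc : Continuous (fun u : ℝ => (1 - |u|) * Real.cos (u * y)) := by fun_prop
  unfold S1_k
  rw [← intervalIntegral.integral_add_adjacent_intervals (b := 0) (hc.intervalIntegrable _ _)
    (hc.intervalIntegrable _ _)]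
  congr 1
  · apply intervalIntegral.integral_congr
    intro u hu
    rw [Set.uIcc_of_le (by norm_num)] at hu
    simp only
    rw [abs_of_nonpos hu.2, sub_neg_eq_add]
  · apply intervalIntegral.integral_congr
    intro u hu
    rw [Set.uIcc_of_le (by norm_num)] at hu
    simp only
    rw [abs_of_nonneg hu.1]

theorem S1_k_formula (y : ℝ) (hy : y ≠ 0) : S1_k y = 2 * (1 - Real.cos y) / y ^ 2 := by
  have h1 : ∫ u in (-1 : ℝ)..0, (1 + u) * Real.cos (u * y) = (1 - Real.cos y) / y ^ 2 := by
    rw [intervalIntegral.integral_eq_sub_of_hasDerivAt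
      (f := fun u => (1 + u) * Real.sin (u * y) / y + Real.cos (u * y) / y ^ 2)
      (f' := fun u => (1 + u) * Real.cos (u * y))]
    · simp
      ring
    · intro u _
      have h2 : HasDerivAt (fun u : ℝ => u * y) y u := by simpa using (hasDerivAt_id u).mul_const y
      have h3 := h2.sin
      have h4 := h2.cos
      have h5 : HasDerivAt (fun u : ℝ => 1 + u) 1 u := (hasDerivAt_id u).const_add 1
      have h6 := ((h5.mul h3).div_const y).add (h4.div_const (y ^ 2))
      refine h6.congr_deriv ?_
      field_simp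
      ring
    · apply Continuous.intervalIntegrable
      fun_prop
  have h2 : ∫ u in (0 : ℝ)..1, (1 - u) * Real.cos (u * y) = (1 - Real.cos y) / y ^ 2 := by
    rw [intervalIntegral.integral_eq_sub_of_hasDerivAt
      (f := fun u => (1 - u) * Real.sin (u * y) / y - Real.cos (u * y) / y ^ 2)
      (f' := fun u => (1 - u) * Real.cos (u * y))]
    · simp
      ring
    · intro u _
      have h2 : HasDerivAt (fun u : ℝ => u * y) y u := by simpa using (hasDerivAt_id u).mul_const y
      have h3 := h2.sin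
      have h4 := h2.cos
      have h5 : HasDerivAt (fun u : ℝ => 1 - u) (-1) u := (hasDerivAt_id u).const_sub 1
      have h6 := ((h5.mul h3).div_const y).sub (h4.div_const (y ^ 2))
      refine h6.congr_deriv ?_
      field_simp
      ring
    · apply Continuous.intervalIntegrable
      fun_prop
  rw [S1_k_split, h1, h2]
  ring

theorem S1_int : ∫ u in (-1 : ℝ)..1, (1 - |u|) = 1 := by
  have hc : Continuous (fun u : ℝ => (1 - |u|)) := by fun_prop
  rw [← intervalIntegral.integral_add_adjacent_intervals (b := 0) (hc.intervalIntegrable _ _)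
    (hc.intervalIntegrable _ _)]
  have h1 : ∫ u in (-1 : ℝ)..0, (1 - |u|) = ∫ u in (-1 : ℝ)..0, (1 + u) := by
    apply intervalIntegral.integral_congr
    intro u hu
    rw [Set.uIcc_of_le (by norm_num)] at hu
    simp only
    rw [abs_of_nonpos hu.2, sub_neg_eq_add]
  have h2 : ∫ u in (0 : ℝ)..1, (1 - |u|) = ∫ u in (0 : ℝ)..1, (1 - u) := by
    apply intervalIntegral.integral_congr
    intro u hu
    rw [Set.uIcc_of_le (by norm_num)] at hu
    simp only
    rw [abs_of_nonneg hu.1]
  rw [h1, h2, intervalIntegral.integral_add (by simp) (by simp),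
    intervalIntegral.integral_sub (by simp) (by simp)]
  simp
  norm_num

theorem S1_k_nonneg (y : ℝ) : 0 ≤ S1_k y := by
  by_cases hy : y = 0
  · subst hy
    unfold S1_k
    simp only [mul_zero, Real.cos_zero, mul_one]
    rw [S1_int]
    norm_num
  · rw [S1_k_formula y hy]
    have := Real.cos_le_one y
    apply div_nonneg _ (sq_nonneg y)
    linarith

theorem S1_k_half (y : ℝ) (hy : |y| ≤ 1) : 1 / 2 ≤ S1_k y := by
  have h1 : ∫ u in (-1 : ℝ)..1, (1 - |u|) * (1 / 2) ≤ S1_k y := by
    unfold S1_k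
    apply intervalIntegral.integral_mono_on (by norm_num)
    · apply Continuous.intervalIntegrable
      fun_prop
    · apply Continuous.intervalIntegrable
      fun_prop
    · intro u hu
      have hu1 : |u| ≤ 1 := abs_le.2 hu
      apply mul_le_mul_of_nonneg_left _ (by linarith)
      have h2 := Real.one_sub_sq_div_two_le_cos (x := u * y)
      have h3 : (u * y) ^ 2 ≤ 1 := by
        rw [← sq_abs, abs_mul]
        have h4 : |u| * |y| ≤ 1 := mul_le_one₀ hu1 (abs_nonneg _) hy
        have h5 : 0 ≤ |u| * |y| := by positivity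
        nlinarith
      linarith
  rw [intervalIntegral.integral_mul_const, S1_int] at h1
  linarith

theorem esseen {Ω : Type} [MeasurableSpace Ω] (P : Measure Ω) [IsProbabilityMeasure P]
    (Y : Ω → ℝ) (hY : Measurable Y) (b : ℝ) {a : ℝ} (ha : 0 < a) :
    (P {ω | |Y ω - b| ≤ 1 / a}).toReal ≤
      2 * ∫ u in (-1 : ℝ)..1,
        ‖∫ ω, Complex.exp (((a * u * Y ω : ℝ) : ℂ) * Complex.I) ∂P‖ := by
  set μ : Measure ℝ := volume.restrict (Set.Ioc (-1 : ℝ) 1) with hμ
  have hfin : IsFiniteMeasure μ := by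
    rw [hμ]
    infer_instance
  set F : Ω → ℝ → ℝ := fun ω u => (1 - |u|) * Real.cos (u * (a * (Y ω - b))) with hF
  have hFm : Measurable (Function.uncurry F) := by
    have h1 : Measurable (fun p : Ω × ℝ => Y p.1) := hY.comp measurable_fst
    simp only [hF, Function.uncurry_def]
    fun_prop
  have hFi : Integrable (Function.uncurry F) (P.prod μ) := by
    have h1 : Integrable (fun u : ℝ => 1 - |u|) μ := by
      have hc : Continuous (fun u : ℝ => 1 - |u|) := by fun_prop
      exact hc.integrableOn_Ioc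
    have h2 : Integrable (fun p : Ω × ℝ => 1 - |p.2|) (P.prod μ) := h1.comp_snd P
    refine h2.mono hFm.aestronglyMeasurable (Eventually.of_forall fun p => ?_)
    simp only [Function.uncurry_def, hF, norm_mul]
    have := Real.abs_cos_le_one (p.2 * (a * (Y p.1 - b)))
    rw [Real.norm_eq_abs, Real.norm_eq_abs]
    have h3 := abs_nonneg (1 - |p.2|)
    nlinarith
  have hswap := integral_integral_swap hFi
  have hk : ∀ ω, ∫ u, F ω u ∂μ = S1_k (a * (Y ω - b)) := by
    intro ω
    rw [hμ, ← intervalIntegral.integral_of_le (by norm_num)]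
    rfl
  have hki : Integrable (fun ω => S1_k (a * (Y ω - b))) P := by
    have := hFi.integral_prod_left
    simp only [Function.uncurry_def] at this
    refine this.congr (Eventually.of_forall fun ω => ?_)
    exact hk ω
  -- lower bound
  have hms : MeasurableSet {ω | |Y ω - b| ≤ 1 / a} := by
    apply measurableSet_le _ measurable_const
    fun_prop
  have hlow : (P {ω | |Y ω - b| ≤ 1 / a}).toReal * (1 / 2) ≤ ∫ ω, S1_k (a * (Y ω - b)) ∂P := by
    have h1 : ∫ ω, Set.indicator {ω | |Y ω - b| ≤ 1 / a} (fun _ => (1 / 2 : ℝ)) ω ∂P =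
        (P {ω | |Y ω - b| ≤ 1 / a}).toReal * (1 / 2) := by
      rw [integral_indicator_const _ hms]
      rfl
    rw [← h1]
    apply integral_mono _ hki
    · intro ω
      by_cases hω : ω ∈ {ω | |Y ω - b| ≤ 1 / a}
      · rw [Set.indicator_of_mem hω]
        apply S1_k_half
        rw [abs_mul, abs_of_pos ha]
        have : |Y ω - b| ≤ 1 / a := hω
        calc a * |Y ω - b| ≤ a * (1 / a) := mul_le_mul_of_nonneg_left this ha.le
          _ = 1 := by field_simp
      · rw [Set.indicator_of_notMem hω]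
        exact S1_k_nonneg _
    · exact (integrable_const _).indicator hms
  -- the upper bound
  have hGm : Measurable (fun p : Ω × ℝ => Complex.exp (((a * p.2 * Y p.1 : ℝ) : ℂ) * Complex.I)) := by
    have h1 : Measurable (fun p : Ω × ℝ => Y p.1) := hY.comp measurable_fst
    fun_prop
  have hGi : Integrable (fun p : Ω × ℝ => Complex.exp (((a * p.2 * Y p.1 : ℝ) : ℂ) * Complex.I))
      (P.prod μ) := by
    refine (integrable_const (1 : ℝ)).mono hGm.aestronglyMeasurable
      (Eventually.of_forall fun p => ?_)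
    rw [Complex.norm_exp_ofReal_mul_I]
    simp
  have hGi2 : Integrable (fun u : ℝ =>
      ‖∫ ω, Complex.exp (((a * u * Y ω : ℝ) : ℂ) * Complex.I) ∂P‖) μ :=
    hGi.integral_prod_right.norm
  have hinner : ∀ u ∈ Set.Ioc (-1 : ℝ) 1, ∫ ω, F ω u ∂P ≤
      ‖∫ ω, Complex.exp (((a * u * Y ω : ℝ) : ℂ) * Complex.I) ∂P‖ := by
    intro u hu
    have hu1 : |u| ≤ 1 := abs_le.2 ⟨hu.1.le, hu.2⟩
    have hei : Integrable (fun ω => Complex.exp (((a * u * Y ω : ℝ) : ℂ) * Complex.I)) P := by
      refine (integrable_const (1 : ℝ)).mono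
        (Measurable.aestronglyMeasurable (by fun_prop)) (Eventually.of_forall fun p => ?_)
      rw [Complex.norm_exp_ofReal_mul_I]
      simp
    have h1 : ∫ ω, Real.cos (u * (a * (Y ω - b))) ∂P =
        (Complex.exp (((-(a * u * b) : ℝ) : ℂ) * Complex.I) *
          ∫ ω, Complex.exp (((a * u * Y ω : ℝ) : ℂ) * Complex.I) ∂P).re := by
      rw [← integral_const_mul]
      have h2 := integral_re (𝕜 := ℂ) (hei.const_mul
        (Complex.exp (((-(a * u * b) : ℝ) : ℂ) * Complex.I)))
      simp only [RCLike.re_eq_complex_re] at h2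
      rw [← h2]
      congr 1
      funext ω
      rw [← Complex.exp_add, ← add_mul, ← Complex.ofReal_add, Complex.exp_ofReal_mul_I_re]
      congr 1
      ring
    have h3 : ∫ ω, F ω u ∂P = (1 - |u|) * ∫ ω, Real.cos (u * (a * (Y ω - b))) ∂P := by
      rw [← integral_const_mul]
    rw [h3, h1]
    set Z := ∫ ω, Complex.exp (((a * u * Y ω : ℝ) : ℂ) * Complex.I) ∂P with hZ
    have h4 : |(Complex.exp (((-(a * u * b) : ℝ) : ℂ) * Complex.I) * Z).re| ≤ ‖Z‖ := by
      refine (Complex.abs_re_le_norm _).trans ?_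
      rw [norm_mul, Complex.norm_exp_ofReal_mul_I, one_mul]
    have h5 := le_abs_self ((Complex.exp (((-(a * u * b) : ℝ) : ℂ) * Complex.I) * Z).re)
    have h6 : (1 - |u|) * (Complex.exp (((-(a * u * b) : ℝ) : ℂ) * Complex.I) * Z).re ≤
        (1 - |u|) * ‖Z‖ := mul_le_mul_of_nonneg_left (h5.trans h4) (by linarith)
    have h7 := norm_nonneg Z
    have h8 := abs_nonneg u
    nlinarith
  have hup : ∫ ω, S1_k (a * (Y ω - b)) ∂P ≤ ∫ u in (-1 : ℝ)..1,
        ‖∫ ω, Complex.exp (((a * u * Y ω : ℝ) : ℂ) * Complex.I) ∂P‖ := by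
    have h1 : ∫ ω, S1_k (a * (Y ω - b)) ∂P = ∫ u, ∫ ω, F ω u ∂P ∂μ := by
      rw [← hswap]
      congr 1
      funext ω
      exact (hk ω).symm
    rw [h1, intervalIntegral.integral_of_le (by norm_num)]
    apply integral_mono_ae _ hGi2
    · rw [hμ]
      filter_upwards [ae_restrict_mem measurableSet_Ioc] with u hu
      exact hinner u hu
    · have := hFi.integral_prod_right
      simpa only [Function.uncurry_def] using this
  linarith

end Pool.Agent.Circ2
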