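import Pool.Agent.Lib.Circ2.Defs2
import Pool.Agent.Lib.Circ2.Esseen

/-!
# Module S2: the Kolmogorov-Rogozin bound at scales above the largest coefficient

Let `x, x'` be independent with law `μ`, `E ‖x - x'‖² = 2`; choose `M ≥ 1` with
`E ‖x - x'‖² 1(‖x - x'‖ ≤ M) ≥ 1`. Let `σ² = Σ ‖c k‖²`. As `(Re w)² + (Im w)² = ‖w‖²`, for
`θ = 1` or `θ = -i` one has `Σ_k E (Re (θ c_k (x-x')))² 1(‖x-x'‖ ≤ M) ≥ σ²/2`. Let
`Y x = Re (θ Σ c_k x_k)`. For `|v| ‖c k‖ M ≤ 1` (all `k`)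
`‖E exp (i v Re (θ c_k x))‖² = E cos (v Re (θ c_k (x-x'))) ≤ 1 - (v²/4) E (Re ..)² 1(..)
≤ exp (-(v²/4) ..)` (`1 - cos y ≥ y²/4` for `|y| ≤ 1`), and
`E exp (i v Y) = ∏_k E exp (i v Re (θ c_k x))` (`integral_fintype_prod_eq_prod`), so
`‖E exp (i v Y)‖ ≤ exp (-v² σ²/16)` for `|v| ≤ 1/(M r)`. Apply `esseen` with `a = 1/(M r)` and
the Gaussian integral: the probability is at most `8 √π M r / σ`.
-/

set_option autoImplicit false

open MeasureTheory ProbabilityTheory Filter Matrix Finset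

namespace Pool.Agent.Circ2

open Pool.Agent.Circ

theorem sb_int {μ : Measure ℂ} [IsProbabilityMeasure μ] (hμ : Law2 μ) :
    Integrable (fun p : ℂ × ℂ => ‖p.1 - p.2‖ ^ 2) (μ.prod μ) := by
  have h1 : Integrable (fun p : ℂ × ℂ => ‖p.1‖ ^ 2) (μ.prod μ) := hμ.int2.comp_fst μ
  have h2 : Integrable (fun p : ℂ × ℂ => ‖p.2‖ ^ 2) (μ.prod μ) := hμ.int2.comp_snd μ
  have h3 : Measurable fun p : ℂ × ℂ => ‖p.1 - p.2‖ ^ 2 := by fun_prop
  refine ((h1.const_mul 2).add (h2.const_mul 2)).mono' h3.aestronglyMeasurable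
    (ae_of_all _ fun p => ?_)
  rw [Real.norm_eq_abs, abs_of_nonneg (by positivity)]
  have h4 := norm_sub_le p.1 p.2
  have h0 := norm_nonneg (p.1 - p.2)
  simp only [Pi.add_apply]
  nlinarith [sq_nonneg (‖p.1‖ - ‖p.2‖)]

theorem sb_int1 {μ : Measure ℂ} [IsProbabilityMeasure μ] (hμ : Law2 μ) :
    Integrable (fun x : ℂ => x) μ := by
  refine ((integrable_const (1 : ℝ)).add hμ.int2).mono' measurable_id.aestronglyMeasurable
    (ae_of_all _ fun x => ?_)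
  simp only [Pi.add_apply]
  nlinarith [sq_nonneg (‖x‖ - 1)]

theorem sb_two {μ : Measure ℂ} [IsProbabilityMeasure μ] (hμ : Law2 μ) :
    ∫ p : ℂ × ℂ, ‖p.1 - p.2‖ ^ 2 ∂(μ.prod μ) = 2 := by
  rw [integral_prod _ (sb_int hμ)]
  have h : ∀ x : ℂ, ∫ y, ‖x - y‖ ^ 2 ∂μ = ‖x‖ ^ 2 + 1 := by
    intro x
    have i1 : Integrable (fun y : ℂ => 2 * inner ℝ x y) μ :=
      ((sb_int1 hμ).const_inner x).const_mul 2
    have e0 : ∫ y : ℂ, inner ℝ x y ∂μ = inner ℝ x (∫ y, y ∂μ) := integral_inner (sb_int1 hμ) x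
    rw [hμ.mean, inner_zero_right] at e0
    have e1 : ∫ y : ℂ, ‖x - y‖ ^ 2 ∂μ =
        ∫ y : ℂ, ((‖x‖ ^ 2 - 2 * inner ℝ x y) + ‖y‖ ^ 2) ∂μ :=
      integral_congr_ae (ae_of_all _ fun y => norm_sub_sq_real x y)
    have e2 : ∫ y : ℂ, ((‖x‖ ^ 2 - 2 * inner ℝ x y) + ‖y‖ ^ 2) ∂μ =
        ∫ y : ℂ, (‖x‖ ^ 2 - 2 * inner ℝ x y) ∂μ + ∫ y : ℂ, ‖y‖ ^ 2 ∂μ :=
      integral_add ((integrable_const _).sub i1) hμ.int2
    have e3 : ∫ y : ℂ, (‖x‖ ^ 2 - 2 * inner ℝ x y) ∂μ =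
        ∫ _y : ℂ, ‖x‖ ^ 2 ∂μ - ∫ y : ℂ, 2 * inner ℝ x y ∂μ :=
      integral_sub (integrable_const _) i1
    rw [e1, e2, e3, integral_const_mul, e0, hμ.var]
    simp
  have e1 : ∫ x : ℂ, ∫ y : ℂ, ‖x - y‖ ^ 2 ∂μ ∂μ = ∫ x : ℂ, (‖x‖ ^ 2 + 1) ∂μ :=
    integral_congr_ae (ae_of_all _ h)
  have e2 : ∫ x : ℂ, (‖x‖ ^ 2 + 1) ∂μ = ∫ x : ℂ, ‖x‖ ^ 2 ∂μ + ∫ _x : ℂ, (1 : ℝ) ∂μ :=
    integral_add hμ.int2 (integrable_const _)
  rw [e1, e2, hμ.var]
  simp
  norm_num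

/-- The set where the two copies are at distance at most `M`. -/
def sbS (M : ℝ) : Set (ℂ × ℂ) := {p | ‖p.1 - p.2‖ ≤ M}

theorem sbS_meas (M : ℝ) : MeasurableSet (sbS M) := by
  unfold sbS
  exact measurableSet_le (by fun_prop) measurable_const

theorem sb_exists_M {μ : Measure ℂ} [IsProbabilityMeasure μ] (hμ : Law2 μ) :
    ∃ M : ℝ, 1 ≤ M ∧ 1 ≤ ∫ p in sbS M, ‖p.1 - p.2‖ ^ 2 ∂(μ.prod μ) := by
  have hU : (⋃ n : ℕ, sbS n) = Set.univ := by
    rw [Set.eq_univ_iff_forall]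
    intro p
    obtain ⟨n, hn⟩ := exists_nat_ge ‖p.1 - p.2‖
    exact Set.mem_iUnion.2 ⟨n, hn⟩
  have h1 := tendsto_setIntegral_of_monotone (μ := μ.prod μ)
    (f := fun p : ℂ × ℂ => ‖p.1 - p.2‖ ^ 2) (s := fun n : ℕ => sbS n)
    (fun n => sbS_meas _) (fun m n hmn p hp => le_trans (show ‖p.1 - p.2‖ ≤ m from hp)
      (Nat.cast_le.2 hmn)) (by rw [hU]; exact (sb_int hμ).integrableOn)
  rw [hU, setIntegral_univ, sb_two hμ] at h1
  have h2 := (h1.eventually (lt_mem_nhds (show (1 : ℝ) < 2 by norm_num))).and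
    (eventually_ge_atTop 1)
  obtain ⟨n, h3, h4⟩ := h2.exists
  exact ⟨n, by exact_mod_cast h4, h3.le⟩

theorem sb_cos {y : ℝ} (hy : |y| ≤ 1) : Real.cos y ≤ 1 - y ^ 2 / 4 := by
  have h1 := (abs_le.1 (Real.cos_bound hy)).2
  have h2 : |y| ^ 4 ≤ y ^ 2 := by
    have h3 : |y| ^ 4 = y ^ 2 * |y| ^ 2 := by
      rw [show |y| ^ 4 = |y| ^ 2 * |y| ^ 2 by ring, sq_abs]
    rw [h3]
    have h4 : |y| ^ 2 ≤ 1 := pow_le_one₀ (abs_nonneg y) hy
    nlinarith [sq_nonneg y]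
  nlinarith [sq_nonneg y]

theorem sb_char {μ : Measure ℂ} [IsProbabilityMeasure μ] (hμ : Law2 μ) (d : ℂ) (v M : ℝ)
    (hv : |v| * ‖d‖ * M ≤ 1) :
    ‖∫ x, Complex.exp (((v * (d * x).re : ℝ) : ℂ) * Complex.I) ∂μ‖ ≤
      Real.exp (-(v ^ 2 / 8) * ∫ p in sbS M, ((d * (p.1 - p.2)).re) ^ 2 ∂(μ.prod μ)) := by
  set e : ℂ → ℂ := fun x => Complex.exp (((v * (d * x).re : ℝ) : ℂ) * Complex.I) with he
  set J := ∫ p in sbS M, ((d * (p.1 - p.2)).re) ^ 2 ∂(μ.prod μ) with hJ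
  have hem : Measurable e := by
    rw [he]
    fun_prop
  have h2 : ∀ p : ℂ × ℂ, e p.1 * (starRingEnd ℂ) (e p.2) =
      Complex.exp (((v * (d * (p.1 - p.2)).re : ℝ) : ℂ) * Complex.I) := by
    intro p
    simp only [he]
    rw [← Complex.exp_conj, ← Complex.exp_add]
    congr 1
    simp only [map_mul, Complex.conj_ofReal, Complex.conj_I]
    rw [mul_sub, Complex.sub_re]
    push_cast
    ring
  have h1 : (∫ x, e x ∂μ) * (starRingEnd ℂ) (∫ x, e x ∂μ) =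
      ∫ p : ℂ × ℂ, Complex.exp (((v * (d * (p.1 - p.2)).re : ℝ) : ℂ) * Complex.I)
        ∂(μ.prod μ) := by
    rw [← integral_conj, ← integral_prod_mul e (fun y => (starRingEnd ℂ) (e y))]
    exact integral_congr_ae (ae_of_all _ h2)
  have hEm : Measurable fun p : ℂ × ℂ =>
      Complex.exp (((v * (d * (p.1 - p.2)).re : ℝ) : ℂ) * Complex.I) := by fun_prop
  have hEi : Integrable (fun p : ℂ × ℂ =>
      Complex.exp (((v * (d * (p.1 - p.2)).re : ℝ) : ℂ) * Complex.I)) (μ.prod μ) := by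
    refine (integrable_const (1 : ℝ)).mono' hEm.aestronglyMeasurable (ae_of_all _ fun p => ?_)
    rw [Complex.norm_exp_ofReal_mul_I]
  have h3 : ‖∫ x, e x ∂μ‖ ^ 2 =
      ∫ p : ℂ × ℂ, Real.cos (v * (d * (p.1 - p.2)).re) ∂(μ.prod μ) := by
    have h4 := congrArg Complex.re h1
    rw [Complex.mul_conj'] at h4
    have h5 : ∫ p : ℂ × ℂ, RCLike.re
        (Complex.exp (((v * (d * (p.1 - p.2)).re : ℝ) : ℂ) * Complex.I)) ∂(μ.prod μ) =
        RCLike.re (∫ p : ℂ × ℂ,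
          Complex.exp (((v * (d * (p.1 - p.2)).re : ℝ) : ℂ) * Complex.I) ∂(μ.prod μ)) :=
      integral_re hEi
    have h6 : (((‖∫ x, e x ∂μ‖ : ℂ)) ^ 2).re = ‖∫ x, e x ∂μ‖ ^ 2 := by
      rw [← Complex.ofReal_pow, Complex.ofReal_re]
    rw [h6] at h4
    rw [h4]
    change _ = _ at h5
    refine h5.symm.trans (integral_congr_ae (ae_of_all _ fun p => ?_))
    exact Complex.exp_ofReal_mul_I_re _
  have hcm : Measurable fun p : ℂ × ℂ => Real.cos (v * (d * (p.1 - p.2)).re) := by fun_prop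
  have hci : Integrable (fun p : ℂ × ℂ => Real.cos (v * (d * (p.1 - p.2)).re)) (μ.prod μ) := by
    refine (integrable_const (1 : ℝ)).mono' hcm.aestronglyMeasurable (ae_of_all _ fun p => ?_)
    rw [Real.norm_eq_abs]
    exact Real.abs_cos_le_one _
  have h1c : Integrable (fun p : ℂ × ℂ => 1 - Real.cos (v * (d * (p.1 - p.2)).re))
      (μ.prod μ) := (integrable_const 1).sub hci
  have hre : ∀ p : ℂ × ℂ, |(d * (p.1 - p.2)).re| ≤ ‖d‖ * ‖p.1 - p.2‖ := fun p => by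
    rw [← norm_mul]
    exact Complex.abs_re_le_norm _
  have hqm : Measurable fun p : ℂ × ℂ => ((d * (p.1 - p.2)).re) ^ 2 := by fun_prop
  have hqi : Integrable (fun p : ℂ × ℂ => ((d * (p.1 - p.2)).re) ^ 2) (μ.prod μ) := by
    refine ((sb_int hμ).const_mul (‖d‖ ^ 2)).mono' hqm.aestronglyMeasurable
      (ae_of_all _ fun p => ?_)
    rw [Real.norm_eq_abs, abs_of_nonneg (sq_nonneg _), ← mul_pow, ← sq_abs]
    exact pow_le_pow_left₀ (abs_nonneg _) (hre p) 2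
  have h4 : v ^ 2 / 4 * J ≤ ∫ p : ℂ × ℂ, (1 - Real.cos (v * (d * (p.1 - p.2)).re))
      ∂(μ.prod μ) := by
    have h5 : ∫ p in sbS M, (1 - Real.cos (v * (d * (p.1 - p.2)).re)) ∂(μ.prod μ) ≤
        ∫ p : ℂ × ℂ, (1 - Real.cos (v * (d * (p.1 - p.2)).re)) ∂(μ.prod μ) :=
      setIntegral_le_integral h1c (ae_of_all _ fun p => by
        have := Real.cos_le_one (v * (d * (p.1 - p.2)).re)
        change (0 : ℝ) ≤ 1 - Real.cos (v * (d * (p.1 - p.2)).re)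
        linarith)
    refine le_trans ?_ h5
    rw [hJ, ← integral_const_mul]
    refine setIntegral_mono_on (hqi.const_mul _).integrableOn h1c.integrableOn (sbS_meas M) ?_
    intro p hp
    have hp' : ‖p.1 - p.2‖ ≤ M := hp
    have h6 : |v * (d * (p.1 - p.2)).re| ≤ 1 := by
      rw [abs_mul]
      calc |v| * |(d * (p.1 - p.2)).re| ≤ |v| * (‖d‖ * ‖p.1 - p.2‖) :=
            mul_le_mul_of_nonneg_left (hre p) (abs_nonneg v)
        _ ≤ |v| * (‖d‖ * M) := mul_le_mul_of_nonneg_left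
            (mul_le_mul_of_nonneg_left hp' (norm_nonneg d)) (abs_nonneg v)
        _ = |v| * ‖d‖ * M := by ring
        _ ≤ 1 := hv
    have h7 := sb_cos h6
    rw [mul_pow] at h7
    linarith
  have h5 : ∫ p : ℂ × ℂ, (1 - Real.cos (v * (d * (p.1 - p.2)).re)) ∂(μ.prod μ) =
      1 - ‖∫ x, e x ∂μ‖ ^ 2 := by
    have h6 : ∫ p : ℂ × ℂ, (1 - Real.cos (v * (d * (p.1 - p.2)).re)) ∂(μ.prod μ) =
        ∫ _p : ℂ × ℂ, (1 : ℝ) ∂(μ.prod μ) -
          ∫ p : ℂ × ℂ, Real.cos (v * (d * (p.1 - p.2)).re) ∂(μ.prod μ) :=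
      integral_sub (integrable_const 1) hci
    rw [h6, h3]
    simp
  rw [h5] at h4
  have h6 : ‖∫ x, e x ∂μ‖ ^ 2 ≤ (Real.exp (-(v ^ 2 / 8) * J)) ^ 2 := by
    have h7 := Real.add_one_le_exp (-(v ^ 2 / 4 * J))
    have h8 : (Real.exp (-(v ^ 2 / 8) * J)) ^ 2 = Real.exp (-(v ^ 2 / 4 * J)) := by
      rw [sq, ← Real.exp_add]
      ring_nf
    rw [h8]
    linarith
  exact (pow_le_pow_iff_left₀ (norm_nonneg _) (Real.exp_pos _).le two_ne_zero).1 h6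

/-- The choice of the direction. -/
theorem sb_theta {μ : Measure ℂ} [IsProbabilityMeasure μ] (hμ : Law2 μ) {M : ℝ}
    (hM : 1 ≤ ∫ p in sbS M, ‖p.1 - p.2‖ ^ 2 ∂(μ.prod μ)) {n : ℕ} (c : Fin n → ℂ) :
    ∃ θ : ℂ, ‖θ‖ = 1 ∧ (∑ k, ‖c k‖ ^ 2) / 2 ≤
      ∑ k, ∫ p in sbS M, ((θ * c k * (p.1 - p.2)).re) ^ 2 ∂(μ.prod μ) := by
  have hqi : ∀ d : ℂ, Integrable (fun p : ℂ × ℂ => ((d * (p.1 - p.2)).re) ^ 2) (μ.prod μ) := by
    intro d
    have hqm : Measurable fun p : ℂ × ℂ => ((d * (p.1 - p.2)).re) ^ 2 := by fun_prop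
    refine ((sb_int hμ).const_mul (‖d‖ ^ 2)).mono' hqm.aestronglyMeasurable
      (ae_of_all _ fun p => ?_)
    rw [Real.norm_eq_abs, abs_of_nonneg (sq_nonneg _), ← mul_pow, ← sq_abs]
    refine pow_le_pow_left₀ (abs_nonneg _) ?_ 2
    rw [← norm_mul]
    exact Complex.abs_re_le_norm _
  have h1 : ∀ k, ‖c k‖ ^ 2 ≤ ∫ p in sbS M, (((1 : ℂ) * c k * (p.1 - p.2)).re) ^ 2 ∂(μ.prod μ) +
      ∫ p in sbS M, ((-Complex.I * c k * (p.1 - p.2)).re) ^ 2 ∂(μ.prod μ) := by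
    intro k
    have e1 : ∫ p in sbS M, ((((1 : ℂ) * c k * (p.1 - p.2)).re) ^ 2 +
        ((-Complex.I * c k * (p.1 - p.2)).re) ^ 2) ∂(μ.prod μ) =
        ∫ p in sbS M, (((1 : ℂ) * c k * (p.1 - p.2)).re) ^ 2 ∂(μ.prod μ) +
        ∫ p in sbS M, ((-Complex.I * c k * (p.1 - p.2)).re) ^ 2 ∂(μ.prod μ) :=
      integral_add (hqi _).integrableOn (hqi _).integrableOn
    rw [← e1]
    have e2 : ∫ p in sbS M, ((((1 : ℂ) * c k * (p.1 - p.2)).re) ^ 2 +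
        ((-Complex.I * c k * (p.1 - p.2)).re) ^ 2) ∂(μ.prod μ) =
        ∫ p in sbS M, ‖c k‖ ^ 2 * ‖p.1 - p.2‖ ^ 2 ∂(μ.prod μ) := by
      refine integral_congr_ae (ae_of_all _ fun p => ?_)
      change _ ^ 2 + _ ^ 2 = ‖c k‖ ^ 2 * ‖p.1 - p.2‖ ^ 2
      rw [← mul_pow, ← norm_mul, ← Complex.normSq_eq_norm_sq, Complex.normSq_apply]
      have e3 : (-Complex.I * c k * (p.1 - p.2)).re = (c k * (p.1 - p.2)).im := by
        rw [mul_assoc, neg_mul, Complex.neg_re, Complex.I_mul_re, neg_neg]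
      rw [e3, one_mul]
      ring
    rw [e2, integral_const_mul]
    nlinarith [sq_nonneg ‖c k‖]
  have h2 : ∑ k, ‖c k‖ ^ 2 ≤
      ∑ k, ∫ p in sbS M, (((1 : ℂ) * c k * (p.1 - p.2)).re) ^ 2 ∂(μ.prod μ) +
      ∑ k, ∫ p in sbS M, ((-Complex.I * c k * (p.1 - p.2)).re) ^ 2 ∂(μ.prod μ) := by
    rw [← Finset.sum_add_distrib]
    exact Finset.sum_le_sum fun k _ => h1 k
  rcases le_total ((∑ k, ‖c k‖ ^ 2) / 2)
      (∑ k, ∫ p in sbS M, (((1 : ℂ) * c k * (p.1 - p.2)).re) ^ 2 ∂(μ.prod μ)) with h | h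
  · exact ⟨1, norm_one, h⟩
  · refine ⟨-Complex.I, by simp, by linarith⟩

theorem small_ball_big {μ : Measure ℂ} [IsProbabilityMeasure μ] (hμ : Law2 μ) :
    ∃ C : ℝ, 1 ≤ C ∧ ∀ (n : ℕ) (c : Fin n → ℂ) (b : ℂ) (r : ℝ), 0 < r → (∀ k, ‖c k‖ ≤ r) →
      0 < ∑ k, ‖c k‖ ^ 2 →
      (Measure.pi fun _ : Fin n => μ) {x | ‖∑ k, c k * x k - b‖ ≤ r} ≤
        ENNReal.ofReal (C * r / Real.sqrt (∑ k, ‖c k‖ ^ 2)) := by
  obtain ⟨M, hM1, hM⟩ := sb_exists_M hμ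
  have hπ : (1 : ℝ) ≤ Real.sqrt Real.pi := by
    rw [Real.one_le_sqrt]
    linarith [Real.pi_gt_three]
  refine ⟨8 * Real.sqrt Real.pi * M, by nlinarith, ?_⟩
  intro n c b r hr hc hσ
  obtain ⟨θ, hθ, hsum⟩ := sb_theta hμ hM c
  set S := ∑ k, ‖c k‖ ^ 2 with hS
  have hMr : 0 < M * r := by positivity
  set a := 1 / (M * r) with ha
  have ha0 : 0 < a := by positivity
  set Y : (Fin n → ℂ) → ℝ := fun x => (θ * ∑ k, c k * x k).re with hY
  have hYm : Measurable Y := by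
    rw [hY]
    fun_prop
  have hE := esseen (Measure.pi fun _ : Fin n => μ) Y hYm ((θ * b).re) ha0
  -- the set is included
  have hsub : {x : Fin n → ℂ | ‖∑ k, c k * x k - b‖ ≤ r} ⊆ {x | |Y x - (θ * b).re| ≤ 1 / a} := by
    intro x hx
    have hx' : ‖∑ k, c k * x k - b‖ ≤ r := hx
    change |Y x - (θ * b).re| ≤ 1 / a
    have e1 : Y x - (θ * b).re = (θ * (∑ k, c k * x k - b)).re := by
      rw [mul_sub, Complex.sub_re]
    rw [e1]
    refine (Complex.abs_re_le_norm _).trans ?_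
    rw [norm_mul, hθ, one_mul, ha, one_div_one_div]
    nlinarith
  -- the characteristic function
  have hch : ∀ u : ℝ, |u| ≤ 1 →
      ‖∫ x, Complex.exp (((a * u * Y x : ℝ) : ℂ) * Complex.I) ∂(Measure.pi fun _ : Fin n => μ)‖ ≤
        Real.exp (-(a ^ 2 * S / 16) * u ^ 2) := by
    intro u hu
    have e1 : ∀ x : Fin n → ℂ, Complex.exp (((a * u * Y x : ℝ) : ℂ) * Complex.I) =
        ∏ k, Complex.exp ((((a * u) * (θ * c k * x k).re : ℝ) : ℂ) * Complex.I) := by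
      intro x
      rw [← Complex.exp_sum, ← Finset.sum_mul]
      congr 2
      rw [← Complex.ofReal_sum, ← Finset.mul_sum]
      congr 2
      change (θ * ∑ k, c k * x k).re = _
      rw [Finset.mul_sum, Complex.re_sum]
      exact Finset.sum_congr rfl fun k _ => by rw [mul_assoc]
    have e2 : ∫ x, Complex.exp (((a * u * Y x : ℝ) : ℂ) * Complex.I)
        ∂(Measure.pi fun _ : Fin n => μ) =
        ∏ k, ∫ x, Complex.exp ((((a * u) * (θ * c k * x).re : ℝ) : ℂ) * Complex.I) ∂μ := by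
      rw [← integral_fintype_prod_eq_prod
        (fun k x => Complex.exp ((((a * u) * (θ * c k * x).re : ℝ) : ℂ) * Complex.I))]
      exact integral_congr_ae (ae_of_all _ e1)
    rw [e2, norm_prod]
    have e3 : ∀ k : Fin n, ‖∫ x, Complex.exp ((((a * u) * (θ * c k * x).re : ℝ) : ℂ) *
        Complex.I) ∂μ‖ ≤ Real.exp (-((a * u) ^ 2 / 8) *
          ∫ p in sbS M, ((θ * c k * (p.1 - p.2)).re) ^ 2 ∂(μ.prod μ)) := by
      intro k
      refine sb_char hμ (θ * c k) (a * u) M ?_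
      rw [norm_mul, hθ, one_mul, abs_mul, abs_of_pos ha0]
      have h1 : a * |u| * ‖c k‖ * M ≤ a * 1 * r * M := by
        gcongr
        exact hc k
      refine h1.trans (le_of_eq ?_)
      rw [ha]
      field_simp
    refine (Finset.prod_le_prod (fun k _ => norm_nonneg _) fun k _ => e3 k).trans ?_
    rw [← Real.exp_sum, ← Finset.mul_sum]
    apply Real.exp_le_exp.2
    have h2 : 0 ≤ (a * u) ^ 2 / 8 := by positivity
    nlinarith [mul_le_mul_of_nonneg_left hsum h2]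
  -- the integral
  have hbnd : ∫ u in (-1 : ℝ)..1,
      ‖∫ x, Complex.exp (((a * u * Y x : ℝ) : ℂ) * Complex.I)
        ∂(Measure.pi fun _ : Fin n => μ)‖ ≤ 4 * Real.sqrt Real.pi / (a * Real.sqrt S) := by
    have hg : ∫ u : ℝ, Real.exp (-(a ^ 2 * S / 16) * u ^ 2) =
        4 * Real.sqrt Real.pi / (a * Real.sqrt S) := by
      rw [integral_gaussian]
      have h1 : Real.pi / (a ^ 2 * S / 16) = (4 * Real.sqrt Real.pi / (a * Real.sqrt S)) ^ 2 := by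
        rw [div_pow (4 * Real.sqrt Real.pi), mul_pow (4 : ℝ), mul_pow a,
          Real.sq_sqrt Real.pi_pos.le, Real.sq_sqrt hσ.le]
        field_simp
        norm_num
      rw [h1, Real.sqrt_sq (by positivity)]
    have hgi : Integrable (fun u : ℝ => Real.exp (-(a ^ 2 * S / 16) * u ^ 2)) :=
      integrable_exp_neg_mul_sq (by positivity)
    rw [← hg]
    by_cases hI : IntervalIntegrable (fun u : ℝ =>
        ‖∫ x, Complex.exp (((a * u * Y x : ℝ) : ℂ) * Complex.I)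
          ∂(Measure.pi fun _ : Fin n => μ)‖) volume (-1) 1
    · refine (intervalIntegral.integral_mono_on (by norm_num) hI hgi.intervalIntegrable
        fun u hu => hch u (abs_le.2 hu)).trans ?_
      rw [intervalIntegral.integral_of_le (by norm_num)]
      exact setIntegral_le_integral hgi (ae_of_all _ fun u => (Real.exp_pos _).le)
    · rw [intervalIntegral.integral_undef hI]
      exact integral_nonneg fun u => (Real.exp_pos _).le
  have hfin : ((Measure.pi fun _ : Fin n => μ) {x | ‖∑ k, c k * x k - b‖ ≤ r}).toReal ≤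
      8 * Real.sqrt Real.pi * M * r / Real.sqrt S := by
    refine (ENNReal.toReal_mono (measure_ne_top _ _) (measure_mono hsub)).trans (hE.trans ?_)
    refine (mul_le_mul_of_nonneg_left hbnd zero_le_two).trans (le_of_eq ?_)
    have hs : 0 < Real.sqrt S := Real.sqrt_pos.2 hσ
    rw [ha]
    field_simp
    norm_num
  rw [← ENNReal.ofReal_toReal (measure_ne_top (Measure.pi fun _ : Fin n => μ)
    {x | ‖∑ k, c k * x k - b‖ ≤ r})]
  exact ENNReal.ofReal_le_ofReal hfin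

end Pool.Agent.Circ2
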