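import Pool.Agent.Lib.Circ2.Core2
import Pool.Agent.Lib.Circ.Transfer

/-!
# Module P2': the final theorem, two moments and profiles with vanishing maximum
-/

set_option autoImplicit false

open MeasureTheory ProbabilityTheory Filter Matrix Finset

namespace Pool.Agent.Circ2

open Pool.Agent.Circ

theorem final2 (U : ∀ n : ℕ, Matrix (Fin n) (Fin n) ℝ)
    (h0 : ∀ n i j, 0 ≤ U n i j) (hcol : ∀ n (j : Fin n), ∑ i, U n i j ^ 2 = 1)
    (hrow : ∀ n (j : Fin n), ∑ i, U n j i ^ 2 = 1)
    (hsmall : ∀ δ : ℝ, 0 < δ → ∀ᶠ n in atTop, ∀ i j : Fin n, U n i j ≤ δ)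
    (Ω : Type) [MeasurableSpace Ω] (P : Measure Ω) [IsProbabilityMeasure P]
    (X : ℕ × ℕ → Ω → ℂ) (hX : ∀ p, Measurable (X p)) (hind : iIndepFun X P)
    (hid : ∀ p, IdentDistrib (X p) (X (0, 0)) P P) (h2 : MemLp (X (0, 0)) 2 P)
    (hmean : ∫ ω, X (0, 0) ω ∂P = 0) (hvar : ∫ ω, ‖X (0, 0) ω‖ ^ 2 ∂P = 1)
    (hball : ∃ K β : ℝ, 0 < β ∧ ∀ (a : ℂ) (t : ℝ), 0 < t →
      P {ω | ‖X (0, 0) ω - a‖ ≤ t} ≤ ENNReal.ofReal (K * t ^ β)) :
    ∀ f : BoundedContinuousFunction ℂ ℝ, ∀ δ : ℝ, 0 < δ →
      Tendsto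
        (fun n : ℕ => P {ω | δ <
          |((Matrix.charpoly (Matrix.of (fun i j : Fin n =>
                ((U n i j : ℝ) : ℂ) * X (i.val, j.val) ω))).roots.map
                (fun z => f z)).sum / (n : ℝ)
            - (1 / Real.pi) * ∫ z in Metric.closedBall (0 : ℂ) 1, f z|})
        atTop (nhds 0) := by
  have hX0 := hX (0, 0)
  set μ : Measure ℂ := Measure.map (X (0, 0)) P with hμdef
  have : IsProbabilityMeasure μ := Measure.isProbabilityMeasure_map hX0.aemeasurable
  have hL2 : Law2 μ := by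
    refine ⟨?_, ?_, ?_⟩
    · rw [hμdef, integrable_map_measure
        (by fun_prop : Continuous fun x : ℂ => ‖x‖ ^ 2).aestronglyMeasurable hX0.aemeasurable]
      have h := h2.integrable_norm_rpow (by norm_num) (by norm_num)
      refine h.congr (Filter.Eventually.of_forall fun ω => ?_)
      simp only [Function.comp_apply]
      norm_num
    · rw [hμdef, integral_map hX0.aemeasurable
        (by fun_prop : Continuous fun x : ℂ => x).aestronglyMeasurable]
      exact hmean
    · rw [hμdef, integral_map hX0.aemeasurable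
        (by fun_prop : Continuous fun x : ℂ => ‖x‖ ^ 2).aestronglyMeasurable]
      exact hvar
  obtain ⟨K0, β, hβ, hb⟩ := hball
  have hb' : ∀ (a : ℂ) (t : ℝ), 0 < t →
      μ (Metric.closedBall a t) ≤ ENNReal.ofReal (K0 * t ^ β) := by
    intro a t ht
    rw [hμdef, Measure.map_apply hX0 Metric.isClosed_closedBall.measurableSet]
    refine le_trans (measure_mono ?_) (hb a t ht)
    intro ω hω
    simpa [dist_eq_norm] using hω
  obtain ⟨K, α, hKα⟩ := lawNeg_of_smallBall μ hβ hb'
  have hmap : ∀ n : ℕ, Measurable (fun ω => fun i j : Fin n => X (i.val, j.val) ω) := by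
    intro n
    exact measurable_pi_lambda _ fun i => measurable_pi_lambda _ fun j => hX _
  refine weak_conv P (fun n ω => (Matrix.charpoly (Matrix.of (fun i j : Fin n =>
    ((U n i j : ℝ) : ℂ) * X (i.val, j.val) ω))).roots) ?_ ?_ ?_
  · intro n ω
    have h := (IsAlgClosed.splits (Matrix.charpoly (Matrix.of (fun i j : Fin n =>
      ((U n i j : ℝ) : ℂ) * X (i.val, j.val) ω)))).natDegree_eq_card_roots
    rw [← h, Matrix.charpoly_natDegree_eq_dim]
    simp
  · intro n r hr
    exact tr_comp (U n) hr (fun p : ℂ × Ω => p.1)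
      (fun p : ℂ × Ω => fun i j : Fin n => X (i.val, j.val) p.2) measurable_fst
      ((hmap n).comp measurable_snd)
  · intro c r hr
    have h := core2 hL2 hKα U h0 hcol hrow hsmall c hr
    refine h.congr fun n => ?_
    rw [← map_arr P X hX hind hid n, lintegral_map (tr_measurable (U n) hr c _) (hmap n)]

end Pool.Agent.Circ2
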